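import Pool.Agent.TH847.LG.Eul
import Pool.Agent.Helper923.HMertens

/-!
# A bound for `∑ N(𝔞)^(-3/2)`, uniform in the number field of given degree
-/

set_option autoImplicit false

open NumberField Finset

namespace Pool.Agent.L0h75.GN

open Pool.Agent.TH847.LG Pool.Agent.TH847.LS

/-- `∑_{p ≤ N} 1 / p ≤ log (log N) + C` -/
lemma sum_inv_primes : ∃ C : ℝ, 0 ≤ C ∧ ∀ N : ℕ, 2 ≤ N →
    ∑ p ∈ (Finset.Icc 1 N).filter Nat.Prime, 1 / (p : ℝ) ≤ Real.log (Real.log N) + C := by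
  obtain ⟨C, hC0, hC⟩ := Pool.Agent.Helper923.HMertens.mertens_ratio
  have hl2 : (0 : ℝ) < Real.log 2 := Real.log_pos (by norm_num)
  refine ⟨1 / 2 + C / Real.log 2 + |Real.log (Real.log 2)|, by positivity, fun N hN => ?_⟩
  have hlN : 0 < Real.log N := Real.log_pos (by exact_mod_cast (by omega : 1 < N))
  have h1 := hC 2 N le_rfl hN
  push_cast at h1
  have hsplit : (Finset.Icc 1 N).filter Nat.Prime = insert 2 ((Finset.Ioc 2 N).filter Nat.Prime) := by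
    ext p
    simp only [mem_filter, mem_Icc, mem_insert, mem_Ioc]
    constructor
    · rintro ⟨⟨_, h3⟩, h4⟩
      have := h4.two_le
      by_cases h5 : p = 2
      · exact Or.inl h5
      · exact Or.inr ⟨⟨by omega, h3⟩, h4⟩
    · rintro (h | ⟨⟨h3, h4⟩, h5⟩)
      · rw [h]
        exact ⟨⟨by norm_num, hN⟩, Nat.prime_two⟩
      · exact ⟨⟨by omega, h4⟩, h5⟩
  rw [hsplit, sum_insert (by simp)]
  have h2 := (abs_le.1 h1).2
  rw [Real.log_div hlN.ne' hl2.ne'] at h2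
  have h3 := neg_abs_le (Real.log (Real.log 2))
  push_cast
  linarith

lemma SK_bound (n : ℕ) : ∃ C : ℝ, 0 < C ∧ ∀ (K : Type) [Field K] [NumberField K],
    Module.finrank ℚ K = n → ∀ N : ℕ, 1 ≤ N → SK K N ≤ C * (N : ℝ) ^ (1 / 4 : ℝ) := by
  obtain ⟨C, hC0, hC⟩ := sum_inv_primes
  -- `(log N)^n ≤ c N^(1/4)`
  obtain ⟨c, hc0, hc⟩ : ∃ c : ℝ, 0 < c ∧ ∀ x : ℝ, 1 ≤ x → (Real.log x) ^ n ≤ c * x ^ (1 / 4 : ℝ) := by
    refine ⟨(4 * (n + 1) : ℝ) ^ n, by positivity, fun x hx => ?_⟩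
    have hx0 : 0 < x := by linarith
    have hlog : 0 ≤ Real.log x := Real.log_nonneg hx
    have h1 : Real.log x ≤ (4 * (n + 1) : ℝ) * x ^ (1 / (4 * (n + 1)) : ℝ) := by
      have h2 := Real.log_le_rpow_div hx0.le (ε := 1 / (4 * (n + 1) : ℝ)) (by positivity)
      calc Real.log x ≤ _ := h2
        _ = _ := by field_simp
    calc (Real.log x) ^ n ≤ ((4 * (n + 1) : ℝ) * x ^ (1 / (4 * (n + 1)) : ℝ)) ^ n :=
          pow_le_pow_left₀ hlog h1 n
      _ = (4 * (n + 1) : ℝ) ^ n * x ^ ((n : ℝ) / (4 * (n + 1)) : ℝ) := by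
          rw [mul_pow, ← Real.rpow_natCast (x ^ _), ← Real.rpow_mul hx0.le]
          congr 2
          field_simp
      _ ≤ _ := by
          refine mul_le_mul_of_nonneg_left ?_ (by positivity)
          refine Real.rpow_le_rpow_of_exponent_le hx ?_
          rw [div_le_div_iff₀ (by positivity) (by norm_num)]
          linarith
  refine ⟨Real.exp (3 * n) * (Real.exp (n * C) * c) + 1, by positivity, ?_⟩
  intro K _ _ hn N hN
  have hNr : (1 : ℝ) ≤ N := by exact_mod_cast hN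
  have hp : (1 : ℝ) ≤ (N : ℝ) ^ (1 / 4 : ℝ) := Real.one_le_rpow hNr (by norm_num)
  rcases Nat.lt_or_ge N 2 with h2 | h2
  · -- N = 1
    have hN1 : N = 1 := by omega
    subst hN1
    have hT : TT K 1 = ∅ := by
      rw [Finset.eq_empty_iff_forall_notMem]
      intro p hp
      rw [mem_TT] at hp
      have := hp.1.2.two_le
      omega
    have h3 := SK_le (K := K) hn 1
    unfold EE at h3
    rw [hT, sum_empty, mul_zero, Real.exp_zero, mul_one] at h3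
    have h4 : SK K 1 ≤ 1 := by
      unfold SK
      have h5 : FI K 1 ⊆ {⊤} := by
        intro I hI
        rw [mem_FI] at hI
        have := absNorm_pos hI.2
        rw [mem_singleton, ← Ideal.absNorm_eq_one_iff]
        omega
      calc ∑ I ∈ FI K 1, 1 / (Ideal.absNorm I : ℝ) ≤ ∑ I ∈ ({⊤} : Finset (Ideal (𝓞 K))),
            1 / (Ideal.absNorm I : ℝ) :=
            sum_le_sum_of_subset_of_nonneg h5 fun _ _ _ => by positivity
        _ = 1 := by simp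
    rw [Nat.cast_one, Real.one_rpow, mul_one]
    have : 0 ≤ Real.exp (3 * n) * (Real.exp (n * C) * c) := by positivity
    linarith
  · have h3 := SK_le (K := K) hn N
    have hlN : 0 < Real.log N := Real.log_pos (by exact_mod_cast (by omega : 1 < N))
    have h4 : EE K n N ≤ Real.exp (n * C) * (c * (N : ℝ) ^ (1 / 4 : ℝ)) := by
      unfold EE
      calc Real.exp (n * ∑ p ∈ TT K N, 1 / (p : ℝ)) ≤ Real.exp (n * (Real.log (Real.log N) + C)) := by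
            refine Real.exp_le_exp.2 (mul_le_mul_of_nonneg_left ?_ (Nat.cast_nonneg _))
            refine le_trans ?_ (hC N h2)
            refine sum_le_sum_of_subset_of_nonneg ?_ fun _ _ _ => by positivity
            intro p hp
            rw [mem_TT] at hp
            rw [mem_filter, mem_Icc]
            exact ⟨⟨hp.1.2.one_lt.le, hp.1.1⟩, hp.1.2⟩
        _ = Real.exp (n * C) * (Real.log N) ^ n := by
            rw [mul_add, add_comm, Real.exp_add, mul_comm (n : ℝ) (Real.log (Real.log N)),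
              ← Real.rpow_natCast, Real.rpow_def_of_pos hlN]
        _ ≤ _ := mul_le_mul_of_nonneg_left (hc N hNr) (Real.exp_pos _).le
    calc SK K N ≤ Real.exp (3 * n) * EE K n N := h3
      _ ≤ Real.exp (3 * n) * (Real.exp (n * C) * (c * (N : ℝ) ^ (1 / 4 : ℝ))) :=
          mul_le_mul_of_nonneg_left h4 (Real.exp_pos _).le
      _ = Real.exp (3 * n) * (Real.exp (n * C) * c) * (N : ℝ) ^ (1 / 4 : ℝ) := by ring
      _ ≤ _ := by
          refine mul_le_mul_of_nonneg_right (by linarith) (by positivity)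

/-- **the uniform bound** -/
theorem zeta_bound (n : ℕ) : ∃ B : ℝ, 0 < B ∧ ∀ (K : Type) [Field K] [NumberField K],
    Module.finrank ℚ K = n → ∀ S : Finset (Ideal (𝓞 K)), (∀ 𝔞 ∈ S, 𝔞 ≠ ⊥) →
      ∑ 𝔞 ∈ S, (Ideal.absNorm 𝔞 : ℝ) ^ (-(3 / 2) : ℝ) ≤ B := by
  obtain ⟨C, hC0, hC⟩ := SK_bound n
  have hr : (2 : ℝ) ^ (-(1 / 4) : ℝ) < 1 := by
    apply Real.rpow_lt_one_of_one_lt_of_neg <;> norm_num
  have hr0 : (0 : ℝ) < (2 : ℝ) ^ (-(1 / 4) : ℝ) := by positivity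
  refine ⟨2 * (C * (1 - (2 : ℝ) ^ (-(1 / 4) : ℝ))⁻¹), by
    have := sub_pos.2 hr
    positivity, ?_⟩
  intro K _ _ hn S hS
  classical
  -- all norms are at most `2^M`
  obtain ⟨M, hM⟩ : ∃ M : ℕ, ∀ 𝔞 ∈ S, Ideal.absNorm 𝔞 ≤ 2 ^ M := by
    refine ⟨∑ 𝔞 ∈ S, Ideal.absNorm 𝔞, fun 𝔞 h => ?_⟩
    exact (single_le_sum (f := fun 𝔞 => Ideal.absNorm 𝔞) (fun _ _ => Nat.zero_le _) h).trans
      (Nat.lt_two_pow_self).le
  have key : ∀ 𝔞 ∈ S, (Ideal.absNorm 𝔞 : ℝ) ^ (-(3 / 2) : ℝ) ≤ ∑ k ∈ range (M + 1),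
      2 * ((2 : ℝ) ^ (-(1 / 2) : ℝ)) ^ k * (if Ideal.absNorm 𝔞 ≤ 2 ^ k then
        1 / (Ideal.absNorm 𝔞 : ℝ) else 0) := by
    intro 𝔞 h
    have hN0 := absNorm_pos (hS 𝔞 h)
    have hNr : (0 : ℝ) < Ideal.absNorm 𝔞 := by exact_mod_cast hN0
    have hN1 : (1 : ℝ) ≤ Ideal.absNorm 𝔞 := by exact_mod_cast hN0
    have hex : ∃ k, Ideal.absNorm 𝔞 ≤ 2 ^ k := ⟨M, hM 𝔞 h⟩
    set k := Nat.find hex with hk
    have hk1 : Ideal.absNorm 𝔞 ≤ 2 ^ k := Nat.find_spec hex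
    have hkM : k ≤ M := Nat.find_min' hex (hM 𝔞 h)
    have hk2 : (2 : ℝ) ^ k ≤ 2 * Ideal.absNorm 𝔞 := by
      rcases Nat.eq_zero_or_pos k with h0 | h0
      · rw [h0, pow_zero]; linarith
      · have h3 := Nat.find_min hex (m := k - 1) (by omega)
        push Not at h3
        have h4 : 2 ^ k ≤ 2 * Ideal.absNorm 𝔞 := by
          have : 2 ^ k = 2 * 2 ^ (k - 1) := by
            rw [← pow_succ']
            congr 1
            omega
          omega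
        exact_mod_cast h4
    have hterm : (Ideal.absNorm 𝔞 : ℝ) ^ (-(3 / 2) : ℝ) ≤ 2 * ((2 : ℝ) ^ (-(1 / 2) : ℝ)) ^ k *
        (1 / (Ideal.absNorm 𝔞 : ℝ)) := by
      have e1 : (Ideal.absNorm 𝔞 : ℝ) ^ (-(3 / 2) : ℝ) =
          (Ideal.absNorm 𝔞 : ℝ) ^ (-(1 / 2) : ℝ) * (1 / (Ideal.absNorm 𝔞 : ℝ)) := by
        have e0 : 1 / (Ideal.absNorm 𝔞 : ℝ) = (Ideal.absNorm 𝔞 : ℝ) ^ (-1 : ℝ) := by
          rw [Real.rpow_neg_one, one_div]
        rw [e0, ← Real.rpow_add hNr]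
        norm_num
      rw [e1]
      refine mul_le_mul_of_nonneg_right ?_ (by positivity)
      have e2 : ((2 : ℝ) ^ (-(1 / 2) : ℝ)) ^ k = ((2 : ℝ) ^ k) ^ (-(1 / 2) : ℝ) := by
        rw [← Real.rpow_natCast, ← Real.rpow_mul (by norm_num), ← Real.rpow_natCast 2 k,
          ← Real.rpow_mul (by norm_num), mul_comm]
      rw [e2]
      have e3 : (2 * (Ideal.absNorm 𝔞 : ℝ)) ^ (-(1 / 2) : ℝ) ≤ ((2 : ℝ) ^ k) ^ (-(1 / 2) : ℝ) :=
        Real.rpow_le_rpow_of_nonpos (by positivity) hk2 (by norm_num)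
      have e4 : (Ideal.absNorm 𝔞 : ℝ) ^ (-(1 / 2) : ℝ) =
          (2 : ℝ) ^ (1 / 2 : ℝ) * (2 * (Ideal.absNorm 𝔞 : ℝ)) ^ (-(1 / 2) : ℝ) := by
        rw [Real.mul_rpow (by norm_num) hNr.le, ← mul_assoc, ← Real.rpow_add (by norm_num)]
        norm_num
      rw [e4]
      have e5 : (2 : ℝ) ^ (1 / 2 : ℝ) ≤ 2 := by
        calc (2 : ℝ) ^ (1 / 2 : ℝ) ≤ (2 : ℝ) ^ (1 : ℝ) :=
              Real.rpow_le_rpow_of_exponent_le (by norm_num) (by norm_num)
          _ = 2 := Real.rpow_one 2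
      exact mul_le_mul e5 e3 (by positivity) (by norm_num)
    refine hterm.trans ?_
    have h5 := single_le_sum (f := fun k => 2 * ((2 : ℝ) ^ (-(1 / 2) : ℝ)) ^ k *
      (if Ideal.absNorm 𝔞 ≤ 2 ^ k then 1 / (Ideal.absNorm 𝔞 : ℝ) else 0))
      (s := range (M + 1)) (fun i _ => by split_ifs <;> positivity) (mem_range.2 (by omega : k < M + 1))
    simp only [if_pos hk1] at h5
    exact h5
  refine (sum_le_sum key).trans ?_
  rw [sum_comm]
  have h6 : ∀ k ∈ range (M + 1), ∑ 𝔞 ∈ S, 2 * ((2 : ℝ) ^ (-(1 / 2) : ℝ)) ^ k *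
      (if Ideal.absNorm 𝔞 ≤ 2 ^ k then 1 / (Ideal.absNorm 𝔞 : ℝ) else 0) ≤
      2 * (C * ((2 : ℝ) ^ (-(1 / 4) : ℝ)) ^ k) := by
    intro k _
    rw [← mul_sum, ← sum_filter]
    have h7 : ∑ 𝔞 ∈ S.filter (fun 𝔞 => Ideal.absNorm 𝔞 ≤ 2 ^ k), 1 / (Ideal.absNorm 𝔞 : ℝ) ≤
        SK K (2 ^ k) := by
      unfold SK
      refine sum_le_sum_of_subset_of_nonneg ?_ fun _ _ _ => by positivity
      intro 𝔞 h
      rw [mem_filter] at h
      rw [mem_FI]
      exact ⟨h.2, hS 𝔞 h.1⟩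
    have h8 := h7.trans (hC K hn (2 ^ k) (Nat.one_le_two_pow))
    calc 2 * ((2 : ℝ) ^ (-(1 / 2) : ℝ)) ^ k * ∑ 𝔞 ∈ S.filter (fun 𝔞 => Ideal.absNorm 𝔞 ≤ 2 ^ k),
          1 / (Ideal.absNorm 𝔞 : ℝ) ≤
        2 * ((2 : ℝ) ^ (-(1 / 2) : ℝ)) ^ k * (C * ((2 ^ k : ℕ) : ℝ) ^ (1 / 4 : ℝ)) :=
          mul_le_mul_of_nonneg_left h8 (by positivity)
      _ = 2 * (C * (((2 : ℝ) ^ (-(1 / 2) : ℝ)) ^ k * (((2 : ℝ) ^ (1 / 4 : ℝ)) ^ k))) := by
          push_cast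
          rw [← Real.rpow_natCast (2 : ℝ) k, ← Real.rpow_mul (by norm_num),
            ← Real.rpow_natCast ((2 : ℝ) ^ (1 / 4 : ℝ)) k, ← Real.rpow_mul (by norm_num),
            mul_comm (k : ℝ) (1 / 4)]
          ring
      _ = _ := by
          rw [← mul_pow, ← Real.rpow_add (by norm_num)]
          norm_num
  refine (sum_le_sum h6).trans ?_
  rw [← mul_sum, ← mul_sum]
  have h9 : ∑ k ∈ range (M + 1), ((2 : ℝ) ^ (-(1 / 4) : ℝ)) ^ k ≤ (1 - (2 : ℝ) ^ (-(1 / 4) : ℝ))⁻¹ :=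
    (Summable.sum_le_tsum _ (fun _ _ => by positivity)
      (summable_geometric_of_lt_one hr0.le hr)).trans_eq (tsum_geometric_of_lt_one hr0.le hr)
  gcongr

end Pool.Agent.L0h75.GN
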