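import Mathlib

/-!
# The Moebius function of a unique factorization monoid
-/

set_option autoImplicit false

open UniqueFactorizationMonoid

namespace Pool.Agent.L0h75.GN

variable {M : Type} [CommMonoidWithZero M] [NormalizationMonoid M] [UniqueFactorizationMonoid M]
  [Subsingleton Mˣ] [Nontrivial M]

open Classical in
/-- the Moebius function -/
noncomputable def mob (a : M) : ℂ := if radical a = a then (-1) ^ (primeFactors a).card else 0

lemma norm_mob_le (a : M) : ‖mob a‖ ≤ 1 := by
  unfold mob
  split_ifs
  · rw [norm_pow, norm_neg, norm_one, one_pow]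
  · rw [norm_zero]; exact zero_le_one

lemma mob_one : mob (1 : M) = 1 := by
  unfold mob
  rw [if_pos radical_one, primeFactors_one, Finset.card_empty, pow_zero]

lemma mob_mul {a b : M} (h : IsRelPrime a b) (ha : a ≠ 0) (hb : b ≠ 0) :
    mob (a * b) = mob a * mob b := by
  have hc := primeFactors_mul_eq_disjUnion h
  by_cases h1 : radical a = a ∧ radical b = b
  · unfold mob
    rw [if_pos h1.1, if_pos h1.2, if_pos (by rw [radical_mul h, h1.1, h1.2]), hc,
      Finset.card_disjUnion, pow_add]
  · have h2 : radical (a * b) ≠ a * b := by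
      intro h3
      rw [radical_mul h] at h3
      obtain ⟨x, hx⟩ := radical_dvd_self (a := a)
      obtain ⟨y, hy⟩ := radical_dvd_self (a := b)
      have hra : radical a ≠ 0 := radical_ne_zero
      have hrb : radical b ≠ 0 := radical_ne_zero
      have h4 : radical a * radical b * (x * y) = radical a * radical b * 1 := by
        rw [mul_one]
        calc radical a * radical b * (x * y) = (radical a * x) * (radical b * y) := by
              rw [mul_mul_mul_comm]
          _ = a * b := by rw [← hx, ← hy]
          _ = _ := h3.symm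
      have h5 := mul_left_cancel₀ (mul_ne_zero hra hrb) h4
      have hx1 : x = 1 := by
        have := IsUnit.of_mul_eq_one y h5
        exact isUnit_iff_eq_one.1 this
      have hy1 : y = 1 := by rw [hx1, one_mul] at h5; exact h5
      apply h1
      rw [hx1, mul_one] at hx
      rw [hy1, mul_one] at hy
      exact ⟨hx.symm, hy.symm⟩
    unfold mob
    rw [if_neg h2]
    by_cases h3 : radical a = a
    · have h4 : radical b ≠ b := fun h4 => h1 ⟨h3, h4⟩
      rw [if_neg h4, mul_zero]
    · rw [if_neg h3, zero_mul]

omit [Subsingleton Mˣ] in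
lemma primeFactors_prod' (T : Finset M) (hT : ∀ p ∈ T, Prime p ∧ normalize p = p) :
    T.prod id ≠ 0 ∧ primeFactors (T.prod id) = T := by
  classical
  induction T using Finset.induction_on with
  | empty => exact ⟨by simp, by simp⟩
  | insert p S hp ih =>
    obtain ⟨h1, h2⟩ := ih fun q hq => hT q (Finset.mem_insert_of_mem hq)
    obtain ⟨hpp, hpn⟩ := hT p (Finset.mem_insert_self _ _)
    rw [Finset.prod_insert hp]
    refine ⟨mul_ne_zero hpp.ne_zero h1, ?_⟩
    rw [id, primeFactors_mul_eq_union hpp.ne_zero h1, h2]
    have h3 : primeFactors p = {p} := by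
      unfold primeFactors
      rw [normalizedFactors_irreducible hpp.irreducible, hpn]
      simp
    rw [h3]
    rfl

open Classical in
/-- **the convolution identity** -/
theorem sum_mob {a : M} (ha : a ≠ 0) (S : Finset (M × M)) (hS : ∀ q : M × M, q ∈ S ↔ q.1 * q.2 = a) :
    ∑ q ∈ S, mob q.1 = if a = 1 then 1 else 0 := by
  classical
  -- cofactors
  have hcof : ∀ T : Finset M, ∃ c : M, T ⊆ primeFactors a → T.prod id * c = a := by
    intro T
    by_cases h : T ⊆ primeFactors a
    · have h1 : radical a ∣ a := radical_dvd_self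
      have h2 : T.prod id ∣ a := by
        refine dvd_trans ?_ h1
        unfold radical
        exact Finset.prod_dvd_prod_of_subset _ _ _ h
      obtain ⟨c, hc⟩ := h2
      exact ⟨c, fun _ => hc.symm⟩
    · exact ⟨0, fun h' => absurd h' h⟩
  choose c hc using hcof
  have hprime : ∀ T : Finset M, T ⊆ primeFactors a → ∀ p ∈ T, Prime p ∧ normalize p = p := by
    intro T hT p hp
    have := hT hp
    rw [mem_primeFactors] at this
    exact ⟨prime_of_normalized_factor p this, normalize_normalized_factor p this⟩
  have h1 : ∑ q ∈ S, mob q.1 = ∑ q ∈ S.filter (fun q => radical q.1 = q.1),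
      (-1 : ℂ) ^ (primeFactors q.1).card := by
    rw [Finset.sum_filter]
    exact Finset.sum_congr rfl fun q _ => rfl
  have h2 : ∑ q ∈ S.filter (fun q => radical q.1 = q.1), (-1 : ℂ) ^ (primeFactors q.1).card =
      ∑ T ∈ (primeFactors a).powerset, (-1 : ℂ) ^ T.card := by
    refine Finset.sum_bij' (fun q _ => primeFactors q.1) (fun T _ => (T.prod id, c T))
      ?_ ?_ ?_ ?_ ?_
    · intro q hq
      rw [Finset.mem_filter, hS] at hq
      have hq1 : q.1 ≠ 0 := fun h => ha (by rw [← hq.1, h, zero_mul])
      have hq2 : q.2 ≠ 0 := fun h => ha (by rw [← hq.1, h, mul_zero])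
      rw [Finset.mem_powerset, ← hq.1, primeFactors_mul_eq_union hq1 hq2]
      exact Finset.subset_union_left
    · intro T hT
      rw [Finset.mem_powerset] at hT
      rw [Finset.mem_filter, hS]
      refine ⟨hc T hT, ?_⟩
      show radical (T.prod id) = T.prod id
      unfold radical
      rw [(primeFactors_prod' T (hprime T hT)).2]
    · intro q hq
      rw [Finset.mem_filter, hS] at hq
      have hq1 : q.1 ≠ 0 := fun h => ha (by rw [← hq.1, h, zero_mul])
      have hq2 : q.2 ≠ 0 := fun h => ha (by rw [← hq.1, h, mul_zero])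
      have h3 : primeFactors q.1 ⊆ primeFactors a := by
        rw [← hq.1, primeFactors_mul_eq_union hq1 hq2]
        exact Finset.subset_union_left
      have h4 : (primeFactors q.1).prod id = q.1 := hq.2
      have h5 := hc _ h3
      rw [h4] at h5
      refine Prod.ext h4 ?_
      exact mul_left_cancel₀ hq1 (h5.trans hq.1.symm)
    · intro T hT
      rw [Finset.mem_powerset] at hT
      exact (primeFactors_prod' T (hprime T hT)).2
    · intro q _
      rfl
  rw [h1, h2]
  have h3 := Finset.sum_powerset_neg_one_pow_card (x := primeFactors a)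
  have h4 : ∑ T ∈ (primeFactors a).powerset, (-1 : ℂ) ^ T.card =
      ((∑ T ∈ (primeFactors a).powerset, (-1 : ℤ) ^ T.card : ℤ) : ℂ) := by
    push_cast
    rfl
  rw [h4, h3]
  by_cases h5 : a = 1
  · rw [if_pos h5, if_pos (by rw [h5, primeFactors_one])]
    simp
  · rw [if_neg h5, if_neg]
    · simp
    · rw [primeFactors_eq_empty_iff ha]
      exact fun h => h5 (isUnit_iff_eq_one.1 h)

end Pool.Agent.L0h75.GN
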