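import Pool.Agent.L0h75.GN.Hom
import Pool.Agent.L0h75.GN.Mob
import Pool.Agent.H353R2.Z2
import Pool.Agent.H38R2.CG.N2
import Pool.Agent.TH847.LG.Eul

/-!
# Arithmetic functions attached to functions on ideals
-/

set_option autoImplicit false

open NumberField Module Finset UniqueFactorizationMonoid

namespace Pool.Agent.L0h75.GN

open Pool.Agent.TH847.LG Pool.Agent.TH847.LS

variable {L : Type} [Field L] [NumberField L]

/-- the arithmetic function attached to a function on the ideals -/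
noncomputable def AS (g : Ideal (𝓞 L) → ℂ) : ArithmeticFunction ℂ :=
  ⟨fun n => if n = 0 then 0 else ∑ 𝔞 ∈ NS L n, g 𝔞, if_pos rfl⟩

lemma AS_apply (g : Ideal (𝓞 L) → ℂ) {n : ℕ} (hn : n ≠ 0) : AS g n = ∑ 𝔞 ∈ NS L n, g 𝔞 := by
  show (if n = 0 then 0 else ∑ 𝔞 ∈ NS L n, g 𝔞) = _
  rw [if_neg hn]

lemma NS_one : NS L 1 = {⊤} := by
  ext 𝔞
  rw [mem_NS, mem_singleton, Ideal.absNorm_eq_one_iff]

lemma NS_ne_bot {n : ℕ} (hn : n ≠ 0) {𝔞 : Ideal (𝓞 L)} (h : 𝔞 ∈ NS L n) : 𝔞 ≠ ⊥ := by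
  rintro rfl
  rw [mem_NS, Ideal.absNorm_bot] at h
  exact hn h.symm

lemma sum_NS_mul {a b : ℕ} (hab : a.Coprime b) (g : Ideal (𝓞 L) → ℂ) :
    ∑ 𝔠 ∈ NS L (a * b), g 𝔠 = ∑ x ∈ NS L a ×ˢ NS L b, g (x.1 * x.2) := by
  symm
  refine Finset.sum_bij (fun x _ => x.1 * x.2) ?_ ?_ ?_ ?_
  · intro x hx
    rw [mem_product, mem_NS, mem_NS] at hx
    rw [mem_NS, map_mul, hx.1, hx.2]
  · rintro ⟨I, J⟩ h ⟨I', J'⟩ h' h0
    rw [mem_product, mem_NS, mem_NS] at h h'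
    simp only at h h' h0
    have c1 : IsCoprime I J' := H38R2.CG.N2h.coprime_of_norm L (by rw [h.1, h'.2]; exact hab)
    have c2 : IsCoprime I' J := H38R2.CG.N2h.coprime_of_norm L (by rw [h'.1, h.2]; exact hab)
    have d1 : I ∣ I' := c1.dvd_of_dvd_mul_right (h0 ▸ dvd_mul_right I J)
    have d2 : I' ∣ I := c2.dvd_of_dvd_mul_right (h0 ▸ dvd_mul_right I' J')
    have d3 : J ∣ J' := c2.symm.dvd_of_dvd_mul_left (h0 ▸ dvd_mul_left J I)
    have d4 : J' ∣ J := c1.symm.dvd_of_dvd_mul_left (h0 ▸ dvd_mul_left J' I')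
    have e1 : I = I' := le_antisymm (Ideal.dvd_iff_le.1 d2) (Ideal.dvd_iff_le.1 d1)
    have e2 : J = J' := le_antisymm (Ideal.dvd_iff_le.1 d4) (Ideal.dvd_iff_le.1 d3)
    rw [e1, e2]
  · intro M hM
    rw [mem_NS] at hM
    set A := Ideal.span {(a : 𝓞 L)} with hA
    set B := Ideal.span {(b : 𝓞 L)} with hB
    have hcop : IsCoprime A B := by
      apply H38R2.CG.N2h.coprime_of_norm L
      rw [H38R2.CG.N2h.norm_nat, H38R2.CG.N2h.norm_nat]
      exact Nat.Coprime.pow _ _ hab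
    have hmem : (a : 𝓞 L) * b ∈ M := by
      have := Ideal.absNorm_mem M
      rw [hM] at this
      exact_mod_cast this
    have hprod : (M ⊔ A) * (M ⊔ B) = M := by
      apply le_antisymm
      · rw [Ideal.sup_mul, Ideal.mul_sup, Ideal.mul_sup]
        refine sup_le (sup_le Ideal.mul_le_left Ideal.mul_le_left)
          (sup_le Ideal.mul_le_right ?_)
        rw [hA, hB, Ideal.span_singleton_mul_span_singleton, Ideal.span_singleton_le_iff_mem]
        exact hmem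
      · intro x hx
        obtain ⟨i, hi, j, hj, hij⟩ := Ideal.isCoprime_iff_exists.1 hcop
        have h1 : i * x ∈ (M ⊔ A) * (M ⊔ B) :=
          mul_comm (M ⊔ B) (M ⊔ A) ▸ (mul_comm i x ▸
            Ideal.mul_mem_mul (I := M ⊔ B) (J := M ⊔ A) (Ideal.mem_sup_left hx) (Ideal.mem_sup_right hi))
        have h2 : x * j ∈ (M ⊔ A) * (M ⊔ B) :=
          Ideal.mul_mem_mul (Ideal.mem_sup_left hx) (Ideal.mem_sup_right hj)
        have h3 : x = i * x + x * j := by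
          rw [mul_comm x j, ← add_mul, hij, one_mul]
        rw [h3]
        exact Ideal.add_mem _ h1 h2
    have hn : Ideal.absNorm (M ⊔ A) * Ideal.absNorm (M ⊔ B) = a * b := by
      rw [← map_mul, hprod, hM]
    have g1 : Ideal.absNorm (M ⊔ A) ∣ a ^ Module.finrank ℤ (𝓞 L) := by
      rw [← H38R2.CG.N2h.norm_nat]
      exact Ideal.absNorm_dvd_absNorm_of_le le_sup_right
    have g2 : Ideal.absNorm (M ⊔ B) ∣ b ^ Module.finrank ℤ (𝓞 L) := by
      rw [← H38R2.CG.N2h.norm_nat]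
      exact Ideal.absNorm_dvd_absNorm_of_le le_sup_right
    have k1 : (Ideal.absNorm (M ⊔ A)).Coprime b :=
      Nat.Coprime.coprime_dvd_left g1 (Nat.Coprime.pow_left _ hab)
    have k2 : (Ideal.absNorm (M ⊔ B)).Coprime a :=
      Nat.Coprime.coprime_dvd_left g2 (Nat.Coprime.pow_left _ hab.symm)
    have l1 : Ideal.absNorm (M ⊔ A) ∣ a :=
      k1.dvd_of_dvd_mul_right (hn ▸ dvd_mul_right _ _)
    have l2 : Ideal.absNorm (M ⊔ B) ∣ b :=
      k2.dvd_of_dvd_mul_left (hn ▸ dvd_mul_left _ _)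
    have m1 : a ∣ Ideal.absNorm (M ⊔ A) :=
      k2.symm.dvd_of_dvd_mul_right (hn ▸ dvd_mul_right a b)
    have m2 : b ∣ Ideal.absNorm (M ⊔ B) :=
      k1.symm.dvd_of_dvd_mul_left (hn ▸ dvd_mul_left b a)
    refine ⟨(M ⊔ A, M ⊔ B), ?_, hprod⟩
    rw [mem_product, mem_NS, mem_NS]
    exact ⟨Nat.dvd_antisymm l1 m1, Nat.dvd_antisymm l2 m2⟩
  · intro _ _
    rfl

lemma AS_mult {g : Ideal (𝓞 L) → ℂ} (h1 : g ⊤ = 1)
    (hm : ∀ 𝔞 𝔟 : Ideal (𝓞 L), 𝔞 ≠ ⊥ → 𝔟 ≠ ⊥ → IsCoprime 𝔞 𝔟 → g (𝔞 * 𝔟) = g 𝔞 * g 𝔟) :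
    (AS g).IsMultiplicative := by
  refine ⟨by rw [AS_apply g one_ne_zero, NS_one, sum_singleton, h1], ?_⟩
  intro a b hab
  rcases eq_or_ne a 0 with rfl | ha
  · rw [zero_mul, ArithmeticFunction.map_zero, zero_mul]
  rcases eq_or_ne b 0 with rfl | hb
  · rw [mul_zero, ArithmeticFunction.map_zero, mul_zero]
  rw [AS_apply g (mul_ne_zero ha hb), AS_apply g ha, AS_apply g hb, sum_NS_mul hab, sum_mul_sum,
    ← sum_product']
  refine sum_congr rfl fun x hx => ?_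
  rw [mem_product] at hx
  refine hm _ _ (NS_ne_bot ha hx.1) (NS_ne_bot hb hx.2) ?_
  rw [mem_NS, mem_NS] at hx
  apply H38R2.CG.N2h.coprime_of_norm L
  rw [hx.1, hx.2]
  exact hab

/-- the function `μ χ` -/
noncomputable def muchi (χ : Ideal (𝓞 L) →*₀ ℂ) (𝔞 : Ideal (𝓞 L)) : ℂ := mob 𝔞 * χ 𝔞

lemma isRelPrime_of {𝔞 𝔟 : Ideal (𝓞 L)} (h : IsCoprime 𝔞 𝔟) : IsRelPrime 𝔞 𝔟 :=
  h.isRelPrime

lemma AS_chi_mult (χ : Ideal (𝓞 L) →*₀ ℂ) : (AS (fun 𝔞 => χ 𝔞)).IsMultiplicative :=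
  AS_mult (by rw [← Ideal.one_eq_top, map_one]) fun 𝔞 𝔟 _ _ _ => map_mul χ 𝔞 𝔟

lemma AS_muchi_mult (χ : Ideal (𝓞 L) →*₀ ℂ) : (AS (muchi χ)).IsMultiplicative := by
  refine AS_mult ?_ ?_
  · unfold muchi
    rw [← Ideal.one_eq_top, map_one, mob_one, mul_one]
  · intro 𝔞 𝔟 h𝔞 h𝔟 h
    unfold muchi
    rw [mob_mul (isRelPrime_of h) h𝔞 h𝔟, map_mul]
    ring

lemma AS_inv (χ : Ideal (𝓞 L) →*₀ ℂ) : AS (muchi χ) * AS (fun 𝔞 => χ 𝔞) = 1 := by
  classical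
  ext n
  rcases eq_or_ne n 0 with rfl | hn
  · rw [ArithmeticFunction.map_zero, ArithmeticFunction.map_zero]
  rw [ArithmeticFunction.mul_apply]
  have h1 : ∀ x ∈ n.divisorsAntidiagonal, AS (muchi χ) x.1 * AS (fun 𝔞 => χ 𝔞) x.2 =
      ∑ y ∈ NS L x.1 ×ˢ NS L x.2, mob y.1 * χ (y.1 * y.2) := by
    intro x hx
    rw [Nat.mem_divisorsAntidiagonal] at hx
    have hx1 : x.1 ≠ 0 := fun h => hn (by rw [← hx.1, h, zero_mul])
    have hx2 : x.2 ≠ 0 := fun h => hn (by rw [← hx.1, h, mul_zero])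
    rw [AS_apply _ hx1, AS_apply _ hx2, sum_mul_sum, ← sum_product']
    refine sum_congr rfl fun y _ => ?_
    unfold muchi
    rw [map_mul]
    ring
  rw [sum_congr rfl h1]
  rw [← sum_biUnion (s := n.divisorsAntidiagonal) (t := fun x => NS L x.1 ×ˢ NS L x.2)
    (f := fun y => mob y.1 * χ (y.1 * y.2))]
  swap
  · intro x _ x' _ hxx'
    rw [Function.onFun, disjoint_left]
    intro y hy hy'
    rw [mem_product, mem_NS, mem_NS] at hy hy'
    exact hxx' (Prod.ext (hy.1.symm.trans hy'.1) (hy.2.symm.trans hy'.2))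
  set P := n.divisorsAntidiagonal.biUnion fun x => NS L x.1 ×ˢ NS L x.2 with hP
  have hmP : ∀ y : Ideal (𝓞 L) × Ideal (𝓞 L), y ∈ P ↔ Ideal.absNorm (y.1 * y.2) = n := by
    intro y
    rw [hP, mem_biUnion, map_mul]
    constructor
    · rintro ⟨x, hx, hy⟩
      rw [mem_product, mem_NS, mem_NS] at hy
      rw [Nat.mem_divisorsAntidiagonal] at hx
      rw [hy.1, hy.2, hx.1]
    · intro h
      refine ⟨(Ideal.absNorm y.1, Ideal.absNorm y.2), ?_, ?_⟩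
      · rw [Nat.mem_divisorsAntidiagonal]
        exact ⟨h, hn⟩
      · rw [mem_product, mem_NS, mem_NS]
        exact ⟨rfl, rfl⟩
  rw [← sum_fiberwise_of_maps_to (s := P) (t := NS L n) (g := fun y => y.1 * y.2)
    (fun y hy => by rw [mem_NS]; exact (hmP y).1 hy)]
  have h2 : ∀ 𝔠 ∈ NS L n, ∑ y ∈ P with y.1 * y.2 = 𝔠, mob y.1 * χ (y.1 * y.2) =
      if 𝔠 = 1 then 1 else 0 := by
    intro 𝔠 h𝔠
    have h3 : ∑ y ∈ P with y.1 * y.2 = 𝔠, mob y.1 * χ (y.1 * y.2) =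
        (∑ y ∈ P with y.1 * y.2 = 𝔠, mob y.1) * χ 𝔠 := by
      rw [sum_mul]
      refine sum_congr rfl fun y hy => ?_
      rw [mem_filter] at hy
      rw [hy.2]
    rw [h3, sum_mob (NS_ne_bot hn h𝔠)]
    · split_ifs with h4
      · rw [h4, map_one, mul_one]
      · rw [zero_mul]
    · intro y
      rw [mem_filter, hmP]
      constructor
      · exact fun h => h.2
      · intro h
        refine ⟨?_, h⟩
        rw [h]
        exact mem_NS.1 h𝔠
  rw [sum_congr rfl h2, sum_ite_eq', ArithmeticFunction.one_apply]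
  have h3 : (1 : Ideal (𝓞 L)) ∈ NS L n ↔ n = 1 := by
    rw [mem_NS, Ideal.one_eq_top, Ideal.absNorm_top, eq_comm]
  by_cases h4 : n = 1
  · rw [if_pos h4, if_pos (h3.2 h4)]
  · rw [if_neg h4, if_neg (fun h => h4 (h3.1 h))]

/-- the number of squarefree ideals of norm `n` -/
lemma card_sqf (h4 : finrank ℚ L = 4) {n : ℕ} (hn : n ≠ 0) :
    ((NS L n).filter fun 𝔞 => radical 𝔞 = 𝔞).card ≤ 2 ^ (4 * n.primeFactors.card) := by
  classical
  set Q := (PI L n).filter (fun P => (Ideal.absNorm P).minFac ∈ n.primeFactors) with hQ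
  have hQc : Q.card ≤ 4 * n.primeFactors.card := by
    have h1 := Finset.card_eq_sum_card_fiberwise (s := Q) (t := n.primeFactors)
      (f := fun P => (Ideal.absNorm P).minFac) (fun P hP => by
        rw [Finset.mem_coe, hQ, mem_filter] at hP
        exact hP.2)
    rw [h1]
    calc ∑ p ∈ n.primeFactors, (Q.filter fun P => (Ideal.absNorm P).minFac = p).card ≤
        ∑ p ∈ n.primeFactors, 4 := by
          refine sum_le_sum fun p _ => le_trans (card_le_card ?_) (card_fiber (K := L) h4 n p)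
          intro P hP
          rw [mem_filter, hQ, mem_filter] at hP
          rw [mem_filter]
          exact ⟨hP.1.1, hP.2⟩
      _ = 4 * n.primeFactors.card := by
          rw [sum_const, smul_eq_mul, mul_comm]
  calc ((NS L n).filter fun 𝔞 => radical 𝔞 = 𝔞).card ≤ Q.powerset.card := by
        refine Finset.card_le_card_of_injOn (fun 𝔞 => primeFactors 𝔞) ?_ ?_
        · intro 𝔞 h𝔞
          rw [Finset.mem_coe, mem_filter] at h𝔞
          rw [Finset.mem_coe, mem_powerset]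
          intro P hP
          rw [mem_primeFactors] at hP
          have hPp : Prime P := prime_of_normalized_factor P hP
          have hd : P ∣ 𝔞 := dvd_of_mem_normalizedFactors hP
          have hN : Ideal.absNorm P ∣ n := by
            rw [← mem_NS.1 h𝔞.1]
            exact Ideal.absNorm_dvd_absNorm_of_le (Ideal.le_of_dvd hd)
          rw [hQ, mem_filter, mem_PI]
          refine ⟨⟨⟨Nat.le_of_dvd (Nat.pos_of_ne_zero hn) hN, hPp.ne_zero⟩,
            Ideal.isPrime_of_prime hPp⟩, ?_⟩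
          rw [Nat.mem_primeFactors]
          refine ⟨Nat.minFac_prime ?_, (Nat.minFac_dvd _).trans hN, hn⟩
          intro h
          rw [Ideal.absNorm_eq_one_iff] at h
          exact hPp.not_isUnit (by rw [h, ← Ideal.one_eq_top]; exact isUnit_one)
        · intro 𝔞 h𝔞 𝔟 h𝔟 h
          rw [Finset.mem_coe, mem_filter] at h𝔞 h𝔟
          simp only at h
          rw [← h𝔞.2, ← h𝔟.2]
          unfold radical
          rw [h]
    _ = 2 ^ Q.card := card_powerset Q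
    _ ≤ _ := Nat.pow_le_pow_right (by norm_num) hQc

lemma norm_AS_muchi (h4 : finrank ℚ L = 4) {χ : Ideal (𝓞 L) →*₀ ℂ} (hχ : ∀ 𝔞, ‖χ 𝔞‖ ≤ 1) {n : ℕ}
    (hn : n ≠ 0) : ‖AS (muchi χ) n‖ ≤ 2 ^ (4 * n.primeFactors.card) := by
  classical
  rw [AS_apply _ hn]
  have h1 : ∑ 𝔞 ∈ NS L n, muchi χ 𝔞 = ∑ 𝔞 ∈ (NS L n).filter (fun 𝔞 => radical 𝔞 = 𝔞), muchi χ 𝔞 := by
    rw [sum_filter]
    refine sum_congr rfl fun 𝔞 _ => ?_
    split_ifs with h
    · rfl
    · unfold muchi mob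
      rw [if_neg h, zero_mul]
  rw [h1]
  calc ‖∑ 𝔞 ∈ (NS L n).filter (fun 𝔞 => radical 𝔞 = 𝔞), muchi χ 𝔞‖ ≤
      ∑ 𝔞 ∈ (NS L n).filter (fun 𝔞 => radical 𝔞 = 𝔞), (1 : ℝ) := by
        refine norm_sum_le_of_le _ fun 𝔞 _ => ?_
        unfold muchi
        rw [norm_mul]
        calc ‖mob 𝔞‖ * ‖χ 𝔞‖ ≤ 1 * 1 :=
              mul_le_mul (norm_mob_le _) (hχ _) (norm_nonneg _) zero_le_one
          _ = 1 := one_mul 1
    _ = ((NS L n).filter fun 𝔞 => radical 𝔞 = 𝔞).card := by rw [sum_const, nsmul_eq_mul, mul_one]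
    _ ≤ _ := by exact_mod_cast card_sqf h4 hn

lemma radical_of_squarefree {𝔞 : Ideal (𝓞 L)} (h0 : 𝔞 ≠ ⊥) (h : Squarefree (Ideal.absNorm 𝔞)) :
    radical 𝔞 = 𝔞 := by
  have h1 : Squarefree 𝔞 := by
    intro 𝔟 h𝔟
    have h2 : Ideal.absNorm 𝔟 * Ideal.absNorm 𝔟 ∣ Ideal.absNorm 𝔞 := by
      rw [← map_mul]
      exact Ideal.absNorm_dvd_absNorm_of_le (Ideal.le_of_dvd h𝔟)
    have h3 := Nat.isUnit_iff.1 (h _ h2)
    rw [Ideal.absNorm_eq_one_iff] at h3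
    rw [h3, ← Ideal.one_eq_top]
    exact isUnit_one
  exact associated_iff_eq.1 (radical_associated h1.isRadical h0)

lemma norm_AS_chi (h4 : finrank ℚ L = 4) {χ : Ideal (𝓞 L) →*₀ ℂ} (hχ : ∀ 𝔞, ‖χ 𝔞‖ ≤ 1) {n : ℕ}
    (hn : Squarefree n) : ‖AS (fun 𝔞 => χ 𝔞) n‖ ≤ 2 ^ (4 * n.primeFactors.card) := by
  classical
  have hn0 := hn.ne_zero
  rw [AS_apply _ hn0]
  have h1 : NS L n = (NS L n).filter (fun 𝔞 => radical 𝔞 = 𝔞) := by
    ext 𝔞
    rw [mem_filter]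
    constructor
    · intro h
      refine ⟨h, radical_of_squarefree (NS_ne_bot hn0 h) ?_⟩
      rw [mem_NS.1 h]
      exact hn
    · exact fun h => h.1
  rw [h1]
  calc ‖∑ 𝔞 ∈ (NS L n).filter (fun 𝔞 => radical 𝔞 = 𝔞), χ 𝔞‖ ≤
      ∑ 𝔞 ∈ (NS L n).filter (fun 𝔞 => radical 𝔞 = 𝔞), (1 : ℝ) :=
        norm_sum_le_of_le _ fun 𝔞 _ => hχ 𝔞
    _ = ((NS L n).filter fun 𝔞 => radical 𝔞 = 𝔞).card := by rw [sum_const, nsmul_eq_mul, mul_one]
    _ ≤ _ := by exact_mod_cast card_sqf h4 hn0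

open Classical in
/-- the restriction of `AS χ` to the squarefree integers prime to `q` -/
noncomputable def ff (q : ℕ) (χ : Ideal (𝓞 L) →*₀ ℂ) : ArithmeticFunction ℂ :=
  ⟨fun n => if Squarefree n ∧ n.Coprime q then AS (fun 𝔞 => χ 𝔞) n else 0,
    if_neg fun h => not_squarefree_zero h.1⟩

open Classical in
lemma ff_apply (q : ℕ) (χ : Ideal (𝓞 L) →*₀ ℂ) (n : ℕ) :
    ff q χ n = if Squarefree n ∧ n.Coprime q then AS (fun 𝔞 => χ 𝔞) n else 0 := rfl

lemma ff_mult (q : ℕ) (χ : Ideal (𝓞 L) →*₀ ℂ) : (ff q χ).IsMultiplicative := by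
  classical
  refine ⟨?_, ?_⟩
  · rw [ff_apply, if_pos ⟨squarefree_one, Nat.coprime_one_left q⟩, (AS_chi_mult χ).map_one]
  · intro m n hmn
    have hk : Squarefree (m * n) ∧ (m * n).Coprime q ↔
        (Squarefree m ∧ m.Coprime q) ∧ (Squarefree n ∧ n.Coprime q) := by
      rw [Nat.squarefree_mul hmn, Nat.coprime_mul_iff_left]
      tauto
    rw [ff_apply, ff_apply, ff_apply, (AS_chi_mult χ).map_mul_of_coprime hmn]
    by_cases h1 : Squarefree m ∧ m.Coprime q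
    · by_cases h2 : Squarefree n ∧ n.Coprime q
      · rw [if_pos h1, if_pos h2, if_pos (hk.2 ⟨h1, h2⟩)]
      · rw [if_neg h2, mul_zero, if_neg fun h => h2 (hk.1 h).2]
    · rw [if_neg h1, zero_mul, if_neg fun h => h1 (hk.1 h).1]

lemma norm_ff (h4 : finrank ℚ L = 4) (q : ℕ) {χ : Ideal (𝓞 L) →*₀ ℂ} (hχ : ∀ 𝔞, ‖χ 𝔞‖ ≤ 1) (n : ℕ) :
    ‖ff q χ n‖ ≤ 2 ^ (4 * n.primeFactors.card) := by
  classical
  rw [ff_apply]
  split_ifs with h
  · exact norm_AS_chi h4 hχ h.1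
  · rw [norm_zero]; positivity

/-- the convolution factor -/
noncomputable def hh (q : ℕ) (χ : Ideal (𝓞 L) →*₀ ℂ) : ArithmeticFunction ℂ :=
  ff q χ * AS (muchi χ)

lemma hh_mul (q : ℕ) (χ : Ideal (𝓞 L) →*₀ ℂ) : hh q χ * AS (fun 𝔞 => χ 𝔞) = ff q χ := by
  unfold hh
  rw [mul_assoc, AS_inv, mul_one]

lemma hh_mult (q : ℕ) (χ : Ideal (𝓞 L) →*₀ ℂ) : (hh q χ).IsMultiplicative :=
  (ff_mult q χ).mul (AS_muchi_mult χ)

lemma hh_prime (q : ℕ) (χ : Ideal (𝓞 L) →*₀ ℂ) {p : ℕ} (hp : p.Prime) (hq : ¬ p ∣ q) :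
    hh q χ p = 0 := by
  classical
  have h1 : (AS (muchi χ) * AS (fun 𝔞 => χ 𝔞)) p = 0 := by
    rw [AS_inv, ArithmeticFunction.one_apply, if_neg hp.ne_one]
  have h2 : hh q χ p = (AS (muchi χ) * AS (fun 𝔞 => χ 𝔞)) p := by
    unfold hh
    have h3 : p.divisorsAntidiagonal = {((1 : ℕ), p), (p, (1 : ℕ))} := by
      ext ⟨a, b⟩
      rw [Nat.mem_divisorsAntidiagonal, mem_insert, mem_singleton, Prod.mk.injEq, Prod.mk.injEq]
      simp only
      constructor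
      · rintro ⟨h, -⟩
        rcases (Nat.dvd_prime hp).1 ⟨b, h.symm⟩ with h4 | h4
        · left
          rw [h4, one_mul] at h
          exact ⟨h4, h⟩
        · right
          rw [h4] at h
          exact ⟨h4, Nat.eq_of_mul_eq_mul_left hp.pos (h.trans (mul_one p).symm)⟩
      · rintro (⟨h4, h5⟩ | ⟨h4, h5⟩)
        · rw [h4, h5, one_mul]
          exact ⟨rfl, hp.ne_zero⟩
        · rw [h4, h5, mul_one]
          exact ⟨rfl, hp.ne_zero⟩
    rw [ArithmeticFunction.mul_apply, ArithmeticFunction.mul_apply, h3,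
      sum_insert, sum_insert, sum_singleton, sum_singleton]
    · simp only
      rw [(ff_mult q χ).map_one, (AS_muchi_mult χ).map_one, (AS_chi_mult χ).map_one, ff_apply,
        if_pos ⟨hp.squarefree, (Nat.Prime.coprime_iff_not_dvd hp).2 hq⟩]
      ring
    · rw [mem_singleton, Prod.mk.injEq]
      exact fun h => hp.ne_one h.1.symm
    · rw [mem_singleton, Prod.mk.injEq]
      exact fun h => hp.ne_one h.1.symm
  rw [h2, h1]

lemma hh_supp {q : ℕ} {χ : Ideal (𝓞 L) →*₀ ℂ} {m : ℕ} (h : hh q χ m ≠ 0) {p : ℕ} (hp : p.Prime)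
    (hpm : p ∣ m) (hpm2 : ¬ p ^ 2 ∣ m) : p ∣ q := by
  by_contra hq
  apply h
  obtain ⟨k, rfl⟩ := hpm
  have h1 : p.Coprime k := by
    rw [Nat.Prime.coprime_iff_not_dvd hp]
    rintro ⟨j, rfl⟩
    apply hpm2
    rw [pow_two, ← mul_assoc]
    exact dvd_mul_right _ _
  rw [(hh_mult q χ).map_mul_of_coprime h1, hh_prime q χ hp hq, zero_mul]

lemma two_pow_omega (n : ℕ) (hn : n ≠ 0) : 2 ^ n.primeFactors.card ≤ n.divisors.card := by
  rw [Nat.card_divisors hn, ← prod_const]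
  refine prod_le_prod' fun p hp => ?_
  have h1 : 1 ≤ n.factorization p := by
    rw [Nat.one_le_iff_ne_zero]
    intro h
    rw [← Nat.support_factorization, Finsupp.mem_support_iff] at hp
    exact hp h
  omega

/-- `|h(m)| ≤ C m^(1/8)` -/
theorem norm_hh : ∃ C : ℝ, 0 < C ∧ ∀ (L : Type) [Field L] [NumberField L], finrank ℚ L = 4 →
    ∀ (q : ℕ) (χ : Ideal (𝓞 L) →*₀ ℂ), (∀ 𝔞, ‖χ 𝔞‖ ≤ 1) → ∀ m : ℕ, m ≠ 0 →
      ‖hh q χ m‖ ≤ C * (m : ℝ) ^ (1 / 8 : ℝ) := by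
  obtain ⟨C, hC0, hC⟩ := H353.divisor_bound_real (1 / 72) (by norm_num)
  refine ⟨C ^ 9, by positivity, fun L _ _ h4 q χ hχ m hm => ?_⟩
  have h1 : ∀ x ∈ m.divisorsAntidiagonal, ‖ff q χ x.1 * AS (muchi χ) x.2‖ ≤
      (m.divisors.card : ℝ) ^ 8 := by
    intro x hx
    rw [Nat.mem_divisorsAntidiagonal] at hx
    have hx2 : x.2 ≠ 0 := fun h => hm (by rw [← hx.1, h, mul_zero])
    have e1 : x.1.primeFactors.card ≤ m.primeFactors.card :=
      card_le_card (Nat.primeFactors_mono ⟨x.2, hx.1.symm⟩ hm)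
    have e2 : x.2.primeFactors.card ≤ m.primeFactors.card :=
      card_le_card (Nat.primeFactors_mono ⟨x.1, by rw [mul_comm]; exact hx.1.symm⟩ hm)
    have e3 : ((2 : ℝ) ^ m.primeFactors.card) ≤ (m.divisors.card : ℝ) := by
      exact_mod_cast two_pow_omega m hm
    have e0 : (1 : ℝ) ≤ 2 := by norm_num
    rw [norm_mul]
    calc ‖ff q χ x.1‖ * ‖AS (muchi χ) x.2‖ ≤ 2 ^ (4 * x.1.primeFactors.card) *
          2 ^ (4 * x.2.primeFactors.card) :=
          mul_le_mul (norm_ff h4 q hχ _) (norm_AS_muchi h4 hχ hx2) (norm_nonneg _) (by positivity)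
      _ ≤ 2 ^ (4 * m.primeFactors.card) * 2 ^ (4 * m.primeFactors.card) :=
          mul_le_mul (pow_le_pow_right₀ e0 (by omega)) (pow_le_pow_right₀ e0 (by omega))
            (by positivity) (by positivity)
      _ = ((2 : ℝ) ^ m.primeFactors.card) ^ 8 := by
          rw [← pow_add, ← pow_mul]
          congr 1
          ring
      _ ≤ _ := pow_le_pow_left₀ (by positivity) e3 8
  unfold hh
  rw [ArithmeticFunction.mul_apply]
  calc ‖∑ x ∈ m.divisorsAntidiagonal, ff q χ x.1 * AS (muchi χ) x.2‖ ≤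
      ∑ x ∈ m.divisorsAntidiagonal, (m.divisors.card : ℝ) ^ 8 := norm_sum_le_of_le _ h1
    _ = (m.divisors.card : ℝ) ^ 9 := by
        have e5 := Nat.sum_divisorsAntidiagonal (n := m) (fun _ _ => (1 : ℕ))
        rw [sum_const, smul_eq_mul, mul_one, sum_const, smul_eq_mul, mul_one] at e5
        rw [sum_const, nsmul_eq_mul, e5]
        ring
    _ ≤ (C * (m : ℝ) ^ (1 / 72 : ℝ)) ^ 9 := pow_le_pow_left₀ (Nat.cast_nonneg _) (hC m hm) 9
    _ = C ^ 9 * (m : ℝ) ^ (1 / 8 : ℝ) := by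
        rw [mul_pow, ← Real.rpow_natCast ((m : ℝ) ^ (1 / 72 : ℝ)), ← Real.rpow_mul (Nat.cast_nonneg _)]
        norm_num

end Pool.Agent.L0h75.GN
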