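import Pool.Agent.R362.HkFe
import Pool.Agent.Y772.FE.Gam
import Pool.Agent.H304R2.EC.Growth

/-!
# Uniform bounds for the completed L-functions of unramified characters
-/

set_option autoImplicit false

open NumberField Complex Filter Topology Set MeasureTheory Asymptotics

namespace Pool.Agent.L0h75.GN

open Pool.Agent.Y773 (LI)
open Pool.Agent.Y773.G (ex ex_le)
open Pool.Agent.R362.HL (HXi IsUnr xi_unr)

/-- the reciprocal of one gamma factor -/
lemma inv_gam : ∃ M : ℝ, 1 ≤ M ∧ ∀ z : ℂ, -1 / 2 ≤ z.re → z.re ≤ 5 / 2 →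
    ‖(Gammaℝ z)⁻¹‖ ≤ M * Real.exp (Real.pi * |z.im|) := by
  obtain ⟨M, hM0, hM⟩ := Pool.Agent.Y772.FE.inv_Gammaℝ_le
  have hc : IsCompact ((Icc (-1 / 2 : ℝ) (5 / 2)) ×ℂ (Icc (-2 : ℝ) 2)) :=
    isCompact_Icc.reProdIm isCompact_Icc
  obtain ⟨M', hM'⟩ := hc.exists_bound_of_continuousOn
    (f := fun z => (Gammaℝ z)⁻¹) differentiable_Gammaℝ_inv.continuous.continuousOn
  refine ⟨max 1 (max M M'), le_max_left _ _, fun z h1 h2 => ?_⟩
  have he : 1 ≤ Real.exp (Real.pi * |z.im|) := Real.one_le_exp (by positivity)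
  have hm : 1 ≤ max 1 (max M M') := le_max_left _ _
  rcases le_total 2 |z.im| with h | h
  · refine (hM z h1 h2 h).trans (mul_le_mul_of_nonneg_right ?_ (by positivity))
    exact (le_max_left _ _).trans (le_max_right _ _)
  · have h3 : ‖(Gammaℝ z)⁻¹‖ ≤ M' := hM' z (by
      rw [mem_reProdIm]
      exact ⟨⟨h1, h2⟩, abs_le.1 h⟩)
    calc ‖(Gammaℝ z)⁻¹‖ ≤ M' := h3
      _ ≤ max 1 (max M M') := (le_max_right _ _).trans (le_max_right _ _)
      _ = max 1 (max M M') * 1 := (mul_one _).symm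
      _ ≤ _ := mul_le_mul_of_nonneg_left he (by linarith)

/-- one gamma factor to the right of the critical strip -/
lemma gam_le : ∃ M : ℝ, 1 ≤ M ∧ ∀ z : ℂ, z.re = 3 / 2 → ∀ e : ℕ, e ≤ 1 →
    ‖Gammaℝ (z + e)‖ ≤ M := by
  refine ⟨max 1 (max (Real.Gamma (3 / 4)) (Real.Gamma (5 / 4))), le_max_left _ _, fun z hz e he => ?_⟩
  unfold Gammaℝ
  rw [norm_mul, Complex.norm_cpow_eq_rpow_re_of_pos Real.pi_pos]
  have hre : (-(z + e) / 2).re = -((3 / 2 + e) / 2) := by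
    simp [hz]
    ring
  have hre2 : ((z + e) / 2).re = (3 / 2 + e) / 2 := by
    simp [hz]
  rw [hre]
  have h0 : (0 : ℝ) ≤ e := Nat.cast_nonneg _
  have h1 : Real.pi ^ (-((3 / 2 + e) / 2) : ℝ) ≤ 1 := by
    apply Real.rpow_le_one_of_one_le_of_nonpos (by linarith [Real.pi_gt_three])
    linarith
  have h2 : ‖Complex.Gamma ((z + e) / 2)‖ ≤ Real.Gamma ((3 / 2 + e) / 2) := by
    rw [← hre2]
    exact H304R2.EC.norm_Gamma_le (by rw [hre2]; positivity)
  have h3 : Real.Gamma ((3 / 2 + e) / 2) ≤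
      max 1 (max (Real.Gamma (3 / 4)) (Real.Gamma (5 / 4))) := by
    rcases Nat.le_one_iff_eq_zero_or_eq_one.1 he with rfl | rfl
    · refine le_trans (le_of_eq ?_) ((le_max_left _ _).trans (le_max_right _ _))
      norm_num
    · refine le_trans (le_of_eq ?_) ((le_max_right _ _).trans (le_max_right _ _))
      norm_num
  calc Real.pi ^ (-((3 / 2 + e) / 2) : ℝ) * ‖Complex.Gamma ((z + e) / 2)‖ ≤
      1 * Real.Gamma ((3 / 2 + e) / 2) := mul_le_mul h1 h2 (norm_nonneg _) zero_le_one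
    _ ≤ _ := by rw [one_mul]; exact h3

section

variable {K : Type} [Field K] [NumberField K]

/-- the completed L-function in the strip, by the principle of Phragmén and Lindelöf -/
lemma xi_bound {R : ℝ} {e : InfinitePlace K → ℕ} {ψ : Ideal (𝓞 K) →*₀ ℂ} {X : ℂ → ℂ}
    (hX : HXi R e 0 ψ X) {C : ℝ} (hC : ∀ s : ℂ, s.re = 3 / 2 → ‖X s‖ ≤ C) {s : ℂ}
    (h1 : -1 / 2 ≤ s.re) (h2 : s.re ≤ 3 / 2) : ‖X s‖ ≤ C := by
  refine PhragmenLindelof.vertical_strip (a := -1 / 2) (b := 3 / 2) hX.diff.diffContOnCl ?_ ?_ hC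
    h1 h2
  · obtain ⟨C', hC'0, hC'⟩ := hX.strip (-1 / 2) (3 / 2)
    refine ⟨1, ?_, 1, ?_⟩
    · have := Real.pi_gt_three
      norm_num
      linarith
    · refine IsBigO.of_bound (C' * 50) ?_
      refine mem_inf_of_right ?_
      rw [mem_principal]
      intro z hz
      have hz1 : -1 / 2 < z.re ∧ z.re < 3 / 2 := hz
      have h3 := hC' z hz1.1.le hz1.2.le
      refine h3.trans ?_
      rw [mul_assoc]
      refine mul_le_mul_of_nonneg_left ?_ hC'0
      have h4 : ‖z‖ ≤ 2 + |z.im| := by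
        refine (Complex.norm_le_abs_re_add_abs_im z).trans ?_
        have : |z.re| ≤ 2 := abs_le.2 ⟨by linarith [hz1.1], by linarith [hz1.2]⟩
        linarith
      have h5 : 0 ≤ |z.im| := abs_nonneg _
      rw [one_mul, one_mul, Real.norm_eq_abs, abs_of_pos (Real.exp_pos _)]
      have h6 : (1 + ‖z‖) ^ 2 ≤ 50 * Real.exp |z.im| := by
        have h7 : (1 + ‖z‖) ^ 2 ≤ (3 + |z.im|) ^ 2 := by
          refine pow_le_pow_left₀ (by positivity) (by linarith) 2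
        have h8 := Real.quadratic_le_exp_of_nonneg h5
        nlinarith
      have h9 : Real.exp |z.im| ≤ Real.exp (Real.exp |z.im|) :=
        Real.exp_le_exp.2 (by linarith [Real.add_one_le_exp |z.im|])
      linarith
  · intro z hz
    obtain ⟨w, hw, hfe⟩ := hX.fe
    rw [hfe z, norm_mul, hw, one_mul, RCLike.norm_conj]
    apply hC
    simp [hz]
    norm_num

/-- the L-function -/
noncomputable def FL (R : ℝ) (e : InfinitePlace K → ℕ) (X : ℂ → ℂ) (s : ℂ) : ℂ :=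
  X s * (((R : ℂ) ^ (s / 2))⁻¹ * ∏ φ : K →+* ℂ, (Gammaℝ (s + ex e φ))⁻¹)

lemma FL_eq {R : ℝ} {e : InfinitePlace K → ℕ} {ψ : Ideal (𝓞 K) →*₀ ℂ} {X : ℂ → ℂ}
    (hX : HXi R e 0 ψ X) {s : ℂ} (hs : 1 < s.re) : FL R e X s = LI ψ s := by
  unfold FL
  rw [hX.eq s hs, pow_zero, one_mul, Finset.prod_inv_distrib]
  have hR : (R : ℂ) ≠ 0 := by
    have := hX.one_le
    exact_mod_cast (by linarith : (0 : ℝ) < R).ne'
  have h1 : (R : ℂ) ^ (s / 2) ≠ 0 := by
    rw [Ne, cpow_eq_zero_iff]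
    exact fun h => hR h.1
  have h2 : ∏ φ : K →+* ℂ, Gammaℝ (s + ex e φ) ≠ 0 := by
    refine Finset.prod_ne_zero_iff.mpr fun w _ => ?_
    refine Complex.Gammaℝ_ne_zero_of_re_pos ?_
    simp only [add_re, natCast_re]
    positivity
  field_simp

lemma FL_diff {R : ℝ} {e : InfinitePlace K → ℕ} {ψ : Ideal (𝓞 K) →*₀ ℂ} {X : ℂ → ℂ}
    (hX : HXi R e 0 ψ X) : Differentiable ℂ (FL R e X) := by
  have hR0 : 0 < R := by linarith [hX.one_le]
  have hR : (R : ℂ) ≠ 0 := by exact_mod_cast hR0.ne'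
  unfold FL
  refine hX.diff.mul (Differentiable.mul ?_ ?_)
  · have h1 : Differentiable ℂ fun s : ℂ => (R : ℂ) ^ (s / 2) := fun z =>
      DifferentiableAt.const_cpow (by fun_prop) (Or.inl hR)
    refine h1.inv fun s => ?_
    rw [Ne, cpow_eq_zero_iff]
    exact fun h => hR h.1
  · refine Differentiable.fun_finsetProd fun w _ => ?_
    exact Complex.differentiable_Gammaℝ_inv.comp (differentiable_id.add_const _)

end

/-- **the uniform bound for the L-function in the strip** -/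
theorem FL_bound (n : ℕ) : ∃ A : ℝ, 1 ≤ A ∧ ∀ (K : Type) [Field K] [NumberField K],
    Module.finrank ℚ K = n → ∀ (R : ℝ) (e : InfinitePlace K → ℕ), (∀ w, e w ≤ 1) →
    ∀ (ψ : Ideal (𝓞 K) →*₀ ℂ) (X : ℂ → ℂ), HXi R e 0 ψ X →
    ∀ B : ℝ, (∀ s : ℂ, s.re = 3 / 2 → ‖LI ψ s‖ ≤ B) → ∀ s : ℂ, 0 ≤ s.re → s.re ≤ 3 / 2 →
      ‖FL R e X s‖ ≤ A * R * B * Real.exp (n * Real.pi * |s.im|) := by
  classical
  obtain ⟨M1, hM1, h1⟩ := inv_gam
  obtain ⟨M2, hM2, h2⟩ := gam_le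
  refine ⟨M1 ^ n * M2 ^ n, by
    have := one_le_pow₀ (n := n) hM1
    have := one_le_pow₀ (n := n) hM2
    nlinarith, ?_⟩
  intro K _ _ hn R e he ψ X hX B hB s hs0 hs1
  have hR1 := hX.one_le
  have hR0 : 0 < R := by linarith
  have hcard : Fintype.card (K →+* ℂ) = n := by
    rw [← hn]
    exact NumberField.Embeddings.card K ℂ
  have hB0 : 0 ≤ B := (norm_nonneg _).trans (hB (3 / 2) (by norm_num))
  have hline : ∀ z : ℂ, z.re = 3 / 2 → ‖X z‖ ≤ R * M2 ^ n * B := by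
    intro z hz
    rw [hX.eq z (by rw [hz]; norm_num), pow_zero, one_mul, norm_mul, norm_mul]
    have h3 : ‖(R : ℂ) ^ (z / 2)‖ ≤ R := by
      rw [Complex.norm_cpow_eq_rpow_re_of_pos hR0]
      have : (z / 2).re = 3 / 4 := by
        simp [hz]
        norm_num
      rw [this]
      calc R ^ (3 / 4 : ℝ) ≤ R ^ (1 : ℝ) := Real.rpow_le_rpow_of_exponent_le hR1 (by norm_num)
        _ = R := Real.rpow_one R
    have h4 : ‖∏ φ : K →+* ℂ, Gammaℝ (z + ex e φ)‖ ≤ M2 ^ n := by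
      rw [norm_prod, ← hcard, ← Finset.card_univ, ← Finset.prod_const]
      exact Finset.prod_le_prod (fun _ _ => norm_nonneg _) fun φ _ => h2 z hz _ (ex_le he φ)
    have h5 := hB z hz
    have : 0 ≤ M2 ^ n := by positivity
    gcongr
  have h3 := xi_bound hX hline (s := s) (by linarith) hs1
  unfold FL
  rw [norm_mul, norm_mul, norm_prod]
  have h4 : ‖((R : ℂ) ^ (s / 2))⁻¹‖ ≤ 1 := by
    rw [norm_inv, Complex.norm_cpow_eq_rpow_re_of_pos hR0]
    apply inv_le_one_of_one_le₀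
    apply Real.one_le_rpow hR1
    have : (s / 2).re = s.re / 2 := by simp
    rw [this]
    linarith
  have h5 : ∏ φ : K →+* ℂ, ‖(Gammaℝ (s + ex e φ))⁻¹‖ ≤
      (M1 * Real.exp (Real.pi * |s.im|)) ^ n := by
    rw [← hcard, ← Finset.card_univ, ← Finset.prod_const]
    refine Finset.prod_le_prod (fun _ _ => norm_nonneg _) fun φ _ => ?_
    have h6 : ((ex e φ : ℕ) : ℝ) ≤ 1 := by exact_mod_cast ex_le he φ
    have h7 : (0 : ℝ) ≤ (ex e φ : ℕ) := Nat.cast_nonneg _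
    have h8 := h1 (s + ex e φ) (by simp; linarith) (by simp; linarith)
    simpa using h8
  have h6 : (M1 * Real.exp (Real.pi * |s.im|)) ^ n = M1 ^ n * Real.exp (n * Real.pi * |s.im|) := by
    rw [mul_pow, ← Real.exp_nat_mul]
    congr 2
    ring
  rw [h6] at h5
  calc ‖X s‖ * (‖((R : ℂ) ^ (s / 2))⁻¹‖ * ∏ φ : K →+* ℂ, ‖(Gammaℝ (s + ex e φ))⁻¹‖)
      ≤ (R * M2 ^ n * B) * (1 * (M1 ^ n * Real.exp (n * Real.pi * |s.im|))) := by
        have : 0 ≤ ∏ φ : K →+* ℂ, ‖(Gammaℝ (s + ex e φ))⁻¹‖ :=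
          Finset.prod_nonneg fun _ _ => norm_nonneg _
        gcongr
    _ = _ := by ring

end Pool.Agent.L0h75.GN
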