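import Pool.Agent.L0h75.GN.Zb
import Pool.Agent.L0h75.GN.Xb
import Pool.Agent.Y772.DK.Main

/-!
# Smoothed sums of unramified characters
-/

set_option autoImplicit false

open NumberField Complex Filter Topology Set MeasureTheory

namespace Pool.Agent.L0h75.GN

open Pool.Agent.Y773 (LI)
open Pool.Agent.R362.HL (HXi IsUnr xi_unr)

/-- shifting a vertical line -/
theorem shift_line {G : ℂ → ℂ} (hG : Differentiable ℂ G) {a b : ℝ} (hab : a ≤ b) {C : ℝ}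
    (hb : ∀ s : ℂ, a ≤ s.re → s.re ≤ b → ‖G s‖ ≤ C * Real.exp (-(s.im ^ 2) / 2)) :
    ∫ t : ℝ, G (a + t * I) = ∫ t : ℝ, G (b + t * I) := by
  have hint : ∀ c : ℝ, a ≤ c → c ≤ b → Integrable fun t : ℝ => G (c + t * I) := by
    intro c h1 h2
    have hg : Integrable fun t : ℝ => C * Real.exp (-(1 / 2) * t ^ 2) :=
      (integrable_exp_neg_mul_sq (by norm_num)).const_mul C
    refine hg.mono' ?_ (Eventually.of_forall fun t => ?_)
    · have h3 : Continuous fun t : ℝ => G (c + t * I) := hG.continuous.comp (by fun_prop)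
      exact h3.aestronglyMeasurable
    · have h3 := hb (c + t * I) (by simpa using h1) (by simpa using h2)
      have h4 : ((c : ℂ) + t * I).im = t := by simp
      rw [h4] at h3
      refine h3.trans (le_of_eq ?_)
      congr 2
      ring
  have hrect : ∀ T : ℝ, (∫ x in a..b, G (x + (-T : ℝ) * I)) - (∫ x in a..b, G (x + T * I)) +
      I • (∫ y in (-T)..T, G (b + y * I)) - I • (∫ y in (-T)..T, G (a + y * I)) = 0 := by
    intro T
    have := Complex.integral_boundary_rect_eq_zero_of_differentiableOn G (a + (-T : ℝ) * I)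
      (b + T * I) hG.differentiableOn
    simpa using this
  have hz : ∀ (σ : ℝ → ℝ), (∀ T, (σ T) ^ 2 = T ^ 2) →
      Tendsto (fun T : ℝ => ∫ x in a..b, G (x + (σ T : ℝ) * I)) atTop (𝓝 0) := by
    intro σ hσ
    have h1 : ∀ T : ℝ, ‖∫ x in a..b, G (x + (σ T : ℝ) * I)‖ ≤
        C * Real.exp (-(T ^ 2) / 2) * |b - a| := by
      intro T
      apply intervalIntegral.norm_integral_le_of_norm_le_const
      intro x hx
      rw [uIoc_of_le hab] at hx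
      have h3 := hb (x + (σ T : ℝ) * I) (by simpa using hx.1.le) (by simpa using hx.2)
      have h4 : ((x : ℂ) + (σ T : ℝ) * I).im = σ T := by simp
      rwa [h4, hσ] at h3
    refine squeeze_zero_norm h1 ?_
    have h2 : Tendsto (fun T : ℝ => Real.exp (-(T ^ 2) / 2)) atTop (𝓝 0) := by
      apply Real.tendsto_exp_atBot.comp
      have h3 : Tendsto (fun T : ℝ => T ^ 2 / 2) atTop atTop :=
        (tendsto_pow_atTop two_ne_zero).atTop_div_const two_pos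
      have h4 : (fun T : ℝ => -(T ^ 2) / 2) = fun T => -(T ^ 2 / 2) := by
        funext T
        ring
      rw [h4]
      exact tendsto_neg_atTop_atBot.comp h3
    have h3 := (h2.const_mul C).mul_const |b - a|
    simpa using h3
  have hv : ∀ c : ℝ, a ≤ c → c ≤ b → Tendsto (fun T : ℝ => ∫ y in (-T)..T, G (c + y * I)) atTop
      (𝓝 (∫ t : ℝ, G (c + t * I))) := fun c h1 h2 =>
    intervalIntegral_tendsto_integral (hint c h1 h2) tendsto_neg_atTop_atBot tendsto_id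
  have h1 := (((hz (fun T => -T) (fun T => by ring)).sub (hz (fun T => T) (fun T => rfl))).add
    ((hv b hab le_rfl).const_smul I)).sub ((hv a le_rfl hab).const_smul I)
  have h2 : Tendsto (fun _ : ℝ => (0 : ℂ)) atTop (𝓝 (0 - 0 + I • (∫ t : ℝ, G (b + t * I)) -
      I • (∫ t : ℝ, G (a + t * I)))) := h1.congr fun T => hrect T
  have h3 := tendsto_nhds_unique h2 tendsto_const_nhds
  rw [sub_zero, zero_add, smul_eq_mul, smul_eq_mul, ← mul_sub] at h3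
  have h4 := (mul_eq_zero.1 h3).resolve_left I_ne_zero
  exact (sub_eq_zero.1 h4).symm

/-- the gaussian integral -/
lemma gauss_line (c l : ℝ) : ∫ t : ℝ, cexp ((c + t * I) * l) * cexp ((c + t * I) ^ 2) =
    ((Real.sqrt Real.pi * Real.exp (-(l ^ 2) / 4) : ℝ) : ℂ) := by
  have h1 : ∀ t : ℝ, cexp ((c + t * I) * l) * cexp ((c + t * I) ^ 2) =
      cexp (-1 * (t + ((-(c + l / 2) : ℝ) : ℂ) * I) ^ 2) * ((Real.exp (-(l ^ 2) / 4) : ℝ) : ℂ) := by
    intro t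
    rw [← Complex.exp_add, Complex.ofReal_exp, ← Complex.exp_add]
    congr 1
    push_cast
    linear_combination ((t : ℂ) ^ 2 + (c + l / 2) ^ 2) * I_sq
  simp_rw [h1]
  rw [integral_mul_const]
  have h2 := GaussianFourier.integral_cexp_neg_mul_sq_add_real_mul_I (b := 1) (by norm_num) (-(c + l / 2))
  rw [h2, div_one]
  push_cast
  congr 1
  rw [Real.sqrt_eq_rpow, Complex.ofReal_cpow Real.pi_pos.le]
  push_cast
  rfl

section

variable {K : Type} [Field K] [NumberField K]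

/-- the weight of the ideal `𝔞` -/
noncomputable def wt (l : ℝ) (𝔞 : Ideal (𝓞 K)) : ℝ :=
  Real.exp (-((l - Real.log (Ideal.absNorm 𝔞)) ^ 2) / 4)

lemma summable_nr (K : Type) [Field K] [NumberField K] :
    Summable fun 𝔞 : {𝔞 : Ideal (𝓞 K) // 𝔞 ≠ ⊥} => (Ideal.absNorm 𝔞.1 : ℝ) ^ (-(3 / 2) : ℝ) := by
  obtain ⟨B, -, hB⟩ := zeta_bound (Module.finrank ℚ K)
  refine summable_of_sum_le (c := B) (fun _ => by positivity) fun S => ?_
  classical
  have h1 := hB K rfl (S.map (Function.Embedding.subtype _)) (by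
    intro 𝔞 h
    rw [Finset.mem_map] at h
    obtain ⟨b, -, rfl⟩ := h
    exact b.2)
  rwa [Finset.sum_map] at h1

/-- the terms of the series -/
lemma LI_sub (ψ : Ideal (𝓞 K) →*₀ ℂ) (f : Ideal (𝓞 K) → ℂ) :
    ∑' 𝔞 : Ideal (𝓞 K), ψ 𝔞 * f 𝔞 = ∑' 𝔞 : {𝔞 : Ideal (𝓞 K) // 𝔞 ≠ ⊥}, ψ 𝔞.1 * f 𝔞.1 := by
  refine (tsum_subtype_eq_of_support_subset (f := fun 𝔞 : Ideal (𝓞 K) => ψ 𝔞 * f 𝔞)
    (s := {𝔞 | 𝔞 ≠ ⊥}) ?_).symm
  intro 𝔞 h
  rw [mem_setOf_eq]
  rintro rfl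
  apply h
  show ψ ⊥ * f ⊥ = 0
  rw [← Ideal.zero_eq_bot, map_zero, zero_mul]

/-- the smoothed sum as an integral -/
theorem smooth_eq {ψ : Ideal (𝓞 K) →*₀ ℂ} (hψ : ∀ 𝔞, ‖ψ 𝔞‖ ≤ 1) (l : ℝ) :
    Real.sqrt Real.pi * ∑' 𝔞 : Ideal (𝓞 K), ψ 𝔞 * (wt l 𝔞 : ℂ) =
      ∫ t : ℝ, LI ψ ((3 / 2 : ℝ) + t * I) * (cexp (((3 / 2 : ℝ) + t * I) * l) *
        cexp (((3 / 2 : ℝ) + t * I) ^ 2)) := by
  classical
  set F : {𝔞 : Ideal (𝓞 K) // 𝔞 ≠ ⊥} → ℝ → ℂ := fun 𝔞 t =>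
    ψ 𝔞.1 * (cexp (((3 / 2 : ℝ) + t * I) * ((l - Real.log (Ideal.absNorm 𝔞.1) : ℝ) : ℂ)) *
        cexp (((3 / 2 : ℝ) + t * I) ^ 2)) with hF
  have hNpos : ∀ 𝔞 : {𝔞 : Ideal (𝓞 K) // 𝔞 ≠ ⊥}, 0 < Ideal.absNorm 𝔞.1 := fun 𝔞 =>
    Nat.pos_of_ne_zero fun h => 𝔞.2 (Ideal.absNorm_eq_zero_iff.1 h)
  have hgi : ∀ (c l' : ℝ), Integrable fun t : ℝ =>
      cexp ((c + t * I) * l') * cexp ((c + t * I) ^ 2) := by
    intro c l'
    have h1 := integrable_cexp_quadratic (b := 1) (by norm_num) (2 * c * I + l' * I)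
      (c ^ 2 + c * l')
    refine h1.congr (Eventually.of_forall fun t => ?_)
    simp only
    rw [← Complex.exp_add]
    congr 1
    linear_combination (-(t : ℂ) ^ 2) * I_sq
  have hFi : ∀ 𝔞, Integrable (F 𝔞) := fun 𝔞 => (hgi _ _).const_mul _
  -- norms
  have hFn : ∀ 𝔞 t, ‖F 𝔞 t‖ ≤ (Ideal.absNorm 𝔞.1 : ℝ) ^ (-(3 / 2) : ℝ) *
      (Real.exp (3 / 2 * l) * Real.exp (9 / 4 - t ^ 2)) := by
    intro 𝔞 t
    rw [hF]
    simp only
    rw [norm_mul, norm_mul, Complex.norm_exp, Complex.norm_exp]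
    have hN : (0 : ℝ) < Ideal.absNorm 𝔞.1 := by exact_mod_cast hNpos 𝔞
    have e1 : ((((3 / 2 : ℝ) : ℂ) + t * I) * ((l - Real.log (Ideal.absNorm 𝔞.1) : ℝ) : ℂ)).re =
        3 / 2 * (l - Real.log (Ideal.absNorm 𝔞.1)) := by
      rw [Complex.re_mul_ofReal]
      simp
    have e2 : ((((3 / 2 : ℝ) : ℂ) + t * I) ^ 2).re = 9 / 4 - t ^ 2 := by
      rw [pow_two, Complex.mul_re]
      simp
      ring
    rw [e1, e2]
    have e3 : Real.exp (3 / 2 * (l - Real.log (Ideal.absNorm 𝔞.1))) =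
        (Ideal.absNorm 𝔞.1 : ℝ) ^ (-(3 / 2) : ℝ) * Real.exp (3 / 2 * l) := by
      rw [Real.rpow_def_of_pos hN, ← Real.exp_add]
      congr 1
      ring
    rw [e3]
    calc ‖ψ 𝔞.1‖ * ((Ideal.absNorm 𝔞.1 : ℝ) ^ (-(3 / 2) : ℝ) * Real.exp (3 / 2 * l) *
          Real.exp (9 / 4 - t ^ 2)) ≤ 1 * ((Ideal.absNorm 𝔞.1 : ℝ) ^ (-(3 / 2) : ℝ) *
          Real.exp (3 / 2 * l) * Real.exp (9 / 4 - t ^ 2)) :=
          mul_le_mul_of_nonneg_right (hψ _) (by positivity)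
      _ = _ := by ring
  have hgr : Integrable fun t : ℝ => Real.exp (3 / 2 * l) * Real.exp (9 / 4 - t ^ 2) := by
    have h1 := ((integrable_exp_neg_mul_sq (b := 1) one_pos).const_mul
      (Real.exp (3 / 2 * l) * Real.exp (9 / 4)))
    refine h1.congr (Eventually.of_forall fun t => ?_)
    simp only
    rw [mul_assoc, ← Real.exp_add]
    congr 2
    ring
  have hcount : Countable {𝔞 : Ideal (𝓞 K) // 𝔞 ≠ ⊥} := by
    have h1 := (summable_nr K).countable_support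
    have h2 : Function.support (fun 𝔞 : {𝔞 : Ideal (𝓞 K) // 𝔞 ≠ ⊥} =>
        (Ideal.absNorm 𝔞.1 : ℝ) ^ (-(3 / 2) : ℝ)) = Set.univ := by
      ext 𝔞
      simp only [Function.mem_support, mem_univ, iff_true]
      have hN : (0 : ℝ) < Ideal.absNorm 𝔞.1 := by exact_mod_cast hNpos 𝔞
      positivity
    rw [h2] at h1
    exact Set.countable_univ_iff.1 h1
  have hsum : Summable fun 𝔞 => ∫ t, ‖F 𝔞 t‖ := by
    refine Summable.of_nonneg_of_le (fun 𝔞 => integral_nonneg fun t => norm_nonneg _) (fun 𝔞 => ?_)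
      ((summable_nr K).mul_right (∫ t : ℝ, Real.exp (3 / 2 * l) * Real.exp (9 / 4 - t ^ 2)))
    rw [← integral_const_mul]
    exact integral_mono (hFi 𝔞).norm (hgr.const_mul _) (hFn 𝔞)
  have h5 := hasSum_integral_of_summable_integral_norm hFi hsum
  have h6 : ∀ t : ℝ, ∑' 𝔞, F 𝔞 t = LI ψ ((3 / 2 : ℝ) + t * I) * (cexp (((3 / 2 : ℝ) + t * I) * l) *
        cexp (((3 / 2 : ℝ) + t * I) ^ 2)) := by
    intro t
    unfold LI
    rw [LI_sub ψ (fun 𝔞 => ((Ideal.absNorm 𝔞 : ℕ) : ℂ) ^ (-(((3 / 2 : ℝ) : ℂ) + t * I))),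
      ← tsum_mul_right]
    refine tsum_congr fun 𝔞 => ?_
    rw [hF]
    simp only
    have hN : ((Ideal.absNorm 𝔞.1 : ℕ) : ℂ) ≠ 0 := by exact_mod_cast (hNpos 𝔞).ne'
    rw [Complex.cpow_def_of_ne_zero hN, ← Complex.natCast_log]
    have e1 : cexp (((3 / 2 : ℝ) + t * I) * ((l - Real.log (Ideal.absNorm 𝔞.1) : ℝ) : ℂ)) =
        cexp (((Real.log (Ideal.absNorm 𝔞.1) : ℝ) : ℂ) * -(((3 / 2 : ℝ) : ℂ) + t * I)) *
          cexp (((3 / 2 : ℝ) + t * I) * l) := by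
      rw [← Complex.exp_add]
      congr 1
      push_cast
      ring
    rw [e1]
    ring
  have h7 : ∀ 𝔞 : {𝔞 : Ideal (𝓞 K) // 𝔞 ≠ ⊥}, ∫ t, F 𝔞 t =
      Real.sqrt Real.pi * (ψ 𝔞.1 * (wt l 𝔞.1 : ℂ)) := by
    intro 𝔞
    rw [hF]
    simp only
    rw [integral_const_mul, gauss_line]
    unfold wt
    push_cast
    ring
  rw [LI_sub ψ (fun 𝔞 => (wt l 𝔞 : ℂ)), ← tsum_mul_left]
  simp_rw [← h7]
  rw [h5.tsum_eq]
  exact integral_congr_ae (Eventually.of_forall h6)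

end

/-- **cancellation in the smoothed sums, uniform in the field of degree `n`** -/
theorem smooth_bound (n : ℕ) : ∃ A : ℝ, 1 ≤ A ∧ ∀ (K : Type) [Field K] [NumberField K],
    Module.finrank ℚ K = n → ∀ (e : InfinitePlace K → ℕ) (ψ : Ideal (𝓞 K) →*₀ ℂ), IsUnr e ψ →
    (∃ 𝔞 : Ideal (𝓞 K), 𝔞 ≠ ⊥ ∧ ψ 𝔞 ≠ 1) → ∀ l : ℝ,
      ‖∑' 𝔞 : Ideal (𝓞 K), ψ 𝔞 * (wt l 𝔞 : ℂ)‖ ≤
        A * (Ideal.absNorm (differentIdeal ℤ (𝓞 K)) : ℝ) * Real.exp (3 / 4 * l) := by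
  obtain ⟨A, hA1, hA⟩ := FL_bound n
  obtain ⟨B, hB0, hB⟩ := zeta_bound n
  set J : ℝ := Real.exp (9 / 4 + (n * Real.pi) ^ 2 / 2) with hJ
  have hJ0 : 0 < J := Real.exp_pos _
  set Q : ℝ := ∫ t : ℝ, Real.exp (-(1 / 2) * t ^ 2) with hQ
  have hQ0 : 0 ≤ Q := integral_nonneg fun t => (Real.exp_pos _).le
  refine ⟨1 + A * B * J * Q, by
    have : 0 ≤ A * B * J * Q := by positivity
    linarith, ?_⟩
  intro K _ _ hn e ψ hψ hne l
  obtain ⟨X, hX⟩ := xi_unr (r := 0) hψ (Or.inr ⟨rfl, hne⟩)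
  set R : ℝ := ((Ideal.absNorm (differentIdeal ℤ (𝓞 K)) : ℕ) : ℝ) with hR
  have hR1 : 1 ≤ R := hX.one_le
  have hψ1 := hψ.norm_le_one
  -- the bound on the line
  have hLI : ∀ s : ℂ, s.re = 3 / 2 → ‖LI ψ s‖ ≤ B := by
    intro s hs
    unfold LI
    rw [LI_sub ψ (fun 𝔞 => ((Ideal.absNorm 𝔞 : ℕ) : ℂ) ^ (-s))]
    have h1 : ∀ 𝔞 : {𝔞 : Ideal (𝓞 K) // 𝔞 ≠ ⊥},
        ‖ψ 𝔞.1 * ((Ideal.absNorm 𝔞.1 : ℕ) : ℂ) ^ (-s)‖ ≤ (Ideal.absNorm 𝔞.1 : ℝ) ^ (-(3 / 2) : ℝ) := by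
      intro 𝔞
      have hN : 0 < Ideal.absNorm 𝔞.1 :=
        Nat.pos_of_ne_zero fun h => 𝔞.2 (Ideal.absNorm_eq_zero_iff.1 h)
      rw [norm_mul, Complex.norm_natCast_cpow_of_pos hN, neg_re, hs]
      calc ‖ψ 𝔞.1‖ * (Ideal.absNorm 𝔞.1 : ℝ) ^ (-(3 / 2) : ℝ) ≤
          1 * (Ideal.absNorm 𝔞.1 : ℝ) ^ (-(3 / 2) : ℝ) :=
            mul_le_mul_of_nonneg_right (hψ1 _) (by positivity)
        _ = _ := one_mul _
    have h2 : ∑' 𝔞 : {𝔞 : Ideal (𝓞 K) // 𝔞 ≠ ⊥}, (Ideal.absNorm 𝔞.1 : ℝ) ^ (-(3 / 2) : ℝ) ≤ B := by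
      refine (summable_nr K).tsum_le_of_sum_le fun S => ?_
      classical
      have h1 := hB K hn (S.map (Function.Embedding.subtype _)) (by
        intro 𝔞 h
        rw [Finset.mem_map] at h
        obtain ⟨b, -, rfl⟩ := h
        exact b.2)
      rwa [Finset.sum_map] at h1
    exact (tsum_of_norm_bounded (summable_nr K).hasSum h1).trans h2
  have hFL := hA K hn R e hψ.sig_le ψ X hX B hLI
  -- the integrand
  set G : ℂ → ℂ := fun s => FL R e X s * (cexp (s * l) * cexp (s ^ 2)) with hG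
  have hGd : Differentiable ℂ G := (FL_diff hX).mul (by fun_prop)
  have hGn : ∀ s : ℂ, 0 ≤ s.re → s.re ≤ 3 / 2 → ‖G s‖ ≤
      A * R * B * J * Real.exp (s.re * l) * Real.exp (-(s.im ^ 2) / 2) := by
    intro s h0 h1
    rw [hG]
    simp only
    rw [norm_mul, norm_mul, Complex.norm_exp, Complex.norm_exp]
    have e1 : (s * (l : ℂ)).re = s.re * l := by rw [Complex.re_mul_ofReal]
    have e2 : (s ^ 2).re = s.re ^ 2 - s.im ^ 2 := by
      rw [pow_two, Complex.mul_re]; ring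
    rw [e1, e2]
    have h2 := hFL s h0 h1
    have h3 : Real.exp (n * Real.pi * |s.im|) * Real.exp (s.re ^ 2 - s.im ^ 2) ≤
        J * Real.exp (-(s.im ^ 2) / 2) := by
      rw [hJ, ← Real.exp_add, ← Real.exp_add]
      apply Real.exp_le_exp.2
      have h4 : s.re ^ 2 ≤ 9 / 4 := by nlinarith
      have h5 : |s.im| ^ 2 = s.im ^ 2 := sq_abs _
      nlinarith [sq_nonneg (|s.im| - n * Real.pi)]
    calc ‖FL R e X s‖ * (Real.exp (s.re * l) * Real.exp (s.re ^ 2 - s.im ^ 2)) ≤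
        (A * R * B * Real.exp (n * Real.pi * |s.im|)) *
          (Real.exp (s.re * l) * Real.exp (s.re ^ 2 - s.im ^ 2)) :=
          mul_le_mul_of_nonneg_right h2 (by positivity)
      _ = A * R * B * Real.exp (s.re * l) *
          (Real.exp (n * Real.pi * |s.im|) * Real.exp (s.re ^ 2 - s.im ^ 2)) := by ring
      _ ≤ A * R * B * Real.exp (s.re * l) * (J * Real.exp (-(s.im ^ 2) / 2)) :=
          mul_le_mul_of_nonneg_left h3 (by positivity)
      _ = _ := by ring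
  have hshift := shift_line hGd (a := 3 / 4) (b := 3 / 2) (by norm_num)
    (C := A * R * B * J * (Real.exp (3 / 4 * l) + Real.exp (3 / 2 * l))) (by
      intro s h0 h1
      refine (hGn s (by linarith) h1).trans ?_
      have h2 : Real.exp (s.re * l) ≤ Real.exp (3 / 4 * l) + Real.exp (3 / 2 * l) := by
        rcases le_total 0 l with hl | hl
        · have := Real.exp_le_exp.2 (mul_le_mul_of_nonneg_right h1 hl)
          have := (Real.exp_pos (3 / 4 * l)).le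
          linarith
        · have := Real.exp_le_exp.2 (mul_le_mul_of_nonpos_right h0 hl)
          have := (Real.exp_pos (3 / 2 * l)).le
          linarith
      gcongr)
  have heq := smooth_eq hψ1 l
  have h8 : ∫ t : ℝ, LI ψ ((3 / 2 : ℝ) + t * I) * (cexp (((3 / 2 : ℝ) + t * I) * l) *
        cexp (((3 / 2 : ℝ) + t * I) ^ 2)) = ∫ t : ℝ, G (((3 / 4 : ℝ) : ℂ) + t * I) := by
    rw [hshift]
    refine integral_congr_ae (Eventually.of_forall fun t => ?_)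
    simp only [hG]
    rw [FL_eq hX]
    simp
    norm_num
  rw [h8] at heq
  have h9 : ‖∫ t : ℝ, G (((3 / 4 : ℝ) : ℂ) + t * I)‖ ≤ A * R * B * J * Real.exp (3 / 4 * l) * Q := by
    rw [hQ, ← integral_const_mul]
    refine norm_integral_le_of_norm_le ((integrable_exp_neg_mul_sq (by norm_num)).const_mul _)
      (Eventually.of_forall fun t => ?_)
    have h10 := hGn (((3 / 4 : ℝ) : ℂ) + t * I) (by simp; norm_num) (by simp; norm_num)
    have e1 : ((((3 / 4 : ℝ) : ℂ)) + t * I).re = 3 / 4 := by simp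
    have e2 : ((((3 / 4 : ℝ) : ℂ)) + t * I).im = t := by simp
    rw [e1, e2] at h10
    refine h10.trans (le_of_eq ?_)
    congr 2
    ring
  rw [← heq, norm_mul, Complex.norm_real, Real.norm_of_nonneg (Real.sqrt_nonneg _)] at h9
  have hpi : 1 ≤ Real.sqrt Real.pi := by
    rw [Real.one_le_sqrt]
    linarith [Real.pi_gt_three]
  have h11 : ‖∑' 𝔞 : Ideal (𝓞 K), ψ 𝔞 * (wt l 𝔞 : ℂ)‖ ≤
      Real.sqrt Real.pi * ‖∑' 𝔞 : Ideal (𝓞 K), ψ 𝔞 * (wt l 𝔞 : ℂ)‖ :=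
    le_mul_of_one_le_left (norm_nonneg _) hpi
  refine (h11.trans h9).trans ?_
  have h12 : 0 ≤ R * Real.exp (3 / 4 * l) := by positivity
  calc A * R * B * J * Real.exp (3 / 4 * l) * Q = (A * B * J * Q) * (R * Real.exp (3 / 4 * l)) := by
        ring
    _ ≤ (1 + A * B * J * Q) * (R * Real.exp (3 / 4 * l)) :=
        mul_le_mul_of_nonneg_right (by linarith) h12
    _ = _ := by ring

end Pool.Agent.L0h75.GN
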