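import Pool.Agent.L0h75.GN.AF
import Pool.Agent.L0h75.GN.Sm

/-!
# From sums over the ideals of `L` to sums over squarefree integers
-/

set_option autoImplicit false

open NumberField Module Finset

namespace Pool.Agent.L0h75.GN

lemma rep {q m : ℕ} (_hm : m ≠ 0)
    (h : ∀ p : ℕ, p.Prime → p ∣ m → ¬ p ^ 2 ∣ m → p ∣ q) :
    ∃ s a b : ℕ, s ∣ q ∧ m = s * a ^ 2 * b ^ 3 := by
  obtain ⟨σ, A, hmA, hσ⟩ := Nat.sq_mul_squarefree m
  have hσ0 : σ ≠ 0 := hσ.ne_zero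
  have hsd : Nat.gcd σ q ∣ σ := Nat.gcd_dvd_left _ _
  obtain ⟨t, ht⟩ := hsd
  have ht0 : t ≠ 0 := by
    rintro rfl
    rw [mul_zero] at ht
    exact hσ0 ht
  have htsq : Squarefree t := hσ.squarefree_of_dvd ⟨Nat.gcd σ q, by rw [mul_comm]; exact ht⟩
  have htA : t ∣ A := by
    rw [← Nat.prod_primeFactors_of_squarefree htsq]
    refine Finset.prod_primes_dvd A (fun p hp => (Nat.prime_of_mem_primeFactors hp).prime)
      fun p hp => ?_
    have hpp := Nat.prime_of_mem_primeFactors hp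
    have hpt : p ∣ t := Nat.dvd_of_mem_primeFactors hp
    have hpσ : p ∣ σ := hpt.trans ⟨Nat.gcd σ q, by rw [mul_comm]; exact ht⟩
    have hpq : ¬ p ∣ q := by
      intro hpq
      have h1 : p ∣ Nat.gcd σ q := Nat.dvd_gcd hpσ hpq
      have h2 : p * p ∣ σ := by
        rw [ht]
        exact mul_dvd_mul h1 hpt
      have := Nat.isUnit_iff.1 (hσ p h2)
      exact hpp.ne_one this
    have h3 : p ∣ m := by
      rw [← hmA]
      exact hpσ.mul_left _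
    have h4 : p ^ 2 ∣ m := by
      by_contra h4
      exact hpq (h p hpp h3 h4)
    by_contra hpA
    have h5 : (p ^ 2).Coprime (A ^ 2) :=
      Nat.Coprime.pow 2 2 ((Nat.Prime.coprime_iff_not_dvd hpp).2 hpA)
    rw [← hmA] at h4
    have h6 := h5.dvd_of_dvd_mul_left h4
    rw [pow_two] at h6
    exact hpp.ne_one (Nat.isUnit_iff.1 (hσ p h6))
  obtain ⟨a, ha⟩ := htA
  refine ⟨Nat.gcd σ q, a, t, Nat.gcd_dvd_right _ _, ?_⟩
  rw [← hmA, ha]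
  conv_lhs => rw [ht]
  ring

lemma sum_sparse : ∃ Z : ℝ, 0 < Z ∧ ∀ q : ℕ, q ≠ 0 → ∀ S : Finset ℕ,
    (∀ m ∈ S, m ≠ 0 ∧ ∀ p : ℕ, p.Prime → p ∣ m → ¬ p ^ 2 ∣ m → p ∣ q) →
    ∑ m ∈ S, (m : ℝ) ^ (-(5 / 8) : ℝ) ≤ Z * q := by
  classical
  have hs1 : Summable fun a : ℕ => (a : ℝ) ^ (-(5 / 4) : ℝ) := by
    rw [Real.summable_nat_rpow]
    norm_num
  have hs2 : Summable fun b : ℕ => (b : ℝ) ^ (-(15 / 8) : ℝ) := by
    rw [Real.summable_nat_rpow]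
    norm_num
  set Z1 := ∑' a : ℕ, (a : ℝ) ^ (-(5 / 4) : ℝ) with hZ1
  set Z2 := ∑' b : ℕ, (b : ℝ) ^ (-(15 / 8) : ℝ) with hZ2
  have hZ1' : 0 ≤ Z1 := tsum_nonneg fun a => by positivity
  have hZ2' : 0 ≤ Z2 := tsum_nonneg fun a => by positivity
  refine ⟨Z1 * Z2 + 1, by positivity, fun q hq S hS => ?_⟩
  have hrep : ∀ m : ℕ, ∃ t : ℕ × ℕ × ℕ, m ∈ S → t.1 ∣ q ∧ m = t.1 * t.2.1 ^ 2 * t.2.2 ^ 3 := by
    intro m
    by_cases hm : m ∈ S
    · obtain ⟨s, a, b, h1, h2⟩ := rep (hS m hm).1 (hS m hm).2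
      exact ⟨(s, a, b), fun _ => ⟨h1, h2⟩⟩
    · exact ⟨(0, 0, 0), fun h => absurd h hm⟩
  choose g hg using hrep
  set F : ℕ × ℕ × ℕ → ℝ := fun t => (t.1 : ℝ) ^ (-(5 / 8) : ℝ) * ((t.2.1 : ℝ) ^ (-(5 / 4) : ℝ) *
    (t.2.2 : ℝ) ^ (-(15 / 8) : ℝ)) with hF
  have hF0 : ∀ t, 0 ≤ F t := fun t => by rw [hF]; positivity
  have h1 : ∀ m ∈ S, (m : ℝ) ^ (-(5 / 8) : ℝ) = F (g m) := by
    intro m hm
    rw [hF]
    simp only
    conv_lhs => rw [(hg m hm).2]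
    push_cast
    rw [Real.mul_rpow (by positivity) (by positivity), Real.mul_rpow (by positivity) (by positivity),
      ← Real.rpow_natCast ((g m).2.1 : ℝ), ← Real.rpow_natCast ((g m).2.2 : ℝ),
      ← Real.rpow_mul (Nat.cast_nonneg _), ← Real.rpow_mul (Nat.cast_nonneg _), mul_assoc]
    norm_num
  have hinj : Set.InjOn g S := by
    intro m hm m' hm' h
    rw [(hg m hm).2, (hg m' hm').2, h]
  rw [sum_congr rfl h1, ← sum_image (g := g) (f := F) hinj]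
  have h2 : S.image g ⊆ q.divisors ×ˢ ((S.image fun m => (g m).2.1) ×ˢ (S.image fun m => (g m).2.2)) := by
    intro t ht
    rw [mem_image] at ht
    obtain ⟨m, hm, rfl⟩ := ht
    rw [mem_product, mem_product, Nat.mem_divisors]
    exact ⟨⟨(hg m hm).1, hq⟩, mem_image_of_mem _ hm, mem_image_of_mem _ hm⟩
  calc ∑ t ∈ S.image g, F t ≤ ∑ t ∈ q.divisors ×ˢ ((S.image fun m => (g m).2.1) ×ˢ
        (S.image fun m => (g m).2.2)), F t :=
        sum_le_sum_of_subset_of_nonneg h2 fun t _ _ => hF0 t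
    _ = (∑ s ∈ q.divisors, (s : ℝ) ^ (-(5 / 8) : ℝ)) *
        ((∑ a ∈ S.image fun m => (g m).2.1, (a : ℝ) ^ (-(5 / 4) : ℝ)) *
          ∑ b ∈ S.image fun m => (g m).2.2, (b : ℝ) ^ (-(15 / 8) : ℝ)) := by
        rw [sum_product, sum_mul]
        refine sum_congr rfl fun s _ => ?_
        rw [sum_mul_sum, ← sum_product', mul_sum]
    _ ≤ q * (Z1 * Z2) := by
        refine mul_le_mul ?_ (mul_le_mul (hs1.sum_le_tsum _ fun a _ => by positivity)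
          (hs2.sum_le_tsum _ fun a _ => by positivity) (sum_nonneg fun _ _ => by positivity) hZ1')
          (mul_nonneg (sum_nonneg fun _ _ => by positivity) (sum_nonneg fun _ _ => by positivity))
          (Nat.cast_nonneg _)
        calc ∑ s ∈ q.divisors, (s : ℝ) ^ (-(5 / 8) : ℝ) ≤ ∑ s ∈ q.divisors, (1 : ℝ) := by
              refine sum_le_sum fun s hs => ?_
              have : (1 : ℝ) ≤ s := by exact_mod_cast Nat.pos_of_mem_divisors hs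
              exact Real.rpow_le_one_of_one_le_of_nonpos this (by norm_num)
          _ = (q.divisors.card : ℝ) := by rw [sum_const, nsmul_eq_mul, mul_one]
          _ ≤ q := by exact_mod_cast Nat.card_divisors_le_self q
    _ ≤ (Z1 * Z2 + 1) * q := by
        have : (0 : ℝ) ≤ q := Nat.cast_nonneg _
        nlinarith

/-- `∑ |h(m)| m^(-3/4) ≤ C q` -/
theorem sum_hh : ∃ C : ℝ, 0 < C ∧ ∀ (L : Type) [Field L] [NumberField L], finrank ℚ L = 4 →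
    ∀ (q : ℕ) (_ : q ≠ 0) (χ : Ideal (𝓞 L) →*₀ ℂ), (∀ 𝔞, ‖χ 𝔞‖ ≤ 1) →
      Summable (fun m : ℕ => ‖hh q χ m‖ * (m : ℝ) ^ (-(3 / 4) : ℝ)) ∧
        ∑' m : ℕ, ‖hh q χ m‖ * (m : ℝ) ^ (-(3 / 4) : ℝ) ≤ C * q := by
  classical
  obtain ⟨C, hC0, hC⟩ := norm_hh
  obtain ⟨Z, hZ0, hZ⟩ := sum_sparse
  refine ⟨C * Z, by positivity, fun L _ _ h4 q hq χ hχ => ?_⟩
  have key : ∀ S : Finset ℕ, ∑ m ∈ S, ‖hh q χ m‖ * (m : ℝ) ^ (-(3 / 4) : ℝ) ≤ C * Z * q := by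
    intro S
    have h0 : ∀ m : ℕ, hh q χ m ≠ 0 → m ≠ 0 := by
      rintro m h rfl
      exact h ArithmeticFunction.map_zero
    calc ∑ m ∈ S, ‖hh q χ m‖ * (m : ℝ) ^ (-(3 / 4) : ℝ) =
        ∑ m ∈ S.filter (fun m => hh q χ m ≠ 0), ‖hh q χ m‖ * (m : ℝ) ^ (-(3 / 4) : ℝ) := by
          rw [sum_filter]
          refine sum_congr rfl fun m _ => ?_
          split_ifs with h
          · rfl
          · rw [not_not] at h
            rw [h, norm_zero, zero_mul]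
      _ ≤ ∑ m ∈ S.filter (fun m => hh q χ m ≠ 0), C * (m : ℝ) ^ (-(5 / 8) : ℝ) := by
          refine sum_le_sum fun m hm => ?_
          rw [mem_filter] at hm
          have hm0 := h0 m hm.2
          have hmp : (0 : ℝ) < m := by exact_mod_cast Nat.pos_of_ne_zero hm0
          calc ‖hh q χ m‖ * (m : ℝ) ^ (-(3 / 4) : ℝ) ≤
              (C * (m : ℝ) ^ (1 / 8 : ℝ)) * (m : ℝ) ^ (-(3 / 4) : ℝ) :=
                mul_le_mul_of_nonneg_right (hC L h4 q χ hχ m hm0) (by positivity)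
            _ = C * (m : ℝ) ^ (-(5 / 8) : ℝ) := by
                rw [mul_assoc, ← Real.rpow_add hmp]
                norm_num
      _ = C * ∑ m ∈ S.filter (fun m => hh q χ m ≠ 0), (m : ℝ) ^ (-(5 / 8) : ℝ) := by
          rw [mul_sum]
      _ ≤ C * (Z * q) := by
          refine mul_le_mul_of_nonneg_left (hZ q hq _ fun m hm => ?_) hC0.le
          rw [mem_filter] at hm
          exact ⟨h0 m hm.2, fun p hp h1 h2 => hh_supp hm.2 hp h1 h2⟩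
      _ = _ := by ring
  have hs : Summable (fun m : ℕ => ‖hh q χ m‖ * (m : ℝ) ^ (-(3 / 4) : ℝ)) :=
    summable_of_sum_le (fun m => by positivity) key
  exact ⟨hs, hs.tsum_le_of_sum_le key⟩

/-- the weight of `n` -/
noncomputable def wn (l : ℝ) (n : ℕ) : ℝ := Real.exp (-((l - Real.log n) ^ 2) / 4)

lemma wn_pos (l : ℝ) (n : ℕ) : 0 < wn l n := Real.exp_pos _

lemma wn_le (l : ℝ) {n : ℕ} (hn : n ≠ 0) :
    wn l n ≤ Real.exp (3 / 2 * l + 9 / 4) * (n : ℝ) ^ (-(3 / 2) : ℝ) := by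
  have hn0 : (0 : ℝ) < n := by exact_mod_cast Nat.pos_of_ne_zero hn
  unfold wn
  rw [Real.rpow_def_of_pos hn0, ← Real.exp_add]
  apply Real.exp_le_exp.2
  nlinarith [sq_nonneg ((l - Real.log n) / 2 + 3 / 2)]

section

variable {L : Type} [Field L] [NumberField L]

/-- the terms of the double series -/
noncomputable def FF (q : ℕ) (χ : Ideal (𝓞 L) →*₀ ℂ) (l : ℝ) (x : ℕ × Ideal (𝓞 L)) : ℂ :=
  hh q χ x.1 * χ x.2 * (wn l (x.1 * Ideal.absNorm x.2) : ℂ)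

lemma summable_FF (h4 : finrank ℚ L = 4) {q : ℕ} (hq : q ≠ 0) {χ : Ideal (𝓞 L) →*₀ ℂ}
    (hχ : ∀ 𝔞, ‖χ 𝔞‖ ≤ 1) (l : ℝ) : Summable (FF q χ l) := by
  classical
  obtain ⟨C, hC0, hC⟩ := sum_hh
  have h1 := (hC L h4 q hq χ hχ).1
  have h2 : Summable fun 𝔞 : Ideal (𝓞 L) => if 𝔞 = ⊥ then (0 : ℝ) else
      (Ideal.absNorm 𝔞 : ℝ) ^ (-(3 / 2) : ℝ) := by
    have h3 := summable_nr L
    have h4 := (Function.Injective.summable_iff (f := fun 𝔞 : Ideal (𝓞 L) => if 𝔞 = ⊥ then (0 : ℝ) else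
      (Ideal.absNorm 𝔞 : ℝ) ^ (-(3 / 2) : ℝ)) (g := fun 𝔞 : {𝔞 : Ideal (𝓞 L) // 𝔞 ≠ ⊥} => 𝔞.1)
      Subtype.val_injective (by
        intro 𝔞 h𝔞
        have : 𝔞 = ⊥ := by
          by_contra h
          exact h𝔞 ⟨⟨𝔞, h⟩, rfl⟩
        rw [if_pos this])).1 (by
        refine h3.congr fun 𝔞 => ?_
        rw [Function.comp_apply, if_neg 𝔞.2])
    exact h4
  have h3 := (h1.mul_of_nonneg h2 (fun m => by positivity) (fun 𝔞 => by
    show (0 : ℝ) ≤ if 𝔞 = ⊥ then (0 : ℝ) else (Ideal.absNorm 𝔞 : ℝ) ^ (-(3 / 2) : ℝ)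
    split_ifs
    · exact le_rfl
    · positivity)).mul_left (Real.exp (3 / 2 * l + 9 / 4))
  refine Summable.of_norm_bounded h3 ?_
  rintro ⟨m, 𝔞⟩
  unfold FF
  simp only
  rcases eq_or_ne m 0 with rfl | hm
  · rw [ArithmeticFunction.map_zero, zero_mul, zero_mul, norm_zero, zero_mul, zero_mul, mul_zero]
  by_cases h𝔞 : 𝔞 = ⊥
  · rw [if_pos h𝔞, h𝔞, ← Ideal.zero_eq_bot, map_zero, mul_zero, zero_mul, norm_zero, mul_zero,
      mul_zero]
  rw [if_neg h𝔞, norm_mul, norm_mul, Complex.norm_real, Real.norm_of_nonneg (wn_pos _ _).le]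
  have hN : Ideal.absNorm 𝔞 ≠ 0 := fun h => h𝔞 (Ideal.absNorm_eq_zero_iff.1 h)
  have hm1 : (1 : ℝ) ≤ m := by exact_mod_cast Nat.one_le_iff_ne_zero.2 hm
  have h5 := wn_le l (mul_ne_zero hm hN)
  push_cast at h5
  rw [Real.mul_rpow (Nat.cast_nonneg _) (Nat.cast_nonneg _)] at h5
  have h6 : (m : ℝ) ^ (-(3 / 2) : ℝ) ≤ (m : ℝ) ^ (-(3 / 4) : ℝ) :=
    Real.rpow_le_rpow_of_exponent_le hm1 (by norm_num)
  calc ‖hh q χ m‖ * ‖χ 𝔞‖ * wn l (m * Ideal.absNorm 𝔞) ≤ ‖hh q χ m‖ * 1 *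
        (Real.exp (3 / 2 * l + 9 / 4) * ((m : ℝ) ^ (-(3 / 2) : ℝ) *
          (Ideal.absNorm 𝔞 : ℝ) ^ (-(3 / 2) : ℝ))) := by
        refine mul_le_mul (mul_le_mul_of_nonneg_left (hχ 𝔞) (norm_nonneg _)) h5 (wn_pos _ _).le
          (by positivity)
    _ ≤ ‖hh q χ m‖ * 1 *
        (Real.exp (3 / 2 * l + 9 / 4) * ((m : ℝ) ^ (-(3 / 4) : ℝ) *
          (Ideal.absNorm 𝔞 : ℝ) ^ (-(3 / 2) : ℝ))) := by gcongr
    _ = _ := by ring

theorem regroup (h4 : finrank ℚ L = 4) {q : ℕ} (hq : q ≠ 0) {χ : Ideal (𝓞 L) →*₀ ℂ}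
    (hχ : ∀ 𝔞, ‖χ 𝔞‖ ≤ 1) (l : ℝ) :
    ∑' n : ℕ, ff q χ n * (wn l n : ℂ) =
      ∑' m : ℕ, hh q χ m * ∑' 𝔞 : Ideal (𝓞 L), χ 𝔞 * (wt (l - Real.log m) 𝔞 : ℂ) := by
  classical
  have hs := summable_FF h4 hq hχ l
  have h1 : ∑' x, FF q χ l x =
      ∑' m : ℕ, hh q χ m * ∑' 𝔞 : Ideal (𝓞 L), χ 𝔞 * (wt (l - Real.log m) 𝔞 : ℂ) := by
    rw [hs.tsum_prod]
    refine tsum_congr fun m => ?_
    rw [← tsum_mul_left]
    refine tsum_congr fun 𝔞 => ?_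
    unfold FF
    simp only
    rcases eq_or_ne m 0 with rfl | hm
    · rw [ArithmeticFunction.map_zero, zero_mul, zero_mul, zero_mul]
    by_cases h𝔞 : 𝔞 = ⊥
    · rw [h𝔞, ← Ideal.zero_eq_bot, map_zero, mul_zero, zero_mul, zero_mul, mul_zero]
    have hN : (Ideal.absNorm 𝔞 : ℝ) ≠ 0 := by
      exact_mod_cast fun h => h𝔞 (Ideal.absNorm_eq_zero_iff.1 h)
    have hm' : (m : ℝ) ≠ 0 := by exact_mod_cast hm
    rw [mul_assoc]
    congr 3
    unfold wn wt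
    rw [Nat.cast_mul, Real.log_mul hm' hN]
    congr 2
    ring
  rw [← h1]
  set e := Equiv.sigmaFiberEquiv (fun x : ℕ × Ideal (𝓞 L) => x.1 * Ideal.absNorm x.2) with he
  have hs' : Summable (fun y => FF q χ l (e y)) := (Equiv.summable_iff e).2 hs
  rw [← Equiv.tsum_eq e, hs'.tsum_sigma]
  refine tsum_congr fun n => ?_
  have h2 : ∑' y : {x : ℕ × Ideal (𝓞 L) // x.1 * Ideal.absNorm x.2 = n}, FF q χ l (e ⟨n, y⟩) =
      ∑' x : {x : ℕ × Ideal (𝓞 L) | x.1 * Ideal.absNorm x.2 = n}, FF q χ l x := rfl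
  rw [h2]
  rcases eq_or_ne n 0 with rfl | hn
  · rw [ArithmeticFunction.map_zero, zero_mul]
    symm
    convert tsum_zero with x
    obtain ⟨⟨m, 𝔞⟩, hx⟩ := x
    rw [Set.mem_ofPred_eq, mul_eq_zero, Ideal.absNorm_eq_zero_iff] at hx
    unfold FF
    simp only at hx ⊢
    rcases hx with rfl | hx
    · rw [ArithmeticFunction.map_zero, zero_mul, zero_mul]
    · rw [hx, ← Ideal.zero_eq_bot, map_zero, mul_zero, zero_mul]
  · rw [tsum_subtype {x : ℕ × Ideal (𝓞 L) | x.1 * Ideal.absNorm x.2 = n} (FF q χ l)]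
    set P := n.divisorsAntidiagonal.biUnion fun y => ({y.1} : Finset ℕ) ×ˢ NS L y.2 with hP
    have hmP : ∀ x : ℕ × Ideal (𝓞 L), x ∈ P ↔ x.1 * Ideal.absNorm x.2 = n := by
      intro x
      rw [hP, mem_biUnion]
      constructor
      · rintro ⟨y, hy, hx⟩
        rw [mem_product, mem_singleton, mem_NS] at hx
        rw [Nat.mem_divisorsAntidiagonal] at hy
        rw [hx.1, hx.2, hy.1]
      · intro h
        refine ⟨(x.1, Ideal.absNorm x.2), ?_, ?_⟩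
        · rw [Nat.mem_divisorsAntidiagonal]
          exact ⟨h, hn⟩
        · rw [mem_product, mem_singleton, mem_NS]
          exact ⟨rfl, rfl⟩
    have h5 : ∑' x : ℕ × Ideal (𝓞 L), {x : ℕ × Ideal (𝓞 L) |
        x.1 * Ideal.absNorm x.2 = n}.indicator (FF q χ l) x = ∑ x ∈ P, FF q χ l x := by
      rw [tsum_eq_sum (s := P)]
      · refine sum_congr rfl fun x hx => Set.indicator_of_mem ?_ _
        exact (hmP x).1 hx
      · intro x hx
        refine Set.indicator_of_notMem ?_ _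
        exact fun h => hx ((hmP x).2 h)
    rw [h5, hP, sum_biUnion]
    · rw [← hh_mul q χ, ArithmeticFunction.mul_apply, sum_mul]
      refine sum_congr rfl fun y hy => ?_
      have hy' := Nat.mem_divisorsAntidiagonal.1 hy
      have hy2 : y.2 ≠ 0 := fun h => hn (by rw [← hy'.1, h, mul_zero])
      rw [sum_product, sum_singleton, AS_apply _ hy2, mul_sum, sum_mul]
      refine sum_congr rfl fun 𝔞 h𝔞 => ?_
      unfold FF
      simp only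
      rw [mem_NS.1 h𝔞, hy'.1]
    · intro y _ y' _ hyy'
      rw [Function.onFun, disjoint_left]
      intro x hx hx'
      rw [mem_product, mem_singleton, mem_NS] at hx hx'
      exact hyy' (Prod.ext (hx.1.symm.trans hx'.1) (hx.2.symm.trans hx'.2))

end

/-- **transfer of a bound for the ideals to squarefree integers** -/
theorem ff_bound : ∃ C : ℝ, 0 < C ∧ ∀ (L : Type) [Field L] [NumberField L], finrank ℚ L = 4 →
    ∀ (q : ℕ) (_ : q ≠ 0) (χ : Ideal (𝓞 L) →*₀ ℂ), (∀ 𝔞, ‖χ 𝔞‖ ≤ 1) → ∀ M : ℝ,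
      (∀ l : ℝ, ‖∑' 𝔞 : Ideal (𝓞 L), χ 𝔞 * (wt l 𝔞 : ℂ)‖ ≤ M * Real.exp (3 / 4 * l)) →
      ∀ l : ℝ, ‖∑' n : ℕ, ff q χ n * (wn l n : ℂ)‖ ≤ C * q * M * Real.exp (3 / 4 * l) := by
  obtain ⟨C, hC0, hC⟩ := sum_hh
  refine ⟨C, hC0, fun L _ _ h4 q hq χ hχ M hM l => ?_⟩
  obtain ⟨hs, hle⟩ := hC L h4 q hq χ hχ
  have hM0 : 0 ≤ M := by
    have := (norm_nonneg _).trans (hM 0)
    rw [mul_zero, Real.exp_zero, mul_one] at this
    exact this
  rw [regroup h4 hq hχ l]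
  have h1 : ∀ m : ℕ, ‖hh q χ m * ∑' 𝔞 : Ideal (𝓞 L), χ 𝔞 * (wt (l - Real.log m) 𝔞 : ℂ)‖ ≤
      M * Real.exp (3 / 4 * l) * (‖hh q χ m‖ * (m : ℝ) ^ (-(3 / 4) : ℝ)) := by
    intro m
    rcases eq_or_ne m 0 with rfl | hm
    · rw [ArithmeticFunction.map_zero, zero_mul, norm_zero, zero_mul, mul_zero]
    have hm0 : (0 : ℝ) < m := by exact_mod_cast Nat.pos_of_ne_zero hm
    rw [norm_mul]
    calc ‖hh q χ m‖ * ‖∑' 𝔞 : Ideal (𝓞 L), χ 𝔞 * (wt (l - Real.log m) 𝔞 : ℂ)‖ ≤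
        ‖hh q χ m‖ * (M * Real.exp (3 / 4 * (l - Real.log m))) :=
          mul_le_mul_of_nonneg_left (hM _) (norm_nonneg _)
      _ = _ := by
          rw [Real.rpow_def_of_pos hm0, mul_sub, sub_eq_add_neg, Real.exp_add]
          have : -(3 / 4 * Real.log m) = Real.log m * -(3 / 4) := by ring
          rw [this]
          ring
  refine (tsum_of_norm_bounded (hs.mul_left _).hasSum h1).trans ?_
  rw [tsum_mul_left]
  calc M * Real.exp (3 / 4 * l) * ∑' m : ℕ, ‖hh q χ m‖ * (m : ℝ) ^ (-(3 / 4) : ℝ) ≤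
      M * Real.exp (3 / 4 * l) * (C * q) := mul_le_mul_of_nonneg_left hle (by positivity)
    _ = _ := by ring

end Pool.Agent.L0h75.GN
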