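import Pool.Agent.R345.IXPar

/-!
# Sizes of the parameters
-/

set_option autoImplicit false

namespace Pool.Agent.L0h75.GN

open Finset Filter Pool.Agent.H38R2.CG Pool.Agent.R345.IX

/-- the number of prime factors of the short products -/
noncomputable def kG (a : ℝ) (X : ℕ) : ℕ := 40 * kI a X

lemma choose_low {n k : ℕ} (hk : 0 < k) (h : 2 * k ≤ n) :
    ((n : ℝ) / (2 * k)) ^ k ≤ (n.choose k : ℝ) := by
  have h1 := Nat.pow_le_choose (α := ℝ) k n
  have hk0 : (0 : ℝ) < k := by exact_mod_cast hk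
  have hf : (0 : ℝ) < k.factorial := by exact_mod_cast Nat.factorial_pos k
  refine le_trans ?_ h1
  have h2 : ((n : ℝ) / (2 * k)) ^ k = ((n : ℝ) / 2) ^ k / (k : ℝ) ^ k := by
    rw [← div_pow]
    congr 1
    field_simp
  rw [h2]
  have h3 : (n : ℝ) / 2 ≤ ((n + 1 - k : ℕ) : ℝ) := by
    have : n ≤ 2 * (n + 1 - k) := by omega
    have h4 : (n : ℝ) ≤ 2 * ((n + 1 - k : ℕ) : ℝ) := by exact_mod_cast this
    linarith
  have h5 : (k.factorial : ℝ) ≤ (k : ℝ) ^ k := by exact_mod_cast Nat.factorial_le_pow k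
  exact div_le_div₀ (by positivity) (pow_le_pow_left₀ (by positivity) h3 k) hf h5

theorem parG (a : ℝ) (ha : 16 ≤ a) (δ : ℝ) (hδ : 0 < δ) (c : ℝ) (y1 : ℕ) : ∀ᶠ X : ℕ in atTop,
    2 ≤ X ∧ 2 ≤ yI a X ∧ y1 ≤ yI a X ∧ 1 ≤ kG a X ∧ 160 * kG a X ≤ (PP (yI a X)).card ∧
    38 * Real.log X ≤ kG a X * Real.log (2 * yI a X) ∧
    kG a X * Real.log (2 * yI a X) ≤ 40 * Real.log X ∧
    (1 - 1 / a) * (kG a X * Real.log (2 * yI a X)) - 10 * kG a X ≤
      Real.log ((PP (yI a X)).card.choose (kG a X) : ℝ) ∧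
    20 * kG a X + c ≤ δ * Real.log X ∧
    40 * Real.log (2 * X) ≤ (PP (yI a X)).card * Real.log (yI a X) := by
  obtain ⟨y0, hy0⟩ := NBh.part2
  have hLt : Tendsto (fun X : ℕ => Real.log (X : ℝ)) atTop atTop :=
    Real.tendsto_log_atTop.comp tendsto_natCast_atTop_atTop
  have hlt : Tendsto (fun X : ℕ => Real.log (Real.log (X : ℝ))) atTop atTop :=
    Real.tendsto_log_atTop.comp hLt
  have ha0 : 0 < a := by linarith
  have hc : 0 < 1 / (100 * a) := by positivity
  filter_upwards [hLt.eventually_ge_atTop 6000000, hLt.eventually_ge_atTop (8 * (y0 : ℝ) + 8 * y1),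
    hlt.eventually_ge_atTop 10, hlt.eventually_ge_atTop (5120 / δ),
    hLt.eventually (ev_ll _ hc), eventually_ge_atTop 2, hLt.eventually_ge_atTop (2 * |c| / δ)]
    with X e1 e2 e3 e4 e7 e8 e9
  set L := Real.log (X : ℝ) with hL
  set l := Real.log L with hl
  obtain ⟨p1, p2, p3, p4, p5, p6, p7, p8, p9, p10⟩ :=
    par1 a (by linarith) X L l hL hl (by linarith) (by linarith)
  set y := yI a X with hy
  set n0 := (PP y).card with hn0
  have hL0 : 0 < L := by linarith
  have hl0 : 0 < l := by linarith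
  have hal16 : 16 * l ≤ a * l := mul_le_mul_of_nonneg_right ha hl0.le
  have hal : 160 ≤ a * l := by linarith
  have hal0 : 0 < a * l := by linarith
  have h16 : 100 * (a * l) ≤ L := by
    have : l * (100 * a) ≤ L := by
      calc l * (100 * a) ≤ (1 / (100 * a) * L) * (100 * a) := by gcongr
        _ = L := by field_simp
    linarith
  have hLal : 16 ≤ L / (a * l) := by
    rw [le_div_iff₀ hal0]
    linarith
  have hkI1 : (1 : ℝ) ≤ kI a X := by linarith
  have hkI1' : 1 ≤ kI a X := by exact_mod_cast hkI1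
  have hkG : ((kG a X : ℕ) : ℝ) = 40 * kI a X := by
    unfold kG
    push_cast
    ring
  have hkpos : 1 ≤ kG a X := by
    unfold kG
    omega
  have hk0 : (0 : ℝ) < kG a X := by exact_mod_cast hkpos
  -- the number of primes
  have hLa : L ≤ L ^ a := by
    have := Real.rpow_le_rpow_of_exponent_le (by linarith : 1 ≤ L) (by linarith : (1 : ℝ) ≤ a)
    rwa [Real.rpow_one] at this
  have hyy0 : y0 ≤ y ∧ y1 ≤ y := by
    have hy00 : (0 : ℝ) ≤ y0 := Nat.cast_nonneg _
    have hy10 : (0 : ℝ) ≤ y1 := Nat.cast_nonneg _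
    have h1 : (y0 : ℝ) ≤ y := by linarith
    have h2 : (y1 : ℝ) ≤ y := by linarith
    exact ⟨by exact_mod_cast h1, by exact_mod_cast h2⟩
  have hnb := (hy0 y hyy0.1).1
  have hLap : 0 < L ^ a := by positivity
  have hn1 : L ^ a / (9 * (a * l)) ≤ n0 := by
    refine le_trans ?_ hnb
    calc L ^ a / (9 * (a * l)) ≤ (9 / 10 * (L ^ a / 8)) / (a * l) := by
          rw [div_le_div_iff₀ (by positivity) hal0]
          have : 0 < L ^ a * (a * l) := by positivity
          have e : 9 / 10 * (L ^ a / 8) * (9 * (a * l)) = 81 / 80 * (L ^ a * (a * l)) := by ring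
          rw [e]
          linarith
      _ ≤ (9 / 10 * (y : ℝ)) / Real.log y := by
          apply div_le_div₀ (by positivity) (by linarith) p5 p6
      _ = 9 / 10 * y / Real.log y := by ring
  have hpow : L ^ a = L ^ (a - 1) * L := by
    rw [Real.rpow_sub_one hL0.ne']
    field_simp
  have hkL : (kI a X : ℝ) ≤ 2 * L / (a * l) := by
    refine p8.trans ?_
    rw [div_le_div_iff₀ (by linarith) hal0]
    have := mul_le_mul_of_nonneg_left hal hL0.le
    linarith
  have hLa1 : 0 < L ^ (a - 1) := by positivity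
  have hkn : (kI a X : ℝ) * L ^ (a - 1) ≤ 18 * n0 := by
    calc (kI a X : ℝ) * L ^ (a - 1) ≤ (2 * L / (a * l)) * L ^ (a - 1) := by gcongr
      _ = 18 * (L ^ a / (9 * (a * l))) := by
          rw [hpow]
          field_simp
          ring
      _ ≤ 18 * n0 := by linarith
  have hkn' : (kG a X : ℝ) * L ^ (a - 1) ≤ 2304 * n0 := by
    rw [hkG]
    linarith
  have hLa1log : Real.log (L ^ (a - 1)) = (a - 1) * l := by rw [Real.log_rpow hL0]
  have hLa1big : L ≤ L ^ (a - 1) := by
    have := Real.rpow_le_rpow_of_exponent_le (by linarith : 1 ≤ L) (by linarith : (1 : ℝ) ≤ a - 1)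
    rwa [Real.rpow_one] at this
  have h160r : (160 : ℝ) * kG a X ≤ n0 := by
    have h2 : (kG a X : ℝ) * 6000000 ≤ kG a X * L ^ (a - 1) :=
      mul_le_mul_of_nonneg_left (by linarith) hk0.le
    linarith
  have h160 : 160 * kG a X ≤ n0 := by exact_mod_cast h160r
  refine ⟨e8, p7, hyy0.2, hkpos, h160, ?_, ?_, ?_, ?_, ?_⟩
  · -- lower bound for log T
    rw [hkG]
    have h1 : (L / (a * l) - 1) * (a * l - 2) ≤ kI a X * Real.log (2 * y) :=
      mul_le_mul p9 p3 (by linarith) (by linarith)
    have h2 : (L / (a * l) - 1) * (a * l - 2) = L - a * l - 2 * (L / (a * l)) + 2 := by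
      field_simp
      ring
    have h3 : L / (a * l) ≤ L / 160 := div_le_div_of_nonneg_left hL0.le (by norm_num) (by linarith)
    linarith
  · rw [hkG]
    linarith
  · -- the binomial coefficient
    have h2k : 2 * kG a X ≤ n0 := by omega
    have h1 := choose_low (n := n0) (k := kG a X) (by omega) h2k
    have hn0pos : (0 : ℝ) < n0 := by linarith
    have h3 : 0 < (n0 : ℝ) / (2 * kG a X) := by positivity
    have h4 := Real.log_le_log (by positivity) h1
    rw [Real.log_pow] at h4
    refine le_trans ?_ h4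
    have h5 : L ^ (a - 1) / 4608 ≤ (n0 : ℝ) / (2 * kG a X) := by
      rw [div_le_div_iff₀ (by norm_num) (by positivity)]
      linarith
    have h6 := Real.log_le_log (by positivity) h5
    rw [Real.log_div hLa1.ne' (by norm_num), hLa1log] at h6
    have h7 : Real.log 4608 ≤ 10 := by
      have h8 : Real.log 4608 ≤ Real.log (2 ^ 13 : ℝ) := Real.log_le_log (by norm_num) (by norm_num)
      rw [Real.log_pow] at h8
      have := Real.log_two_lt_d9
      push_cast at h8
      linarith
    have h8 : (1 - 1 / a) * (kG a X * Real.log (2 * y)) ≤ kG a X * ((a - 1) * l) := by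
      have h9 : 0 ≤ 1 - 1 / a := by
        rw [sub_nonneg, div_le_one ha0]
        linarith
      have h11 : (1 - 1 / a) * (a * l) = (a - 1) * l := by
        rw [sub_mul, sub_mul, one_mul, one_mul]
        congr 1
        rw [one_div, ← mul_assoc, inv_mul_cancel₀ ha0.ne', one_mul]
      calc (1 - 1 / a) * (kG a X * Real.log (2 * y)) ≤ (1 - 1 / a) * (kG a X * (a * l)) :=
            mul_le_mul_of_nonneg_left (mul_le_mul_of_nonneg_left p4 hk0.le) h9
        _ = kG a X * ((1 - 1 / a) * (a * l)) := by ring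
        _ = _ := by rw [h11]
    have h10 := mul_le_mul_of_nonneg_left h6 hk0.le
    have h12 := mul_le_mul_of_nonneg_left h7 hk0.le
    rw [mul_sub] at h10
    linarith
  · -- k is small
    have h1 : (kI a X : ℝ) ≤ L / (8 * l) := by
      refine hkL.trans ?_
      rw [div_le_div_iff₀ hal0 (by positivity)]
      have h0 := mul_le_mul_of_nonneg_left hal16 hL0.le
      linarith
    have h2 : 5120 / δ ≤ l := e4
    have h3 : L / (8 * l) ≤ δ * L / 40960 := by
      rw [div_le_iff₀ hδ] at h2
      rw [div_le_div_iff₀ (by positivity) (by norm_num)]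
      have h0 := mul_le_mul_of_nonneg_left h2 hL0.le
      linarith
    rw [div_le_iff₀ hδ] at e9
    have h4 := le_abs_self c
    have h5 : 0 ≤ δ * L := by positivity
    rw [hkG]
    linarith
  · -- ramified primes
    have hX0 : (0 : ℝ) < X := by
      have : 0 < X := by omega
      exact_mod_cast this
    have h1 : Real.log (2 * X) ≤ L + 1 := by
      rw [Real.log_mul (by norm_num) hX0.ne']
      have := Real.log_two_lt_d9
      linarith
    rw [div_le_iff₀ p5] at hnb
    have h2 : L * L ≤ L ^ a := by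
      rw [hpow]
      exact mul_le_mul_of_nonneg_right hLa1big hL0.le
    have h3 : 6000000 * L ≤ L * L := mul_le_mul_of_nonneg_right e1 hL0.le
    linarith

end Pool.Agent.L0h75.GN
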