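import Pool.Agent.L0h75.GN.LS
import Pool.Agent.L0h75.GN.Par
import Pool.Agent.R345.IYFin

/-!
# Few discriminants with a character of order at least three trivial at the small primes
-/

set_option autoImplicit false

namespace Pool.Agent.L0h75.GN

open NumberField Module Finset Filter Pool.Agent.H38R2.CG Pool.Agent.R345.IX Pool.Agent.R345.IY

/-- a radicand with a class group character whose square is not trivial, and which is trivial at the
primes of norm at most `Y` -/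
structure Dat (Y d : ℕ) where
  K : Type
  fK : Field K
  nK : NumberField K
  hK : finrank ℚ K = 2
  α : 𝓞 K
  hα : α ^ 2 = (d : 𝓞 K)
  ψ : Ideal (𝓞 K) →*₀ ℂ
  cc : CC ψ
  ne : ∃ 𝔞 : Ideal (𝓞 K), 𝔞 ≠ ⊥ ∧ ψ 𝔞 ^ 2 ≠ 1
  tr : ∀ 𝔭 : Ideal (𝓞 K), 𝔭.IsPrime → 𝔭 ≠ ⊥ → Ideal.absNorm 𝔭 ≤ Y → ψ 𝔭 = 1

attribute [instance] Dat.fK Dat.nK

/-- the vector of a bad radicand -/
noncomputable def Dat.v {Y d : ℕ} (x : Dat Y d) (n : ℕ) : ℂ := vv (2 * d) x.ψ n

lemma Dat.norm_v {Y d : ℕ} (x : Dat Y d) (n : ℕ) : ‖x.v n‖ ≤ n.divisors.card :=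
  norm_vv_le x.hK x.cc.isUnr.norm_le_one _ _

lemma Dat.lam_eq {Y d : ℕ} (x : Dat Y d) {p : ℕ} (hp : p.Prime) (hpY : p ≤ Y) :
    lam x.ψ p = ((NS x.K p).card : ℂ) := by
  unfold lam
  rw [card_eq_sum_ones, Nat.cast_sum]
  refine sum_congr rfl fun 𝔭 h => ?_
  have h1 := mem_NS.1 h
  have hb : 𝔭 ≠ ⊥ := by
    rintro rfl
    rw [Ideal.absNorm_bot] at h1
    exact hp.ne_zero h1.symm
  rw [x.tr 𝔭 (prime_of_norm hp h1).isPrime hb (h1.le.trans hpY), Nat.cast_one]

lemma Dat.v_eq {Y d : ℕ} (x : Dat Y d) {s : Finset ℕ} (hs : ∀ p ∈ s, p.Prime ∧ p ≤ Y)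
    (hd : (prodS s).Coprime (2 * d)) : x.v (prodS s) = ((∏ p ∈ s, (NS x.K p).card : ℕ) : ℂ) := by
  classical
  have h1 : Squarefree (prodS s) := TB5h.sqf_prod s fun p hp => (hs p hp).1
  have h2 : (prodS s).primeFactors = s := Nat.primeFactors_prod fun p hp => (hs p hp).1
  unfold Dat.v vv
  rw [if_pos ⟨h1, hd⟩, h2, Nat.cast_prod]
  exact prod_congr rfl fun p hp => x.lam_eq (hs p hp).1 (hs p hp).2

lemma Dat.re_nonneg {Y d : ℕ} (x : Dat Y d) {s : Finset ℕ} (hs : ∀ p ∈ s, p.Prime ∧ p ≤ Y) :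
    0 ≤ (x.v (prodS s)).re := by
  classical
  by_cases hd : (prodS s).Coprime (2 * d)
  · rw [x.v_eq hs hd, Complex.natCast_re]
    exact Nat.cast_nonneg _
  · unfold Dat.v vv
    rw [if_neg fun h => hd h.2, Complex.zero_re]

/-- off-diagonal terms -/
theorem off_dat : ∃ C : ℝ, 0 < C ∧ ∀ (Y d d' : ℕ) (x : Dat Y d) (x' : Dat Y d'), Squarefree d →
    d ≠ 1 → Squarefree d' → d' ≠ 1 → d ≠ d' → ∀ l : ℝ,
      ‖∑' n : ℕ, x.v n * (starRingEnd ℂ) (x'.v n) * (wn l n : ℂ)‖ ≤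
        C * (d * d' : ℝ) ^ 3 * Real.exp (3 / 4 * l) := by
  obtain ⟨C, hC0, hC⟩ := off_diag
  refine ⟨C, hC0, fun Y d d' x x' hd hd1 hd' hd'1 hne l => ?_⟩
  have h1 := hC x.K x'.K x.hK x'.hK d d' hd hd1 hd' hd'1 hne x.α x.hα x'.α x'.hα x.ψ (cj x'.ψ)
    x.cc x'.cc.cj x.ne l
  unfold Dat.v
  simp_rw [← vv_cj]
  exact h1

lemma summable_off (g : ℕ → ℂ) (hg : ∀ n, ‖g n‖ ≤ (n.divisors.card : ℝ) ^ 2) (l : ℝ) :
    Summable fun n => g n * (wn l n : ℂ) := by
  obtain ⟨C, -, hC⟩ := diag_sum 1 one_pos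
  refine Summable.of_norm_bounded (hC l).1 fun n => ?_
  rw [norm_mul, Complex.norm_real, Real.norm_of_nonneg (wn_pos _ _).le]
  exact mul_le_mul_of_nonneg_right (hg n) (wn_pos _ _).le

lemma tsum_WW (g : ℕ → ℂ) (hg : ∀ n, ‖g n‖ ≤ (n.divisors.card : ℝ) ^ 2) (k y : ℕ) :
    ∑' n, g n * (WW k y n : ℂ) =
      ∑ j ∈ range (k + 1), ∑' n, g n * (wn (k * Real.log y + j * Real.log 2) n : ℂ) := by
  rw [← Summable.tsum_finsetSum fun j _ => summable_off g hg _]
  refine tsum_congr fun n => ?_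
  unfold WW
  rw [Complex.ofReal_sum, mul_sum]

lemma lj_le {k y j : ℕ} (hy : 1 ≤ y) (hj : j ∈ range (k + 1)) :
    k * Real.log y + j * Real.log 2 ≤ k * Real.log (2 * y) := by
  have hy0 : (0 : ℝ) < y := by exact_mod_cast hy
  rw [Real.log_mul (by norm_num) hy0.ne']
  have h1 : (j : ℝ) ≤ k := by
    have := mem_range.1 hj
    exact_mod_cast (by omega : j ≤ k)
  have hl2 : 0 ≤ Real.log 2 := Real.log_nonneg (by norm_num)
  nlinarith

lemma off_WW {C : ℝ} (hC0 : 0 < C) (g : ℕ → ℂ) (hg : ∀ n, ‖g n‖ ≤ (n.divisors.card : ℝ) ^ 2)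
    (h : ∀ l : ℝ, ‖∑' n, g n * (wn l n : ℂ)‖ ≤ C * Real.exp (3 / 4 * l)) {k y : ℕ} (hy : 1 ≤ y) :
    ‖∑' n, g n * (WW k y n : ℂ)‖ ≤ (k + 1) * C * Real.exp (3 / 4 * (k * Real.log (2 * y))) := by
  rw [tsum_WW g hg]
  calc ‖∑ j ∈ range (k + 1), ∑' n, g n * (wn (k * Real.log y + j * Real.log 2) n : ℂ)‖ ≤
      ∑ j ∈ range (k + 1), C * Real.exp (3 / 4 * (k * Real.log (2 * y))) := by
        refine norm_sum_le_of_le _ fun j hj => (h _).trans ?_
        refine mul_le_mul_of_nonneg_left (Real.exp_le_exp.2 ?_) hC0.le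
        exact mul_le_mul_of_nonneg_left (lj_le hy hj) (by norm_num)
    _ = _ := by
        rw [sum_const, card_range, nsmul_eq_mul]
        push_cast
        ring

lemma diag_WW (η : ℝ) (hη : 0 < η) : ∃ C : ℝ, 0 < C ∧ ∀ k y : ℕ, 1 ≤ y →
    Summable (fun n : ℕ => (n.divisors.card : ℝ) ^ 2 * WW k y n) ∧
    ∑' n : ℕ, (n.divisors.card : ℝ) ^ 2 * WW k y n ≤
      (k + 1) * C * Real.exp ((1 + η) * (k * Real.log (2 * y))) := by
  obtain ⟨C, hC0, hC⟩ := diag_sum η hη
  refine ⟨C, hC0, fun k y hy => ?_⟩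
  have h1 : ∀ n : ℕ, (n.divisors.card : ℝ) ^ 2 * WW k y n =
      ∑ j ∈ range (k + 1), (n.divisors.card : ℝ) ^ 2 * wn (k * Real.log y + j * Real.log 2) n := by
    intro n
    unfold WW
    rw [mul_sum]
  simp_rw [h1]
  refine ⟨summable_sum fun j _ => (hC _).1, ?_⟩
  rw [Summable.tsum_finsetSum fun j _ => (hC _).1]
  calc ∑ j ∈ range (k + 1), ∑' n : ℕ, (n.divisors.card : ℝ) ^ 2 *
        wn (k * Real.log y + j * Real.log 2) n ≤
      ∑ j ∈ range (k + 1), C * Real.exp ((1 + η) * (k * Real.log (2 * y))) := by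
        refine sum_le_sum fun j hj => (hC _).2.trans ?_
        refine mul_le_mul_of_nonneg_left (Real.exp_le_exp.2 ?_) hC0.le
        exact mul_le_mul_of_nonneg_left (lj_le hy hj) (by positivity)
    _ = _ := by
        rw [sum_const, card_range, nsmul_eq_mul]
        push_cast
        ring

/-- lower bound for the first moment -/
theorem first_moment (hSPL : P_SPL) {y d k : ℕ} (hy : 2 ≤ y) (hd1 : 1 < d) (hd : Squarefree d)
    (x : Dat (2 * y) d) :
    ((((PP y).filter (fun p => jacobiSym (Dof d : ℤ) p = 1)).card.choose k : ℕ) : ℝ) ≤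
      (∑ n ∈ ((PP y).powersetCard k).image prodS, x.v n).re := by
  classical
  have hPP : ∀ p ∈ PP y, p.Prime ∧ p ≤ 2 * y ∧ y < p := by
    intro p hp
    unfold PP at hp
    rw [Finset.mem_filter, Finset.mem_Ioc] at hp
    exact ⟨hp.2, hp.1.2, hp.1.1⟩
  have hsub : ∀ s ∈ (PP y).powersetCard k, ∀ p ∈ s, p.Prime ∧ p ≤ 2 * y := by
    intro s hs p hp
    have := hPP p ((mem_powersetCard.1 hs).1 hp)
    exact ⟨this.1, this.2.1⟩
  rw [sum_image, Complex.re_sum]
  swap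
  · intro s hs t ht h
    have h1 : (prodS s).primeFactors = s := Nat.primeFactors_prod fun p hp => (hsub s hs p hp).1
    have h2 : (prodS t).primeFactors = t := Nat.primeFactors_prod fun p hp => (hsub t ht p hp).1
    rw [← h1, ← h2, h]
  have hdisc : NumberField.discr x.K = (Dof d : ℤ) := by
    have hx : ∃ z : x.K, z ^ 2 = (d : x.K) := by
      refine ⟨(x.α : x.K), ?_⟩
      have h := congrArg (algebraMap (𝓞 x.K) x.K) x.hα
      rw [map_pow, map_natCast] at h
      exact h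
    rw [T_N0d x.K d hd1 hd x.hK hx]
    unfold Dof
    split_ifs <;> push_cast <;> rfl
  have hF := isFund_Dof hd1 hd
  have hone : ∀ s ∈ ((PP y).filter (fun p => jacobiSym (Dof d : ℤ) p = 1)).powersetCard k,
      1 ≤ (x.v (prodS s)).re := by
    intro s hs
    rw [mem_powersetCard] at hs
    have hs' : ∀ p ∈ s, p.Prime ∧ p ≤ 2 * y ∧ y < p ∧ jacobiSym (Dof d : ℤ) p = 1 := by
      intro p hp
      have h1 := mem_filter.1 (hs.1 hp)
      have h2 := hPP p h1.1
      exact ⟨h2.1, h2.2.1, h2.2.2, h1.2⟩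
    have hcop : (prodS s).Coprime (2 * d) := by
      unfold prodS
      refine Nat.Coprime.prod_left fun p hp => ?_
      obtain ⟨h1, h2, h3, h4⟩ := hs' p hp
      rw [Nat.Prime.coprime_iff_not_dvd h1]
      intro h5
      have h6 : ¬ p ∣ 2 := fun h => by
        have := Nat.le_of_dvd (by norm_num) h
        omega
      have h7 : p ∣ d := (h1.dvd_mul.1 h5).resolve_left h6
      have h8 : p ∣ Dof d := by
        unfold Dof
        split_ifs
        · exact h7
        · exact h7.mul_left 4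
      have h9 : jacobiSym (Dof d : ℤ) p = 0 := by
        have hne : NeZero p := ⟨h1.ne_zero⟩
        rw [jacobiSym.eq_zero_iff]
        refine ⟨h1.ne_zero, ?_⟩
        intro h10
        rw [Int.gcd_eq_natAbs, Int.natAbs_natCast, Int.natAbs_natCast, Nat.gcd_comm] at h10
        have h11 := Nat.dvd_gcd (dvd_refl p) h8
        rw [h10] at h11
        exact h1.one_lt.ne' (Nat.dvd_one.1 h11)
      rw [h4] at h9
      exact one_ne_zero h9
    rw [x.v_eq (fun p hp => ⟨(hs' p hp).1, (hs' p hp).2.1⟩) hcop, Complex.natCast_re]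
    have h5 : 1 ≤ ∏ p ∈ s, (NS x.K p).card := by
      refine Finset.one_le_prod' fun p hp => ?_
      obtain ⟨h1, h2, h3, h4⟩ := hs' p hp
      have h6 : Pool.Agent.H38R2.CG.chi (Dof d) p = 1 := by
        rw [chi_odd (Dof d) p h1 (by omega), h4]
      obtain ⟨P, P', -, -, -, hP, -⟩ := (hSPL x.K (Dof d) hF x.hK hdisc p h1).1 h6
      exact card_pos.2 ⟨P, mem_NS.2 hP⟩
    exact_mod_cast h5
  calc ((((PP y).filter (fun p => jacobiSym (Dof d : ℤ) p = 1)).card.choose k : ℕ) : ℝ) =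
      ∑ s ∈ ((PP y).filter (fun p => jacobiSym (Dof d : ℤ) p = 1)).powersetCard k, (1 : ℝ) := by
        rw [sum_const, card_powersetCard, nsmul_eq_mul, mul_one]
    _ ≤ ∑ s ∈ ((PP y).filter (fun p => jacobiSym (Dof d : ℤ) p = 1)).powersetCard k,
        (x.v (prodS s)).re := sum_le_sum hone
    _ ≤ ∑ s ∈ (PP y).powersetCard k, (x.v (prodS s)).re := by
        refine sum_le_sum_of_subset_of_nonneg (powersetCard_mono (filter_subset _ _)) ?_
        intro s hs _
        exact x.re_nonneg (hsub s hs)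

theorem choose_cmp3 (n0 n1 k : ℕ) (h1 : n0 ≤ 80 * n1) (h2 : 160 * k ≤ n0) :
    n0.choose k ≤ 160 ^ k * n1.choose k := by
  have h3 : n0.descFactorial k ≤ 160 ^ k * n1.descFactorial k := by
    rw [Nat.descFactorial_eq_prod_range, Nat.descFactorial_eq_prod_range]
    have h4 : 160 ^ k * ∏ i ∈ Finset.range k, (n1 - i) = ∏ i ∈ Finset.range k, 160 * (n1 - i) := by
      rw [Finset.prod_mul_distrib, Finset.prod_const, Finset.card_range]
    rw [h4]
    refine Finset.prod_le_prod' fun i hi => ?_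
    have := Finset.mem_range.1 hi
    omega
  rw [Nat.descFactorial_eq_factorial_mul_choose, Nat.descFactorial_eq_factorial_mul_choose] at h3
  have h5 : 0 < k.factorial := Nat.factorial_pos k
  refine Nat.le_of_mul_le_mul_left ?_ h5
  calc k.factorial * n0.choose k ≤ 160 ^ k * (k.factorial * n1.choose k) := h3
    _ = _ := by ring

/-- many split primes -/
lemma split_card {y D X : ℕ} (hy : 2 ≤ y) (hD : 0 < D) (hDX : D ≤ 2 * X)
    (hlow : ((PP y).card : ℝ) / 20 ≤ ∑ p ∈ PP y, (1 + ((jacobiSym (D : ℤ) p : ℤ) : ℝ)))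
    (hram : 40 * Real.log (2 * X) ≤ (PP y).card * Real.log y) :
    (PP y).card ≤ 80 * ((PP y).filter (fun p => jacobiSym (D : ℤ) p = 1)).card := by
  classical
  set P := PP y with hP
  set P1 := P.filter (fun p => jacobiSym (D : ℤ) p = 1) with hP1
  set R := P.filter (fun p => jacobiSym (D : ℤ) p = 0) with hR
  have hPP : ∀ p ∈ P, p.Prime ∧ y < p := by
    intro p hp
    rw [hP] at hp
    unfold PP at hp
    rw [Finset.mem_filter, Finset.mem_Ioc] at hp
    exact ⟨hp.2, hp.1.1⟩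
  have h1 : ∑ p ∈ P, (1 + ((jacobiSym (D : ℤ) p : ℤ) : ℝ)) ≤ 2 * P1.card + R.card := by
    calc ∑ p ∈ P, (1 + ((jacobiSym (D : ℤ) p : ℤ) : ℝ))
        ≤ ∑ p ∈ P, ((if jacobiSym (D : ℤ) p = 1 then (2 : ℝ) else 0) +
            (if jacobiSym (D : ℤ) p = 0 then (1 : ℝ) else 0)) := by
          refine Finset.sum_le_sum fun p _ => ?_
          rcases jacobiSym.trichotomy (D : ℤ) p with h | h | h <;> rw [h] <;> norm_num
      _ = 2 * P1.card + R.card := by
          rw [sum_add_distrib, ← Finset.sum_filter, ← Finset.sum_filter, Finset.sum_const,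
            Finset.sum_const, nsmul_eq_mul, nsmul_eq_mul, mul_one, mul_comm]
  have hR1 : ∏ p ∈ R, p ∣ D := by
    refine Finset.prod_primes_dvd D (fun p hp => (hPP p (mem_filter.1 hp).1).1.prime) fun p hp => ?_
    have hp1 := (mem_filter.1 hp)
    have hpp := (hPP p hp1.1).1
    have hne : NeZero p := ⟨hpp.ne_zero⟩
    have h2 := (jacobiSym.eq_zero_iff.1 hp1.2).2
    by_contra h3
    apply h2
    rw [Int.gcd_eq_natAbs, Int.natAbs_natCast, Int.natAbs_natCast, Nat.gcd_comm]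
    exact (Nat.Prime.coprime_iff_not_dvd hpp).2 h3
  have hR2 : y ^ R.card ≤ D := by
    refine le_trans ?_ (Nat.le_of_dvd hD hR1)
    rw [← prod_const]
    exact prod_le_prod' fun p hp => (hPP p (mem_filter.1 hp).1).2.le
  have hy0 : (0 : ℝ) < y := by
    have : 0 < y := by omega
    exact_mod_cast this
  have hly : 0 < Real.log y := Real.log_pos (by exact_mod_cast (by omega : 1 < y))
  have hR3 : R.card * Real.log y ≤ Real.log (2 * X) := by
    rw [← Real.log_pow]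
    refine Real.log_le_log (by positivity) ?_
    have h2 : y ^ R.card ≤ 2 * X := hR2.trans hDX
    exact_mod_cast h2
  have hR4 : (40 : ℝ) * R.card ≤ P.card := by
    refine le_of_mul_le_mul_right ?_ hly
    linarith
  have h5 : (P.card : ℝ) ≤ 80 * P1.card := by linarith
  exact_mod_cast h5

end Pool.Agent.L0h75.GN
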