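import Pool.Agent.L0h75.GN.BD

/-!
# The number of bad discriminants
-/

set_option autoImplicit false

namespace Pool.Agent.L0h75.GN

open NumberField Module Finset Filter Pool.Agent.H38R2.CG Pool.Agent.R345.IX Pool.Agent.R345.IY

/-- the exceptional discriminants -/
def BadG (a : ℝ) (X D : ℕ) : Prop :=
  ∃ d : ℕ, 1 < d ∧ Squarefree d ∧ D = Dof d ∧ Nonempty (Dat (2 * yI a X) d)

lemma log_25600 : Real.log 25600 ≤ 11 := by
  have h8 : Real.log 25600 ≤ Real.log (2 ^ 15 : ℝ) := Real.log_le_log (by norm_num) (by norm_num)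
  rw [Real.log_pow] at h8
  have := Real.log_two_lt_d9
  push_cast at h8
  linarith

lemma log_succ_le (k : ℕ) : Real.log (k + 1) ≤ k := by
  have := Real.log_le_sub_one_of_pos (show (0 : ℝ) < (k : ℝ) + 1 by positivity)
  linarith

/-- the consequence of the large sieve -/
lemma sieve_arith {s M A D O : ℝ} (hs : 0 ≤ s) (hM : 0 < M) (hA : 0 < A) (hD : 0 ≤ D)
    (h : (s * (M / A)) ^ 2 ≤ 2 * M * (s * D + s ^ 2 * O)) (hO : 4 * A ^ 2 * O ≤ M) :
    s ≤ 4 * A ^ 2 * D / M := by
  rcases eq_or_lt_of_le hs with h0 | h0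
  · rw [← h0]
    positivity
  rw [le_div_iff₀ hM]
  have h1 : s ^ 2 * M ^ 2 ≤ 2 * A ^ 2 * M * (s * D + s ^ 2 * O) := by
    have h2 : (s * (M / A)) ^ 2 * A ^ 2 = s ^ 2 * M ^ 2 := by
      field_simp
    have h3 := mul_le_mul_of_nonneg_right h (sq_nonneg A)
    rw [h2] at h3
    linarith
  have h4 : s * M ≤ 2 * A ^ 2 * (D + s * O) := by
    refine le_of_mul_le_mul_right (a := s * M) ?_ (by positivity)
    calc s * M * (s * M) = s ^ 2 * M ^ 2 := by ring
      _ ≤ _ := h1
      _ = _ := by ring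
  have h5 : s * (4 * A ^ 2 * O) ≤ s * M := mul_le_mul_of_nonneg_left hO hs
  linarith

theorem ls_count (a ε : ℝ) (ha : 16 ≤ a) (hε : 0 < ε) (hε1 : ε ≤ 1) :
    ∀ᶠ X : ℕ in atTop, ∀ S : Finset ℕ, (∀ D ∈ S, X < D ∧ D ≤ 2 * X ∧ BadG a X D ∧
      ((PP (yI a X)).card : ℝ) / 20 ≤
        ∑ p ∈ PP (yI a X), (1 + ((jacobiSym (D : ℤ) p : ℤ) : ℝ))) →
      (S.card : ℝ) ≤ (X : ℝ) ^ (40 / a + ε) := by
  classical
  have hSPL : P_SPL := T_SPL T_N0
  obtain ⟨C1, hC1, hdiag⟩ := diag_WW (ε / 80) (by positivity)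
  obtain ⟨C2, hC2, hoff⟩ := off_dat
  have ha0 : 0 < a := by linarith
  filter_upwards [parG a ha (ε / 4) (by positivity)
    (|Real.log (4 * C1)| + |Real.log (4 * (C2 * 64))|) 0] with X hX S hS
  obtain ⟨hX2, hy2, -, hk1, h160, hT1, hT2, hM, hsm, hram⟩ := hX
  set y := yI a X with hy
  set k := kG a X with hk
  set L := Real.log (X : ℝ) with hL
  set T := (k : ℝ) * Real.log (2 * y) with hT
  set P := PP y with hP
  set M : ℝ := (P.card.choose k : ℝ) with hMdef
  have hXpos : (0 : ℝ) < X := by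
    have : 0 < X := by omega
    exact_mod_cast this
  have hX1 : (1 : ℝ) ≤ X := by
    have : 1 ≤ X := by omega
    exact_mod_cast this
  have hL0 : 0 ≤ L := Real.log_nonneg hX1
  have hM0 : 0 < M := by
    have : 0 < P.card.choose k := Nat.choose_pos (by omega)
    rw [hMdef]
    exact_mod_cast this
  have hy1 : 1 ≤ y := by omega
  have hD0 : ∀ D ∈ S, 0 < D := fun D hD => lt_of_le_of_lt (Nat.zero_le _) (hS D hD).1
  -- the data
  have hbad : ∀ D : {D // D ∈ S}, ∃ d : ℕ, 1 < d ∧ Squarefree d ∧ D.1 = Dof d ∧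
      Nonempty (Dat (2 * y) d) := fun D => (hS D.1 D.2).2.2.1
  choose dd hdd1 hdds hddD hdat using hbad
  have hdat' : ∀ D : {D // D ∈ S}, Nonempty (Dat (2 * y) (dd D)) := hdat
  let x : ∀ D : {D // D ∈ S}, Dat (2 * y) (dd D) := fun D => (hdat' D).some
  have hddle : ∀ D : {D // D ∈ S}, (dd D : ℝ) ≤ 2 * X := by
    intro D
    have h1 : dd D ≤ D.1 := by
      conv_rhs => rw [hddD D]
      unfold Dof
      split_ifs <;> omega
    have h2 : dd D ≤ 2 * X := h1.trans (hS D.1 D.2).2.1
    exact_mod_cast h2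
  set g : ℕ → ℝ := fun n => (n.divisors.card : ℝ) with hg
  set N : Finset ℕ := (P.powersetCard k).image prodS with hN
  set Db : ℝ := (k + 1) * C1 * Real.exp ((1 + ε / 80) * T) with hDb
  set Ob : ℝ := (k + 1) * (C2 * (64 * (X : ℝ) ^ 6)) * Real.exp (3 / 4 * T) with hOb
  have hNcard : (N.card : ℝ) ≤ M := by
    have h1 : N.card ≤ P.card.choose k := by
      rw [hN, ← card_powersetCard]
      exact card_image_le
    rw [hMdef]
    exact_mod_cast h1
  have hNW : ∀ n ∈ N, 1 / 2 ≤ WW k y n := by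
    intro n hn
    rw [hN, mem_image] at hn
    obtain ⟨s, hs, rfl⟩ := hn
    rw [mem_powersetCard] at hs
    have hPP : ∀ p ∈ s, y ≤ p ∧ p ≤ 2 * y := by
      intro p hp
      have h1 := hs.1 hp
      rw [hP] at h1
      unfold PP at h1
      rw [Finset.mem_filter, Finset.mem_Ioc] at h1
      exact ⟨h1.1.1.le, h1.1.2⟩
    apply WW_ge hy1
    · unfold prodS
      rw [← hs.2, ← prod_const]
      exact prod_le_prod' fun p hp => (hPP p hp).1
    · unfold prodS
      rw [← hs.2]
      exact prod_le_pow_card _ _ _ fun p hp => (hPP p hp).2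
  have hls := large_sieve (ι := {D // D ∈ S}) Finset.univ (fun D n => (x D).v n) g (WW k y)
    (fun n => WW_nonneg k y n) (fun n => Nat.cast_nonneg _) (fun D _ n => (x D).norm_v n)
    (hdiag k y hy1).1 N (w := 1 / 2) (by norm_num) hNW (Λ := M / 160 ^ k) (D := Db) (O := Ob)
    (by positivity) (by
      intro D _
      refine le_trans ?_ (first_moment hSPL hy2 (hdd1 D) (hdds D) (x D))
      have h1 := split_card (D := D.1) (X := X) hy2 (hD0 D.1 D.2) (hS D.1 D.2).2.1
        (hS D.1 D.2).2.2.2 hram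
      rw [← hddD D]
      have h2 := choose_cmp3 _ _ k h1 h160
      rw [div_le_iff₀ (by positivity)]
      have h3 : (P.card.choose k : ℝ) ≤ 160 ^ k *
          ((P.filter (fun p => jacobiSym (D.1 : ℤ) p = 1)).card.choose k : ℝ) := by
        exact_mod_cast h2
      linarith) (hdiag k y hy1).2 (by positivity) (by
      intro D _ D' _ hne
      have hne' : dd D ≠ dd D' := by
        intro h
        apply hne
        apply Subtype.ext
        rw [hddD D, hddD D', h]
      have h1 := hoff (2 * y) (dd D) (dd D') (x D) (x D') (hdds D) (by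
        have := hdd1 D
        omega) (hdds D') (by
        have := hdd1 D'
        omega) hne'
      have h2 := off_WW (C := C2 * (64 * (X : ℝ) ^ 6)) (by positivity)
        (fun n => (x D).v n * (starRingEnd ℂ) ((x D').v n)) (by
          intro n
          rw [norm_mul, RCLike.norm_conj, pow_two]
          exact mul_le_mul ((x D).norm_v n) ((x D').norm_v n) (norm_nonneg _) (Nat.cast_nonneg _))
        (by
          intro l
          refine (h1 l).trans ?_
          refine mul_le_mul_of_nonneg_right ?_ (Real.exp_pos _).le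
          refine mul_le_mul_of_nonneg_left ?_ hC2.le
          calc ((dd D : ℝ) * dd D') ^ 3 ≤ ((2 * X) * (2 * X)) ^ 3 := by
                refine pow_le_pow_left₀ (by positivity) ?_ 3
                exact mul_le_mul (hddle D) (hddle D') (by positivity) (by positivity)
            _ = 64 * (X : ℝ) ^ 6 := by ring) (k := k) hy1
      exact h2)
  rw [card_univ, Fintype.card_coe] at hls
  have hls2 : ((S.card : ℝ) * (M / 160 ^ k)) ^ 2 ≤ 2 * M * (S.card * Db + (S.card : ℝ) ^ 2 * Ob) := by
    refine hls.trans ?_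
    refine mul_le_mul_of_nonneg_right ?_ (by positivity)
    rw [div_le_iff₀ (by norm_num)]
    linarith
  have hTL : 38 * L ≤ T := hT1
  have hTU : T ≤ 40 * L := hT2
  have hlogk := log_succ_le k
  have h256 := log_25600
  have hk0 : (0 : ℝ) ≤ k := Nat.cast_nonneg _
  have habs1 := le_abs_self (Real.log (4 * C1))
  have habs2 := le_abs_self (Real.log (4 * (C2 * 64)))
  have habs1' := abs_nonneg (Real.log (4 * C1))
  have habs2' := abs_nonneg (Real.log (4 * (C2 * 64)))
  have h160sq : ((160 : ℝ) ^ k) ^ 2 = 25600 ^ k := by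
    rw [← pow_mul, mul_comm, pow_mul]
    norm_num
  have h256k : (k : ℝ) * Real.log 25600 ≤ k * 11 := mul_le_mul_of_nonneg_left h256 hk0
  have hinv16 : 1 / a ≤ 1 / 16 := one_div_le_one_div_of_le (by norm_num) ha
  have hT0 : 0 ≤ T := by linarith
  -- the off-diagonal terms are small
  have hOM : 4 * ((160 : ℝ) ^ k) ^ 2 * Ob ≤ M := by
    rw [h160sq]
    have hpos : 0 < 4 * (25600 : ℝ) ^ k * Ob := by positivity
    rw [← Real.log_le_log_iff hpos hM0]
    have e1 : 4 * (25600 : ℝ) ^ k * Ob = (4 * (C2 * 64)) * 25600 ^ k * (k + 1) * (X : ℝ) ^ 6 *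
        Real.exp (3 / 4 * T) := by
      rw [hOb]
      ring
    rw [e1, Real.log_mul (by positivity) (by positivity), Real.log_mul (by positivity) (by positivity),
      Real.log_mul (by positivity) (by positivity), Real.log_mul (by positivity) (by positivity),
      Real.log_exp, Real.log_pow, Real.log_pow]
    refine le_trans ?_ hM
    push_cast
    have h1 : 1 / a * T ≤ 1 / 16 * T := mul_le_mul_of_nonneg_right hinv16 hT0
    have h2 : ε / 4 * L ≤ 1 / 4 * L := mul_le_mul_of_nonneg_right (by linarith) hL0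
    rw [sub_mul, one_mul]
    linarith
  have hfin := sieve_arith (Nat.cast_nonneg _) hM0 (by positivity) (by positivity) hls2 hOM
  refine hfin.trans ?_
  rw [h160sq]
  have hpos : 0 < 4 * (25600 : ℝ) ^ k * Db / M := by positivity
  rw [← Real.log_le_log_iff hpos (by positivity), Real.log_rpow hXpos]
  have e1 : 4 * (25600 : ℝ) ^ k * Db / M = ((4 * C1) * 25600 ^ k * (k + 1) *
      Real.exp ((1 + ε / 80) * T)) / M := by
    rw [hDb]
    ring
  rw [e1, Real.log_div (by positivity) hM0.ne', Real.log_mul (by positivity) (by positivity),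
    Real.log_mul (by positivity) (by positivity), Real.log_mul (by positivity) (by positivity),
    Real.log_exp, Real.log_pow]
  have h1 : 1 / a * T ≤ 1 / a * (40 * L) := mul_le_mul_of_nonneg_left hTU (by positivity)
  have h2 : ε / 80 * T ≤ ε / 80 * (40 * L) := mul_le_mul_of_nonneg_left hTU (by positivity)
  rw [sub_mul, one_mul] at hM
  rw [add_mul, one_mul, add_mul]
  have h3 : 0 ≤ ε * L := by positivity
  have h4 : 40 / a * L = 1 / a * (40 * L) := by ring
  rw [h4]
  linarith

end Pool.Agent.L0h75.GN
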