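import Pool.Agent.L0h75.GN.Rel

/-!
# The discriminant of a biquadratic field
-/

set_option autoImplicit false

open NumberField Module Polynomial

namespace Pool.Agent.L0h75.GN

lemma adjoin_top {F E : Type} [Field F] [Field E] [Algebra F E] {a : E}
    (h2 : Module.finrank F E = 2) (ha' : ∀ x : F, algebraMap F E x ≠ a) :
    Algebra.adjoin F {a} = ⊤ := by
  rw [eq_top_iff]
  intro x _
  obtain ⟨u, v, h⟩ := exists_coord h2 ha' x
  rw [h]
  exact add_mem (Subalgebra.algebraMap_mem _ _) (mul_mem (Subalgebra.algebraMap_mem _ _)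
    (Algebra.subset_adjoin (Set.mem_singleton a)))

section ZK
variable {K : Type} [Field K] [NumberField K]

lemma two_mul_memZ (h2 : finrank ℚ K = 2) {a : 𝓞 K} {c : ℤ} (ha : a ^ 2 = (c : 𝓞 K))
    (ha' : ∀ x : ℚ, algebraMap ℚ K x ≠ (a : K)) : 2 * a ∈ differentIdeal ℤ (𝓞 K) := by
  have h1 := aeval_derivative_mem_differentIdeal ℤ ℚ K (B := 𝓞 K) a (adjoin_top h2 ha')
  have h3 : IsIntegral ℤ a := RingOfIntegers.isIntegral a
  have h4 : minpoly ℤ a ∣ (X ^ 2 - C c : ℤ[X]) := by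
    apply minpoly.isIntegrallyClosed_dvd h3
    rw [map_sub, map_pow, aeval_X, aeval_C, ha]
    simp
  obtain ⟨g, hg⟩ := h4
  have h5 := congrArg (fun p => aeval a (derivative p)) hg
  simp only [derivative_sub, derivative_X_pow, derivative_C, derivative_mul, map_add, map_mul,
    minpoly.aeval, zero_mul, sub_zero, add_zero] at h5
  have h6 : 2 * a = aeval a (derivative (minpoly ℤ a)) * aeval a g := by
    rw [← h5, aeval_C, map_pow, aeval_X]
    simp
  rw [h6]
  exact Ideal.mul_mem_right _ _ h1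

end ZK

section KL
variable {K L : Type} [Field K] [NumberField K] [Field L] [NumberField L] [Algebra K L]

lemma two_mul_memK (h2 : finrank K L = 2) {a : 𝓞 L} {c : ℤ} (ha : a ^ 2 = (c : 𝓞 L))
    (ha' : ∀ x : K, algebraMap K L x ≠ (a : L)) : 2 * a ∈ differentIdeal (𝓞 K) (𝓞 L) := by
  have h1 := aeval_derivative_mem_differentIdeal (𝓞 K) K L (B := 𝓞 L) a (adjoin_top h2 ha')
  have h3 : IsIntegral (𝓞 K) a := Algebra.IsIntegral.isIntegral a
  have h4 : minpoly (𝓞 K) a ∣ (X ^ 2 - C (c : 𝓞 K) : (𝓞 K)[X]) := by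
    apply minpoly.isIntegrallyClosed_dvd h3
    rw [map_sub, map_pow, aeval_X, aeval_C, ha, map_intCast, sub_self]
  obtain ⟨g, hg⟩ := h4
  have h5 := congrArg (fun p => aeval a (derivative p)) hg
  simp only [derivative_sub, derivative_X_pow, derivative_C, derivative_mul, map_add, map_mul,
    minpoly.aeval, zero_mul, sub_zero, add_zero] at h5
  have h6 : 2 * a = aeval a (derivative (minpoly (𝓞 K) a)) * aeval a g := by
    rw [← h5, aeval_C, map_pow, aeval_X, map_natCast]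
    simp
  rw [h6]
  exact Ideal.mul_mem_right _ _ h1

/-- **the bound for the discriminant** -/
theorem disc_le (hK : finrank ℚ K = 2) (hL : finrank K L = 2) (h4 : finrank ℚ L = 4)
    {a : 𝓞 K} {c : ℤ} (hc : c ≠ 0) (ha : a ^ 2 = (c : 𝓞 K))
    (ha' : ∀ x : ℚ, algebraMap ℚ K x ≠ (a : K)) {b : 𝓞 L} {c' : ℤ} (hc' : c' ≠ 0)
    (hb : b ^ 2 = (c' : 𝓞 L)) (hb' : ∀ x : K, algebraMap K L x ≠ (b : L)) :
    Ideal.absNorm (differentIdeal ℤ (𝓞 L)) ≤ 256 * (c.natAbs * c'.natAbs) ^ 2 := by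
  have h1 := two_mul_memZ hK ha ha'
  have h2 := two_mul_memK hL hb hb'
  have h3 : (2 * b) * algebraMap (𝓞 K) (𝓞 L) (2 * a) ∈ differentIdeal ℤ (𝓞 L) := by
    rw [differentIdeal_eq_differentIdeal_mul_differentIdeal ℤ (𝓞 K) (𝓞 L)]
    exact Ideal.mul_mem_mul h2 (Ideal.mem_map_of_mem _ h1)
  set x := (2 * b) * algebraMap (𝓞 K) (𝓞 L) (2 * a) with hx
  have h5 : x * x = ((16 * (c.natAbs * c'.natAbs) : ℕ) : 𝓞 L) ∨
      x * x = -((16 * (c.natAbs * c'.natAbs) : ℕ) : 𝓞 L) := by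
    have h6 : x * x = ((16 * (c * c') : ℤ) : 𝓞 L) := by
      have h7 : x * x = 16 * (b ^ 2 * algebraMap (𝓞 K) (𝓞 L) (a ^ 2)) := by
        rw [hx, map_mul, map_pow, map_ofNat]
        ring
      rw [h7, hb, ha, map_intCast]
      push_cast
      ring
    have h8 : ((16 * (c.natAbs * c'.natAbs) : ℕ) : ℤ) = |16 * (c * c')| := by
      push_cast
      rw [abs_mul, abs_mul]
      norm_num
    rcases abs_choice (16 * (c * c')) with h | h
    · left
      rw [h6, ← h, ← h8]
      norm_cast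
    · right
      rw [h6]
      have : (16 * (c * c')) = -((16 * (c.natAbs * c'.natAbs) : ℕ) : ℤ) := by
        rw [h8, h]; ring
      rw [this, Int.cast_neg, Int.cast_natCast]
  have h6 : Ideal.span {x * x} = Ideal.span {((16 * (c.natAbs * c'.natAbs) : ℕ) : 𝓞 L)} := by
    rcases h5 with h | h
    · rw [h]
    · rw [h, Ideal.span_singleton_neg]
  have h7 := congrArg Ideal.absNorm h6
  rw [← Ideal.span_singleton_mul_span_singleton, map_mul, Ideal.absNorm_span_natCast,
    RingOfIntegers.rank, h4] at h7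
  have h8 : Ideal.absNorm (Ideal.span {x}) = (16 * (c.natAbs * c'.natAbs)) ^ 2 := by
    have h9 : Ideal.absNorm (Ideal.span {x}) ^ 2 = ((16 * (c.natAbs * c'.natAbs)) ^ 2) ^ 2 := by
      rw [pow_two, h7, ← pow_mul]
    exact Nat.pow_left_injective (n := 2) (by norm_num) h9
  have h9 : Ideal.absNorm (differentIdeal ℤ (𝓞 L)) ∣ Ideal.absNorm (Ideal.span {x}) := by
    apply Ideal.absNorm_dvd_absNorm_of_le
    rw [Ideal.span_singleton_le_iff_mem]
    exact h3
  rw [h8] at h9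
  have hpos : 0 < (16 * (c.natAbs * c'.natAbs)) ^ 2 := by
    have := Int.natAbs_pos.2 hc
    have := Int.natAbs_pos.2 hc'
    positivity
  have := Nat.le_of_dvd hpos h9
  calc _ ≤ _ := this
    _ = _ := by ring

end KL

end Pool.Agent.L0h75.GN
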