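import Pool.Agent.L0h75.GN.Quad

/-!
# The compositum of two real quadratic fields
-/

set_option autoImplicit false

open NumberField Module Polynomial

namespace Pool.Agent.L0h75.GN

lemma nat_sq_aux {d d' : ℕ} (hd : Squarefree d) (hd' : Squarefree d') {v : ℚ}
    (h : v ^ 2 * d = d') : d = d' := by
  have hs0 : (v.den : ℚ) ≠ 0 := by exact_mod_cast v.den_nz
  have h1 : (v.num : ℚ) ^ 2 * d = d' * (v.den : ℚ) ^ 2 := by
    have h2 : v * v.den = v.num := Rat.mul_den_eq_num v
    rw [← h, ← h2]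
    ring
  have h2 : v.num ^ 2 * d = d' * (v.den : ℤ) ^ 2 := by exact_mod_cast h1
  have h3 : v.num.natAbs ^ 2 * d = d' * v.den ^ 2 := by
    have h4 := congrArg Int.natAbs h2
    rw [Int.natAbs_mul, Int.natAbs_mul, Int.natAbs_pow, Int.natAbs_pow, Int.natAbs_natCast,
      Int.natAbs_natCast, Int.natAbs_natCast] at h4
    exact h4
  have hcop : (v.num.natAbs ^ 2).Coprime (v.den ^ 2) := Nat.Coprime.pow 2 2 v.reduced
  have h4 : v.den ^ 2 ∣ d := by
    apply hcop.symm.dvd_of_dvd_mul_left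
    rw [h3]
    exact dvd_mul_left _ _
  have h5 : v.num.natAbs ^ 2 ∣ d' := by
    apply hcop.dvd_of_dvd_mul_right
    rw [← h3]
    exact dvd_mul_right _ _
  rw [pow_two] at h4 h5
  have h6 := Nat.isUnit_iff.1 (hd _ h4)
  have h7 := Nat.isUnit_iff.1 (hd' _ h5)
  rw [h6, h7] at h3
  omega

lemma rat_sq_ne {d : ℕ} (hd : Squarefree d) (h1 : d ≠ 1) (v : ℚ) : v ^ 2 ≠ d := by
  intro h
  apply h1
  exact (nat_sq_aux squarefree_one hd (v := v) (by rw [Nat.cast_one, mul_one]; exact h)).symm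

lemma not_rat_of {F : Type} [Field F] [NumberField F] {d : ℕ} (hd : Squarefree d) (h1 : d ≠ 1)
    {a : F} (ha : a ^ 2 = d) (q : ℚ) : algebraMap ℚ F q ≠ a := by
  intro h
  apply rat_sq_ne hd h1 q
  apply (algebraMap ℚ F).injective
  rw [map_pow, h, ha, map_natCast]

lemma no_sqrt {F : Type} [Field F] [NumberField F] (h2 : finrank ℚ F = 2) {d d' : ℕ}
    (hd : Squarefree d) (hd1 : d ≠ 1) (hd' : Squarefree d') (hd'1 : d' ≠ 1) (hne : d ≠ d') {a : F}
    (ha : a ^ 2 = d) (x : F) : x ^ 2 ≠ d' := by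
  intro hx
  have ha' := not_rat_of hd hd1 ha
  obtain ⟨u, v, huv⟩ := exists_coord h2 ha' x
  have h3 : algebraMap ℚ F (u ^ 2 + v ^ 2 * d) + algebraMap ℚ F (2 * u * v) * a =
      algebraMap ℚ F d' + algebraMap ℚ F 0 * a := by
    rw [map_zero, zero_mul, add_zero, map_natCast, ← hx, huv, map_add, map_mul, map_mul, map_mul,
      map_pow, map_pow, map_natCast, ← ha, map_ofNat]
    ring
  obtain ⟨h4, h5⟩ := coord_unique ha' h3
  have h6 : u = 0 ∨ v = 0 := by
    rcases mul_eq_zero.1 h5 with h | h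
    · left
      linarith
    · exact Or.inr h
  rcases h6 with h | h
  · rw [h] at h4
    exact hne (nat_sq_aux hd hd' (v := v) (by rw [← h4]; ring))
  · rw [h] at h4
    exact rat_sq_ne hd' hd'1 u (by rw [← h4]; ring)

theorem exists_L {K K' : Type} [Field K] [NumberField K] [Field K'] [NumberField K']
    (hK : finrank ℚ K = 2) (hK' : finrank ℚ K' = 2) {d d' : ℕ} (hd : Squarefree d) (hd1 : d ≠ 1)
    (hd' : Squarefree d') (hd'1 : d' ≠ 1) (hne : d ≠ d') {α : K} (hα : α ^ 2 = d) {β : K'}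
    (hβ : β ^ 2 = d') :
    ∃ (L : Type) (_ : Field L) (_ : NumberField L) (_ : Algebra K L) (_ : Algebra K' L),
      finrank K L = 2 ∧ finrank K' L = 2 ∧ finrank ℚ L = 4 ∧
      (∀ x : K, algebraMap K L x ≠ algebraMap K' L β) ∧
      (∀ x : K', algebraMap K' L x ≠ algebraMap K L α) := by
  set f : K[X] := X ^ 2 - C (d' : K) with hf
  have hfm : f.Monic := monic_X_pow_sub_C _ (by norm_num)
  have hfd : f.natDegree = 2 := natDegree_X_pow_sub_C
  have hirr : Irreducible f := by
    rw [Polynomial.irreducible_iff_roots_eq_zero_of_degree_le_three (by rw [hfd]) (by rw [hfd]; norm_num)]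
    rw [Multiset.eq_zero_iff_forall_notMem]
    intro x hx
    rw [mem_roots hfm.ne_zero, IsRoot.def, hf, eval_sub, eval_pow, eval_X, eval_C, sub_eq_zero] at hx
    exact no_sqrt hK hd hd1 hd' hd'1 hne hα x hx
  haveI : Fact (Irreducible f) := ⟨hirr⟩
  have hfin : FiniteDimensional K (AdjoinRoot f) :=
    (AdjoinRoot.powerBasis hfm.ne_zero).finite
  have hrk : finrank K (AdjoinRoot f) = 2 := by
    rw [(AdjoinRoot.powerBasis hfm.ne_zero).finrank, AdjoinRoot.powerBasis_dim, hfd]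
  haveI hcz : CharZero (AdjoinRoot f) := charZero_of_injective_algebraMap
    (algebraMap K (AdjoinRoot f)).injective
  haveI : FiniteDimensional ℚ (AdjoinRoot f) := FiniteDimensional.trans ℚ K (AdjoinRoot f)
  haveI hNF : NumberField (AdjoinRoot f) := ⟨⟩
  set b : AdjoinRoot f := AdjoinRoot.root f with hb
  have hb2 : b ^ 2 = (d' : AdjoinRoot f) := by
    have h := AdjoinRoot.eval₂_root f
    have h' : eval₂ (AdjoinRoot.of f) (AdjoinRoot.root f) (X ^ 2 - C (d' : K)) = 0 := h
    rw [eval₂_sub, eval₂_pow, eval₂_X, eval₂_C, sub_eq_zero] at h'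
    exact h'.trans (map_natCast _ _)
  -- the second embedding
  have hβ' := not_rat_of hd' hd'1 hβ
  let pb : PowerBasis ℚ K' := ⟨β, 2, bas hK' hβ', by
    intro i
    fin_cases i
    · show bas hK' hβ' 0 = _
      rw [bas_zero]
      simp
    · show bas hK' hβ' 1 = _
      rw [bas_one]
      simp⟩
  have hmp : (X ^ 2 - C (d' : ℚ) : ℚ[X]) = minpoly ℚ pb.gen := by
    refine Polynomial.eq_of_monic_of_dvd_of_natDegree_le (minpoly.monic pb.isIntegral_gen)
      (monic_X_pow_sub_C _ (by norm_num)) ?_ ?_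
    · apply minpoly.dvd
      show aeval β _ = 0
      rw [map_sub, map_pow, aeval_X, aeval_C, hβ, map_natCast, sub_self]
    · rw [pb.natDegree_minpoly, natDegree_X_pow_sub_C]
  have hpb : aeval b (minpoly ℚ pb.gen) = 0 := by
    rw [← hmp, map_sub, map_pow, aeval_X, aeval_C, hb2, map_natCast, sub_self]
  let g : K' →ₐ[ℚ] AdjoinRoot f := pb.lift b hpb
  letI : Algebra K' (AdjoinRoot f) := g.toRingHom.toAlgebra
  have h4 : finrank ℚ (AdjoinRoot f) = 4 := by
    rw [← Module.finrank_mul_finrank ℚ K (AdjoinRoot f), hK, hrk]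
  refine ⟨AdjoinRoot f, inferInstance, hNF, inferInstance, inferInstance, hrk, ?_, h4, ?_, ?_⟩
  · have h5 := Module.finrank_mul_finrank ℚ K' (AdjoinRoot f)
    rw [hK', h4] at h5
    omega
  · intro x hx
    apply no_sqrt hK hd hd1 hd' hd'1 hne hα x
    apply (algebraMap K (AdjoinRoot f)).injective
    rw [map_pow, hx, ← map_pow, hβ, map_natCast, map_natCast]
  · intro x hx
    apply no_sqrt hK' hd' hd'1 hd hd1 hne.symm hβ x
    apply (algebraMap K' (AdjoinRoot f)).injective
    rw [map_pow, hx, ← map_pow, hα, map_natCast, map_natCast]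

end Pool.Agent.L0h75.GN
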