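import Pool.Agent.L0h75.GN.CT
import Mathlib.GroupTheory.FiniteAbelian.Duality

/-!
# The subgroup generated by the classes of the small primes contains all squares
-/

set_option autoImplicit false

namespace Pool.Agent.L0h75.GN

open NumberField Module Finset Filter Pool.Agent.H38R2.CG Pool.Agent.R345.IX Pool.Agent.R345.IY
open scoped Classical

/-- The subgroup of the class group generated by the classes of the prime ideals of norm at most `B`. -/
noncomputable def GenS (K : Type) [Field K] [NumberField K] (B : ℝ) : Subgroup (ClassGroup (𝓞 K)) :=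
  Subgroup.closure {c | ∃ P : nonZeroDivisors (Ideal (𝓞 K)), (P : Ideal (𝓞 K)).IsPrime ∧
    ((Ideal.absNorm (P : Ideal (𝓞 K)) : ℕ) : ℝ) ≤ B ∧ ClassGroup.mk0 P = c}

section
variable {K : Type} [Field K] [NumberField K]

open Classical in
/-- the character of the ideals attached to a character of the class group -/
noncomputable def psiOf (φ : ClassGroup (𝓞 K) →* ℂˣ) : Ideal (𝓞 K) →*₀ ℂ where
  toFun 𝔞 := if h : 𝔞 = ⊥ then 0 else
    ((φ (ClassGroup.mk0 ⟨𝔞, mem_nonZeroDivisors_of_ne_zero h⟩) : ℂˣ) : ℂ)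
  map_zero' := dif_pos rfl
  map_one' := by
    have h1 : (1 : Ideal (𝓞 K)) ≠ ⊥ := by
      rw [Ideal.one_eq_top]
      exact top_ne_bot
    rw [dif_neg h1]
    have h2 : (⟨1, mem_nonZeroDivisors_of_ne_zero h1⟩ : nonZeroDivisors (Ideal (𝓞 K))) = 1 := rfl
    rw [h2, map_one, map_one, Units.val_one]
  map_mul' 𝔞 𝔟 := by
    by_cases ha : 𝔞 = ⊥
    · rw [dif_pos ha, zero_mul, dif_pos]
      rw [ha, ← Ideal.zero_eq_bot, zero_mul]
    by_cases hb : 𝔟 = ⊥
    · rw [dif_pos hb, mul_zero, dif_pos]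
      rw [hb, ← Ideal.zero_eq_bot, mul_zero]
    have hab : 𝔞 * 𝔟 ≠ ⊥ := mul_ne_zero ha hb
    rw [dif_neg ha, dif_neg hb, dif_neg hab]
    have h2 : (⟨𝔞 * 𝔟, mem_nonZeroDivisors_of_ne_zero hab⟩ : nonZeroDivisors (Ideal (𝓞 K))) =
      ⟨𝔞, mem_nonZeroDivisors_of_ne_zero ha⟩ * ⟨𝔟, mem_nonZeroDivisors_of_ne_zero hb⟩ := rfl
    rw [h2, map_mul, map_mul, Units.val_mul]

lemma psiOf_apply (φ : ClassGroup (𝓞 K) →* ℂˣ) {𝔞 : Ideal (𝓞 K)} (h : 𝔞 ≠ ⊥) :
    psiOf φ 𝔞 = ((φ (ClassGroup.mk0 ⟨𝔞, mem_nonZeroDivisors_of_ne_zero h⟩) : ℂˣ) : ℂ) := dif_neg h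

lemma exists_dat (hK : finrank ℚ K = 2) {d : ℕ} (hx : ∃ x : K, x ^ 2 = (d : K)) {B : ℝ} {Y : ℕ}
    (hY : (Y : ℝ) ≤ B) {c : ClassGroup (𝓞 K)} (hc : c ^ 2 ∉ GenS K B) : Nonempty (Dat Y d) := by
  obtain ⟨x, hx⟩ := hx
  have hint : IsIntegral ℤ x := by
    have h1 : IsIntegral ℤ (x ^ 2) := by
      rw [hx]
      exact_mod_cast isIntegral_algebraMap (R := ℤ) (A := K) (x := (d : ℤ))
    exact IsIntegral.of_pow (by norm_num) h1
  set α : 𝓞 K := ⟨x, hint⟩ with hα
  have hα2 : α ^ 2 = (d : 𝓞 K) := by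
    apply RingOfIntegers.ext
    show algebraMap (𝓞 K) K (α ^ 2) = algebraMap (𝓞 K) K (d : 𝓞 K)
    rw [map_pow, map_natCast]
    exact hx
  set H := GenS K B with hH
  have hne : (QuotientGroup.mk (c ^ 2) : ClassGroup (𝓞 K) ⧸ H) ≠ 1 := by
    rw [Ne, QuotientGroup.eq_one_iff]
    exact hc
  obtain ⟨φ, hφ⟩ := CommGroup.exists_apply_ne_one_of_hasEnoughRootsOfUnity
    (ClassGroup (𝓞 K) ⧸ H) ℂ hne
  set θ : ClassGroup (𝓞 K) →* ℂˣ := φ.comp (QuotientGroup.mk' H) with hθ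
  have hθH : ∀ z ∈ H, θ z = 1 := by
    intro z hz
    rw [hθ, MonoidHom.comp_apply, QuotientGroup.mk'_apply, (QuotientGroup.eq_one_iff z).2 hz, map_one]
  refine ⟨⟨K, inferInstance, inferInstance, hK, α, hα2, psiOf θ, ?_, ?_, ?_⟩⟩
  · intro z hz
    have hzb : Ideal.span {z} ≠ (⊥ : Ideal (𝓞 K)) := by
      rw [Ne, Ideal.span_singleton_eq_bot]
      exact hz
    rw [psiOf_apply θ hzb, (ClassGroup.mk0_eq_one_iff _).2 ⟨z, rfl⟩, map_one, Units.val_one]
  · obtain ⟨𝔞, h𝔞⟩ := ClassGroup.mk0_surjective c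
    have hb : (𝔞 : Ideal (𝓞 K)) ≠ ⊥ := nonZeroDivisors.coe_ne_zero 𝔞
    refine ⟨𝔞, hb, ?_⟩
    have h1 : psiOf θ (𝔞 : Ideal (𝓞 K)) = ((θ c : ℂˣ) : ℂ) := by
      rw [psiOf_apply θ hb, ← h𝔞]
    rw [h1, ← Units.val_pow_eq_pow_val, ← map_pow]
    intro h2
    apply hφ
    have h3 : θ (c ^ 2) = 1 := Units.ext h2
    exact h3
  · intro 𝔭 hp hb hN
    rw [psiOf_apply θ hb, hθH, Units.val_one]
    refine Subgroup.subset_closure ⟨⟨𝔭, mem_nonZeroDivisors_of_ne_zero hb⟩, hp, ?_, rfl⟩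
    have : ((Ideal.absNorm 𝔭 : ℕ) : ℝ) ≤ Y := by exact_mod_cast hN
    exact this.trans hY

end

/-- few exceptional discriminants in a dyadic interval -/
theorem count_badG (a ε : ℝ) (ha : 16 ≤ a) (hε : 0 < ε) (hε1 : ε ≤ 1) :
    ∃ X0 : ℕ, ∀ X ≥ X0, (((Finset.Ioc X (2 * X)).filter (fun D => IsFund D ∧
      BadG a X D)).card : ℝ) ≤ 2 * (X : ℝ) ^ (40 / a + ε) := by
  classical
  have h_P_CC5 : P_CC5 := T_CC5 T_LS T_NB
  obtain ⟨C5, hC5, y0, hy0⟩ := low_card h_P_CC5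
  have ha0 : 0 < a := by linarith
  rw [← Filter.eventually_atTop]
  filter_upwards [ls_count a ε ha hε hε1, params_i a (by linarith) (ε / 2) (4 * C5)
    (by positivity) (by positivity), parG a ha 1 one_pos 0 y0] with X hls hXi hX
  obtain ⟨hX2, hy2, hyy0, -, -, -, -, -, -, -⟩ := hX
  obtain ⟨s1, s2, s3⟩ := hXi
  have hX1 : (1 : ℝ) ≤ X := by
    have : 1 ≤ X := by omega
    exact_mod_cast this
  have hlow := hy0 (yI a X) hyy0 (iJ a X) s1 X s2
  set F := (Finset.Ioc X (2 * X)).filter (fun D => IsFund D ∧ BadG a X D) with hF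
  set F1 := (Finset.Ioc X (2 * X)).filter (fun D => IsFund D ∧
      ∑ p ∈ PP (yI a X), (1 + ((jacobiSym (D : ℤ) p : ℤ) : ℝ)) <
        ((PP (yI a X)).card : ℝ) / 20) with hF1
  set F2 := F.filter (fun D : ℕ => ((PP (yI a X)).card : ℝ) / 20 ≤
    ∑ p ∈ PP (yI a X), (1 + ((jacobiSym (D : ℤ) p : ℤ) : ℝ))) with hF2
  have hsub : F ⊆ F1 ∪ F2 := by
    intro D hD
    rw [Finset.mem_union]
    by_cases h : ((PP (yI a X)).card : ℝ) / 20 ≤
      ∑ p ∈ PP (yI a X), (1 + ((jacobiSym (D : ℤ) p : ℤ) : ℝ))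
    · right
      rw [hF2, Finset.mem_filter]
      exact ⟨hD, h⟩
    · left
      rw [not_le] at h
      rw [hF, Finset.mem_filter] at hD
      rw [hF1, Finset.mem_filter]
      exact ⟨hD.1, hD.2.1, h⟩
  have h1 : (F.card : ℝ) ≤ F1.card + F2.card := by
    exact_mod_cast (Finset.card_le_card hsub).trans (Finset.card_union_le _ _)
  have h2 : (F2.card : ℝ) ≤ (X : ℝ) ^ (40 / a + ε) := by
    refine hls F2 fun D hD => ?_
    rw [hF2, Finset.mem_filter, hF, Finset.mem_filter, Finset.mem_Ioc] at hD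
    exact ⟨hD.1.1.1, hD.1.1.2, hD.1.2.2, hD.2⟩
  have h3 : (F1.card : ℝ) ≤ (X : ℝ) ^ (40 / a + ε) := by
    have h4 : (X : ℝ) ^ (2 / a + ε / 2) ≤ (X : ℝ) ^ (40 / a + ε) := by
      refine Real.rpow_le_rpow_of_exponent_le hX1 ?_
      have h5 : 2 / a ≤ 40 / a := div_le_div_of_nonneg_right (by norm_num) ha0.le
      linarith
    refine le_trans hlow (le_trans (le_of_eq ?_) (s3.trans h4))
    ring
  linarith

/-- the property of the radicand -/
def GoodG (a : ℝ) (d : ℕ) : Prop :=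
  ∀ (K : Type) [Field K] [NumberField K], Module.finrank ℚ K = 2 →
    (∃ x : K, x ^ 2 = (d : K)) → ∀ c : ClassGroup (𝓞 K), c ^ 2 ∈ GenS K ((Real.log d) ^ a)

/-- **Main theorem.** -/
theorem mainG (a : ℝ) (ha : 16 ≤ a) (ε : ℝ) (hε : 0 < ε) : ∃ C : ℝ, 0 < C ∧
    ∀ X : ℕ, (((Finset.Icc 2 X).filter (fun d => Squarefree d ∧
      ¬ GoodG a d)).card : ℝ) ≤ C * (X : ℝ) ^ (40 / a + ε) := by
  have ha0 : 0 < a := by linarith
  set ε' := min ε 1 with hε'
  have hε'0 : 0 < ε' := lt_min hε one_pos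
  have hε'1 : ε' ≤ 1 := min_le_right _ _
  have hε'ε : ε' ≤ ε := min_le_left _ _
  set κ : ℝ := 40 / a + ε' with hκ
  have hκ0 : 0 < κ := by positivity
  obtain ⟨X0, hX0⟩ := count_badG a ε' ha hε'0 hε'1
  obtain ⟨X1, hX1⟩ := Filter.eventually_atTop.1 (params a (by linarith) 1 1 one_pos le_rfl)
  -- a bad radicand gives a bad discriminant
  have key : ∀ d : ℕ, 1 < d → Squarefree d → ¬ GoodG a d → ∀ X : ℕ, X1 ≤ X → X ≤ 4 * d →
      d ≤ 2 * X → IsFund (Dof d) ∧ BadG a X (Dof d) := by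
    intro d hd hsq hbad X hXX1 hX4 hdX
    refine ⟨isFund_Dof hd hsq, d, hd, hsq, rfl, ?_⟩
    unfold GoodG at hbad
    push Not at hbad
    obtain ⟨K, i1, i2, h2, hx, c, hc⟩ := hbad
    obtain ⟨-, -, -, -, -, -, -, -, -, hfin⟩ := hX1 X hXX1
    obtain ⟨g1, -⟩ := hfin d (by
      have : (X : ℝ) ≤ 4 * d := by exact_mod_cast hX4
      linarith) (by exact_mod_cast hdX)
    refine exists_dat h2 hx (B := (Real.log d) ^ a) ?_ hc
    push_cast
    exact g1
  have hdy := dyadic2 (fun S => (S.filter (fun d => Squarefree d ∧ ¬ GoodG a d)).card)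
    (fun d => Squarefree d ∧ ¬ GoodG a d) (fun S => by congr) κ (2 * (1 + 4 ^ κ)) hκ0
    (by positivity) (max (max X0 X1) 1) (by
      intro Y hY
      have hY0 : X0 ≤ Y := le_trans (le_trans (le_max_left _ _) (le_max_left _ _)) hY
      have hY1 : X1 ≤ Y := le_trans (le_trans (le_max_right _ _) (le_max_left _ _)) hY
      have hY3 : 1 ≤ Y := le_trans (le_max_right _ _) hY
      have hYr : (0 : ℝ) < Y := by exact_mod_cast hY3
      set S := (Finset.Ioc Y (2 * Y)).filter (fun d => Squarefree d ∧ ¬ GoodG a d) with hS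
      set A := (Finset.Ioc Y (2 * Y)).filter (fun D => IsFund D ∧ BadG a Y D) with hA
      set B := (Finset.Ioc (4 * Y) (2 * (4 * Y))).filter
        (fun D => IsFund D ∧ BadG a (4 * Y) D) with hB
      have hA' := hX0 Y hY0
      have hB' := hX0 (4 * Y) (by omega)
      have hinj : S.card ≤ (A ∪ B).card := by
        refine Finset.card_le_card_of_injOn Dof ?_ ?_
        · intro d hd
          rw [Finset.mem_coe] at hd ⊢
          obtain ⟨h1, h2, h3⟩ := Finset.mem_filter.1 hd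
          obtain ⟨h4, h5⟩ := Finset.mem_Ioc.1 h1
          rw [Finset.mem_union]
          by_cases h : d % 4 = 1
          · left
            have hDof : Dof d = d := by unfold Dof; rw [if_pos h]
            have hk := key d (by omega) h2 h3 Y hY1 (by omega) (by omega)
            rw [hA, Finset.mem_filter, Finset.mem_Ioc]
            exact ⟨by rw [hDof]; exact ⟨h4, h5⟩, hk⟩
          · right
            have hDof : Dof d = 4 * d := by unfold Dof; rw [if_neg h]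
            have hk := key d (by omega) h2 h3 (4 * Y) (by omega) (by omega) (by omega)
            rw [hB, Finset.mem_filter, Finset.mem_Ioc]
            exact ⟨by rw [hDof]; omega, hk⟩
        · intro d _ d' _ hdd
          unfold Dof at hdd
          split_ifs at hdd <;> omega
      have h1 : (S.card : ℝ) ≤ A.card + B.card := by
        exact_mod_cast hinj.trans (Finset.card_union_le _ _)
      have h4Y : (((4 * Y : ℕ) : ℝ)) ^ κ = 4 ^ κ * (Y : ℝ) ^ κ := by
        push_cast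
        rw [Real.mul_rpow (by norm_num) hYr.le]
      show ((S.card : ℕ) : ℝ) ≤ 2 * (1 + 4 ^ κ) * (Y : ℝ) ^ κ
      rw [h4Y] at hB'
      linarith)
  obtain ⟨C, hC, hfin⟩ := hdy
  refine ⟨C, hC, fun X => ?_⟩
  rcases Nat.eq_zero_or_pos X with h0 | h0
  · subst h0
    have h1 := hfin 0
    have h2 : ((0 : ℕ) : ℝ) ^ κ = 0 := by
      rw [Nat.cast_zero]
      exact Real.zero_rpow hκ0.ne'
    rw [h2, mul_zero] at h1
    refine h1.trans ?_
    positivity
  · refine (hfin X).trans ?_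
    have hXr : (1 : ℝ) ≤ X := by exact_mod_cast h0
    have : (X : ℝ) ^ κ ≤ (X : ℝ) ^ (40 / a + ε) :=
      Real.rpow_le_rpow_of_exponent_le hXr (by linarith)
    gcongr

end Pool.Agent.L0h75.GN
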