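import Pool.Agent.L0h75.GN.Rel

/-!
# Primes of degree one of a biquadratic field
-/

set_option autoImplicit false

open NumberField Module

namespace Pool.Agent.L0h75.GN

lemma hom_eq_of_ker {R : Type} [CommRing R] {p : ℕ} {f g : R →+* ZMod p}
    (h : RingHom.ker f = RingHom.ker g) : f = g := by
  ext x
  obtain ⟨n, hn⟩ := ZMod.intCast_surjective (f x)
  have h1 : x - (n : R) ∈ RingHom.ker f := by
    rw [RingHom.mem_ker, map_sub, map_intCast, hn, sub_self]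
  rw [h, RingHom.mem_ker, map_sub, map_intCast, sub_eq_zero] at h1
  rw [h1, hn]

section one

variable {F : Type} [Field F] [NumberField F]

/-- the ideals of norm `n` -/
noncomputable def NS (F : Type) [Field F] [NumberField F] (n : ℕ) : Finset (Ideal (𝓞 F)) :=
  (Ideal.finite_setOfPred_absNorm_eq (S := 𝓞 F) n).toFinset

lemma mem_NS {n : ℕ} {𝔞 : Ideal (𝓞 F)} : 𝔞 ∈ NS F n ↔ Ideal.absNorm 𝔞 = n := by
  unfold NS
  rw [Set.Finite.mem_toFinset]
  rfl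

lemma exists_hom {p : ℕ} (hp : p.Prime) {𝔭 : Ideal (𝓞 F)} (h : Ideal.absNorm 𝔭 = p) :
    ∃ f : 𝓞 F →+* ZMod p, RingHom.ker f = 𝔭 := by
  have h1 : Nat.card (𝓞 F ⧸ 𝔭) = p := by
    rw [← h, Ideal.absNorm_apply]
    rfl
  have hfin : Finite (𝓞 F ⧸ 𝔭) := Nat.finite_of_card_ne_zero (by rw [h1]; exact hp.ne_zero)
  have : Fintype (𝓞 F ⧸ 𝔭) := Fintype.ofFinite _
  have h2 : Fintype.card (𝓞 F ⧸ 𝔭) = p := by rw [← Nat.card_eq_fintype_card, h1]
  refine ⟨((ZMod.ringEquivOfPrime (𝓞 F ⧸ 𝔭) hp h2).symm : 𝓞 F ⧸ 𝔭 →+* ZMod p).comp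
    (Ideal.Quotient.mk 𝔭), ?_⟩
  ext x
  rw [RingHom.mem_ker, RingHom.comp_apply]
  constructor
  · intro h3
    have h4 : Ideal.Quotient.mk 𝔭 x = 0 :=
      (ZMod.ringEquivOfPrime (𝓞 F ⧸ 𝔭) hp h2).symm.injective (h3.trans (map_zero _).symm)
    exact Ideal.Quotient.eq_zero_iff_mem.1 h4
  · intro h3
    rw [Ideal.Quotient.eq_zero_iff_mem.2 h3, map_zero]

lemma norm_ker {p : ℕ} (f : 𝓞 F →+* ZMod p) : Ideal.absNorm (RingHom.ker f) = p := by
  rw [Ideal.absNorm_apply]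
  have h1 := Nat.card_congr (RingHom.quotientKerEquivOfSurjective (ZMod.ringHom_surjective f)).toEquiv
  rw [Nat.card_zmod] at h1
  exact h1

lemma prime_of_norm {p : ℕ} (hp : p.Prime) {𝔭 : Ideal (𝓞 F)} (h : Ideal.absNorm 𝔭 = p) :
    𝔭.IsMaximal := by
  obtain ⟨f, rfl⟩ := exists_hom hp h
  have : Fact p.Prime := ⟨hp⟩
  exact RingHom.ker_isMaximal_of_surjective f (ZMod.ringHom_surjective f)

end one

variable {K K' L : Type} [Field K] [NumberField K] [Field K'] [NumberField K'] [Field L]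
  [NumberField L] [Algebra K L] [Algebra K' L]

/-- the relative norm of a prime of degree one -/
lemma relNorm_ker {p : ℕ} (hp : p.Prime) (g : 𝓞 L →+* ZMod p) :
    Ideal.relNorm (𝓞 K) (RingHom.ker g) = RingHom.ker (g.comp (algebraMap (𝓞 K) (𝓞 L))) := by
  have h1 : Ideal.absNorm (Ideal.relNorm (𝓞 K) (RingHom.ker g)) = p := by
    rw [Ideal.absNorm_relNorm, norm_ker]
  have h2 := prime_of_norm hp h1
  have h3 : Ideal.relNorm (𝓞 K) (RingHom.ker g) ≤ RingHom.ker (g.comp (algebraMap (𝓞 K) (𝓞 L))) := by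
    refine (Ideal.relNorm_le_comap (R := 𝓞 K) (RingHom.ker g)).trans ?_
    intro x hx
    exact hx
  have h4 := prime_of_norm hp (norm_ker (g.comp (algebraMap (𝓞 K) (𝓞 L))))
  exact h2.eq_of_le h4.ne_top h3

/-- a homomorphism to the prime field is determined by its values on `𝓞 K` and at `β` -/
lemma hom_unique {p : ℕ} (hp : p.Prime) (hL : finrank K L = 2) {β : 𝓞 L} {c : ℤ}
    (hβ : β ^ 2 = (c : 𝓞 L)) (hβ' : ∀ x : K, algebraMap K L x ≠ (β : L))
    (hc : ((2 * c : ℤ) : ZMod p) ≠ 0) {g h : 𝓞 L →+* ZMod p}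
    (h1 : g.comp (algebraMap (𝓞 K) (𝓞 L)) = h.comp (algebraMap (𝓞 K) (𝓞 L)))
    (h2 : g β = h β) : g = h := by
  have : Fact p.Prime := ⟨hp⟩
  ext x
  obtain ⟨r, s, hrs⟩ := int_coord hL hβ hβ' x
  have e1 := congrArg g hrs
  have e2 := congrArg h hrs
  have e3 : ∀ y, g (algebraMap (𝓞 K) (𝓞 L) y) = h (algebraMap (𝓞 K) (𝓞 L) y) := fun y =>
    RingHom.congr_fun h1 y
  simp only [map_mul, map_add, map_ofNat, map_intCast] at e1 e2
  rw [e3, e3, h2, ← e2] at e1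
  have hc' : (2 * (c : ZMod p)) ≠ 0 := by
    push_cast at hc
    exact hc
  exact mul_left_cancel₀ hc' e1

lemma hom_uniqueQ {p : ℕ} (hp : p.Prime) (hK' : finrank ℚ K' = 2) {β : 𝓞 K'} {c : ℤ}
    (hβ : β ^ 2 = (c : 𝓞 K')) (hβ' : ∀ x : ℚ, algebraMap ℚ K' x ≠ (β : K'))
    (hc : ((2 * c : ℤ) : ZMod p) ≠ 0) {g h : 𝓞 K' →+* ZMod p} (h2 : g β = h β) : g = h := by
  have : Fact p.Prime := ⟨hp⟩
  ext x
  obtain ⟨r, s, hrs⟩ := int_coordQ hK' hβ hβ' x
  have e1 := congrArg g hrs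
  have e2 := congrArg h hrs
  simp only [map_mul, map_add, map_ofNat, map_intCast] at e1 e2
  rw [h2, ← e2] at e1
  have hc' : (2 * (c : ZMod p)) ≠ 0 := by
    push_cast at hc
    exact hc
  exact mul_left_cancel₀ hc' e1

/-- existence of the homomorphism -/
lemma exists_ext {p : ℕ} (hp : p.Prime) (hL : finrank K L = 2) {β : 𝓞 L} {c : ℤ}
    (hβ : β ^ 2 = (c : 𝓞 L)) (hβ' : ∀ x : K, algebraMap K L x ≠ (β : L))
    (hc : ((2 * c : ℤ) : ZMod p) ≠ 0) (f : 𝓞 K →+* ZMod p) {t : ZMod p}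
    (ht : t ^ 2 = (c : ZMod p)) :
    ∃ g : 𝓞 L →+* ZMod p, g.comp (algebraMap (𝓞 K) (𝓞 L)) = f ∧ g β = t := by
  have : Fact p.Prime := ⟨hp⟩
  have hc' : (2 * (c : ZMod p)) ≠ 0 := by
    push_cast at hc
    exact hc
  choose r s hrs using fun x : 𝓞 L => int_coord hL hβ hβ' x
  set ι := algebraMap (𝓞 K) (𝓞 L) with hι
  have hu : ∀ {a b a' b' : 𝓞 K}, ι a + ι b * β = ι a' + ι b' * β → a = a' ∧ b = b' := fun h =>
    int_unique hβ' h
  -- the values of the coordinates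
  have hadd : ∀ x y, r (x + y) = r x + r y ∧ s (x + y) = s x + s y := by
    intro x y
    apply hu
    rw [← hrs, map_add, map_add]
    linear_combination hrs x + hrs y
  have hmul : ∀ x y, (2 * c : 𝓞 K) * r (x * y) = r x * r y + s x * s y * c ∧
      (2 * c : 𝓞 K) * s (x * y) = r x * s y + s x * r y := by
    intro x y
    apply hu
    simp only [map_mul, map_add, map_ofNat, map_intCast]
    have e := hrs (x * y)
    have e1 := hrs x
    have e2 := hrs y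
    linear_combination (-(2 * c : 𝓞 L)) * e + (2 * (c : 𝓞 L) * y) * e1 +
      (ι (r x) + ι (s x) * β) * e2 + ι (s x) * ι (s y) * hβ
  have hK : ∀ y : 𝓞 K, r (ι y) = 2 * c * y ∧ s (ι y) = 0 := by
    intro y
    apply hu
    rw [← hrs]
    simp only [map_mul, map_ofNat, map_intCast, map_zero, zero_mul, add_zero]
  have hb : r β = 0 ∧ s β = 2 * c := by
    apply hu
    rw [← hrs]
    simp only [map_mul, map_ofNat, map_intCast, map_zero, zero_add]
  set G : 𝓞 L → ZMod p := fun x => (2 * (c : ZMod p))⁻¹ * (f (r x) + f (s x) * t) with hG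
  have hfc : f (2 * (c : 𝓞 K)) = 2 * (c : ZMod p) := by
    rw [map_mul, map_ofNat, map_intCast]
  have h1 : G 1 = 1 := by
    have h2 := hK 1
    rw [map_one, mul_one] at h2
    simp only [hG]
    rw [h2.1, h2.2, hfc, map_zero, zero_mul, add_zero, inv_mul_cancel₀ hc']
  have h0 : G 0 = 0 := by
    have h2 := hK 0
    rw [map_zero, mul_zero] at h2
    simp only [hG]
    rw [h2.1, h2.2, map_zero, zero_mul, add_zero, mul_zero]
  have hGa : ∀ x y, G (x + y) = G x + G y := by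
    intro x y
    simp only [hG]
    rw [(hadd x y).1, (hadd x y).2, map_add, map_add]
    ring
  have hGm : ∀ x y, G (x * y) = G x * G y := by
    intro x y
    simp only [hG]
    have e1 := congrArg f (hmul x y).1
    have e2 := congrArg f (hmul x y).2
    simp only [map_mul, map_add, map_ofNat, map_intCast] at e1 e2
    have e3 : (2 * (c : ZMod p)) * (f (r (x * y)) + f (s (x * y)) * t) =
        (f (r x) + f (s x) * t) * (f (r y) + f (s y) * t) := by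
      linear_combination e1 + t * e2 - f (s x) * f (s y) * ht
    have e4 : (2 * (c : ZMod p))⁻¹ * (2 * (c : ZMod p)) = 1 := inv_mul_cancel₀ hc'
    calc (2 * (c : ZMod p))⁻¹ * (f (r (x * y)) + f (s (x * y)) * t) =
        (2 * (c : ZMod p))⁻¹ * ((2 * (c : ZMod p))⁻¹ * ((2 * (c : ZMod p)) *
          (f (r (x * y)) + f (s (x * y)) * t))) := by
          rw [← mul_assoc ((2 * (c : ZMod p))⁻¹) (2 * (c : ZMod p)), e4, one_mul]
      _ = _ := by rw [e3]; ring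
  refine ⟨⟨⟨⟨G, h1⟩, hGm⟩, h0, hGa⟩, ?_, ?_⟩
  · ext y
    show G (ι y) = f y
    simp only [hG]
    rw [(hK y).1, (hK y).2, map_zero, zero_mul, add_zero, map_mul, hfc, ← mul_assoc,
      inv_mul_cancel₀ hc', one_mul]
  · show G β = t
    simp only [hG]
    rw [hb.1, hb.2, hfc, map_zero, zero_add, ← mul_assoc, inv_mul_cancel₀ hc', one_mul]

/-- **the coefficients at the primes** -/
theorem sum_prime {p : ℕ} (hp : p.Prime) (hK' : finrank ℚ K' = 2) (hL : finrank K L = 2)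
    {β : 𝓞 K'} {c : ℤ} (hβ : β ^ 2 = (c : 𝓞 K'))
    (hβ' : ∀ x : K, algebraMap K L x ≠ algebraMap K' L (β : K'))
    (hc : ((2 * c : ℤ) : ZMod p) ≠ 0)
    (ψ : Ideal (𝓞 K) →*₀ ℂ) (ψ' : Ideal (𝓞 K') →*₀ ℂ) :
    ∑ 𝔓 ∈ NS L p, chi L ψ ψ' 𝔓 = (∑ 𝔭 ∈ NS K p, ψ 𝔭) * ∑ 𝔭' ∈ NS K' p, ψ' 𝔭' := by
  classical
  have hβL : (algebraMap (𝓞 K') (𝓞 L) β) ^ 2 = (c : 𝓞 L) := by
    rw [← map_pow, hβ, map_intCast]
  have hβL' : ∀ x : K, algebraMap K L x ≠ ((algebraMap (𝓞 K') (𝓞 L) β : 𝓞 L) : L) := hβ'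
  have hβQ : ∀ x : ℚ, algebraMap ℚ K' x ≠ (β : K') := fun q => not_rat hβ' q
  rw [Finset.sum_mul_sum, ← Finset.sum_product']
  refine Finset.sum_bij (fun 𝔓 _ => (Ideal.relNorm (𝓞 K) 𝔓, Ideal.relNorm (𝓞 K') 𝔓)) ?_ ?_ ?_ ?_
  · intro 𝔓 h
    rw [mem_NS] at h
    rw [Finset.mem_product, mem_NS, mem_NS, Ideal.absNorm_relNorm, Ideal.absNorm_relNorm]
    exact ⟨h, h⟩
  · intro 𝔓 h 𝔔 h' heq
    rw [mem_NS] at h h'
    obtain ⟨g, rfl⟩ := exists_hom hp h
    obtain ⟨g', rfl⟩ := exists_hom hp h'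
    rw [Prod.mk.injEq, relNorm_ker hp, relNorm_ker hp, relNorm_ker hp, relNorm_ker hp] at heq
    have h1 := hom_eq_of_ker heq.1
    have h2 := hom_eq_of_ker heq.2
    have h3 : g (algebraMap (𝓞 K') (𝓞 L) β) = g' (algebraMap (𝓞 K') (𝓞 L) β) :=
      RingHom.congr_fun h2 β
    rw [hom_unique hp hL hβL hβL' hc h1 h3]
  · rintro ⟨𝔭, 𝔭'⟩ h
    rw [Finset.mem_product, mem_NS, mem_NS] at h
    obtain ⟨f, hf⟩ := exists_hom hp h.1
    obtain ⟨f', hf'⟩ := exists_hom hp h.2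
    have ht : (f' β) ^ 2 = (c : ZMod p) := by
      rw [← map_pow, hβ, map_intCast]
    obtain ⟨g, hg1, hg2⟩ := exists_ext hp hL hβL hβL' hc f ht
    have hg3 : g.comp (algebraMap (𝓞 K') (𝓞 L)) = f' := by
      apply hom_uniqueQ hp hK' hβ hβQ hc
      rw [RingHom.comp_apply, hg2]
    refine ⟨RingHom.ker g, by rw [mem_NS, norm_ker], ?_⟩
    rw [relNorm_ker hp, relNorm_ker hp, hg1, hg3, hf, hf']
  · intro 𝔓 _
    rfl

end Pool.Agent.L0h75.GN
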