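import Pool.Agent.L0h75.GN.Off
import Pool.Agent.H38R2.CG.Defs

/-!
# The large sieve inequality
-/

set_option autoImplicit false

open NumberField Module Finset

namespace Pool.Agent.L0h75.GN

open Pool.Agent.H38R2.CG (PP prodS)
open Pool.Agent.TH847.LG Pool.Agent.TH847.LS

section
variable {K : Type} [Field K] [NumberField K]

/-- the complex conjugate character -/
noncomputable def cj (ψ : Ideal (𝓞 K) →*₀ ℂ) : Ideal (𝓞 K) →*₀ ℂ where
  toFun 𝔞 := (starRingEnd ℂ) (ψ 𝔞)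
  map_zero' := by rw [map_zero, map_zero]
  map_one' := by rw [map_one, map_one]
  map_mul' 𝔞 𝔟 := by rw [map_mul, map_mul]

lemma cj_apply (ψ : Ideal (𝓞 K) →*₀ ℂ) (𝔞 : Ideal (𝓞 K)) : cj ψ 𝔞 = (starRingEnd ℂ) (ψ 𝔞) := rfl

lemma CC.cj {ψ : Ideal (𝓞 K) →*₀ ℂ} (h : CC ψ) : CC (cj ψ) := by
  intro x hx
  rw [cj_apply, h x hx, map_one]

lemma lam_cj (ψ : Ideal (𝓞 K) →*₀ ℂ) (p : ℕ) : lam (cj ψ) p = (starRingEnd ℂ) (lam ψ p) := by
  unfold lam
  rw [map_sum]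
  rfl

lemma vv_cj (q : ℕ) (ψ : Ideal (𝓞 K) →*₀ ℂ) (n : ℕ) :
    vv q (cj ψ) n = (starRingEnd ℂ) (vv q ψ n) := by
  classical
  unfold vv
  split_ifs
  · rw [map_prod]
    exact prod_congr rfl fun p _ => lam_cj ψ p
  · rw [map_zero]

lemma card_NS_le (hK : finrank ℚ K = 2) {p : ℕ} (hp : p.Prime) : (NS K p).card ≤ 2 := by
  classical
  refine le_trans (card_le_card ?_) (Pool.Agent.TH847.LG.card_fiber (K := K) hK p p)
  intro 𝔭 h
  have h1 := mem_NS.1 h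
  rw [mem_filter, mem_PI]
  have hb : 𝔭 ≠ ⊥ := by
    rintro rfl
    rw [Ideal.absNorm_bot] at h1
    exact hp.ne_zero h1.symm
  refine ⟨⟨⟨h1.le, hb⟩, (prime_of_norm hp h1).isPrime⟩, ?_⟩
  rw [h1]
  exact hp.minFac_eq

lemma norm_lam_le (hK : finrank ℚ K = 2) {ψ : Ideal (𝓞 K) →*₀ ℂ} (hψ : ∀ 𝔞, ‖ψ 𝔞‖ ≤ 1) {p : ℕ}
    (hp : p.Prime) : ‖lam ψ p‖ ≤ 2 := by
  unfold lam
  calc ‖∑ 𝔭 ∈ NS K p, ψ 𝔭‖ ≤ ∑ 𝔭 ∈ NS K p, (1 : ℝ) := norm_sum_le_of_le _ fun 𝔭 _ => hψ 𝔭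
    _ = (NS K p).card := by rw [sum_const, nsmul_eq_mul, mul_one]
    _ ≤ 2 := by exact_mod_cast card_NS_le hK hp

lemma norm_vv_le (hK : finrank ℚ K = 2) {ψ : Ideal (𝓞 K) →*₀ ℂ} (hψ : ∀ 𝔞, ‖ψ 𝔞‖ ≤ 1) (q n : ℕ) :
    ‖vv q ψ n‖ ≤ n.divisors.card := by
  classical
  unfold vv
  split_ifs with h
  · rw [norm_prod]
    calc ∏ p ∈ n.primeFactors, ‖lam ψ p‖ ≤ ∏ p ∈ n.primeFactors, (2 : ℝ) :=
          prod_le_prod (fun _ _ => norm_nonneg _)
            fun p hp => norm_lam_le hK hψ (Nat.prime_of_mem_primeFactors hp)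
      _ = ((2 ^ n.primeFactors.card : ℕ) : ℝ) := by rw [prod_const]; push_cast; rfl
      _ ≤ _ := by exact_mod_cast two_pow_omega n h.1.ne_zero
  · rw [norm_zero]
    exact Nat.cast_nonneg _

end

/-! ### The diagonal -/

lemma wn_le' (c l : ℝ) {n : ℕ} (hn : n ≠ 0) :
    wn l n ≤ Real.exp (c * l + c ^ 2) * (n : ℝ) ^ (-c) := by
  have hn0 : (0 : ℝ) < n := by exact_mod_cast Nat.pos_of_ne_zero hn
  unfold wn
  rw [Real.rpow_def_of_pos hn0, ← Real.exp_add]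
  apply Real.exp_le_exp.2
  nlinarith [sq_nonneg ((l - Real.log n) / 2 + c)]

lemma diag_sum (η : ℝ) (hη : 0 < η) : ∃ C : ℝ, 0 < C ∧ ∀ l : ℝ,
    Summable (fun n : ℕ => (n.divisors.card : ℝ) ^ 2 * wn l n) ∧
      ∑' n : ℕ, (n.divisors.card : ℝ) ^ 2 * wn l n ≤ C * Real.exp ((1 + η) * l) := by
  obtain ⟨B, hB0, hB⟩ := H353.divisor_bound_real (η / 4) (by positivity)
  have hs : Summable fun n : ℕ => (n : ℝ) ^ (-(1 + η / 2) : ℝ) := by
    rw [Real.summable_nat_rpow]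
    linarith
  set Z := ∑' n : ℕ, (n : ℝ) ^ (-(1 + η / 2) : ℝ) with hZ
  have hZ0 : 0 ≤ Z := tsum_nonneg fun n => by positivity
  refine ⟨B ^ 2 * Real.exp ((1 + η) ^ 2) * (Z + 1), by positivity, fun l => ?_⟩
  have h1 : ∀ n : ℕ, (n.divisors.card : ℝ) ^ 2 * wn l n ≤
      (B ^ 2 * Real.exp ((1 + η) ^ 2) * Real.exp ((1 + η) * l)) * (n : ℝ) ^ (-(1 + η / 2) : ℝ) := by
    intro n
    rcases eq_or_ne n 0 with rfl | hn
    · rw [Nat.divisors_zero, card_empty, Nat.cast_zero, zero_pow (by norm_num), zero_mul]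
      positivity
    have hn0 : (0 : ℝ) < n := by exact_mod_cast Nat.pos_of_ne_zero hn
    calc (n.divisors.card : ℝ) ^ 2 * wn l n ≤ (B * (n : ℝ) ^ (η / 4)) ^ 2 *
          (Real.exp ((1 + η) * l + (1 + η) ^ 2) * (n : ℝ) ^ (-(1 + η))) := by
          refine mul_le_mul (pow_le_pow_left₀ (Nat.cast_nonneg _) (hB n hn) 2) (wn_le' _ _ hn)
            (wn_pos _ _).le (by positivity)
      _ = (B ^ 2 * Real.exp ((1 + η) ^ 2) * Real.exp ((1 + η) * l)) *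
          (((n : ℝ) ^ (η / 4)) ^ 2 * (n : ℝ) ^ (-(1 + η))) := by
          rw [Real.exp_add]
          ring
      _ = _ := by
          congr 1
          rw [← Real.rpow_natCast ((n : ℝ) ^ (η / 4)), ← Real.rpow_mul hn0.le, ← Real.rpow_add hn0]
          congr 1
          push_cast
          ring
  have hs1 : Summable (fun n : ℕ => (n.divisors.card : ℝ) ^ 2 * wn l n) :=
    Summable.of_nonneg_of_le (fun n => mul_nonneg (by positivity) (wn_pos _ _).le) h1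
      (hs.mul_left _)
  refine ⟨hs1, (hs1.tsum_le_tsum h1 (hs.mul_left _)).trans ?_⟩
  rw [tsum_mul_left, ← hZ]
  have h3 : 0 ≤ B ^ 2 * Real.exp ((1 + η) ^ 2) * Real.exp ((1 + η) * l) := by positivity
  calc B ^ 2 * Real.exp ((1 + η) ^ 2) * Real.exp ((1 + η) * l) * Z ≤
        B ^ 2 * Real.exp ((1 + η) ^ 2) * Real.exp ((1 + η) * l) * (Z + 1) :=
        mul_le_mul_of_nonneg_left (by linarith) h3
    _ = _ := by ring

/-! ### The duality argument -/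

theorem large_sieve {ι : Type} [DecidableEq ι] (S : Finset ι) (v : ι → ℕ → ℂ) (g W : ℕ → ℝ)
    (hW : ∀ n, 0 ≤ W n) (hg : ∀ n, 0 ≤ g n) (hv : ∀ i ∈ S, ∀ n, ‖v i n‖ ≤ g n)
    (hs : Summable fun n => g n ^ 2 * W n) (N : Finset ℕ) {w : ℝ} (hw : 0 < w)
    (hWN : ∀ n ∈ N, w ≤ W n) {Λ D O : ℝ} (hΛ : 0 ≤ Λ)
    (hL : ∀ i ∈ S, Λ ≤ (∑ n ∈ N, v i n).re) (hD : ∑' n, g n ^ 2 * W n ≤ D) (hO0 : 0 ≤ O)
    (hO : ∀ i ∈ S, ∀ j ∈ S, i ≠ j → ‖∑' n, v i n * (starRingEnd ℂ) (v j n) * (W n : ℂ)‖ ≤ O) :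
    (S.card * Λ) ^ 2 ≤ (N.card / w) * (S.card * D + S.card ^ 2 * O) := by
  set Z : ℕ → ℂ := fun n => ∑ i ∈ S, v i n with hZ
  have hterm : ∀ i ∈ S, ∀ j ∈ S, ∀ n, ‖v i n * (starRingEnd ℂ) (v j n) * (W n : ℂ)‖ ≤
      g n ^ 2 * W n := by
    intro i hi j hj n
    rw [norm_mul, norm_mul, RCLike.norm_conj, Complex.norm_real, Real.norm_of_nonneg (hW n), pow_two]
    exact mul_le_mul_of_nonneg_right (mul_le_mul (hv i hi n) (hv j hj n) (norm_nonneg _) (hg n)) (hW n)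
  have hsum : ∀ i ∈ S, ∀ j ∈ S, Summable fun n => v i n * (starRingEnd ℂ) (v j n) * (W n : ℂ) :=
    fun i hi j hj => Summable.of_norm_bounded hs (hterm i hi j hj)
  have hD0 : 0 ≤ D := le_trans (tsum_nonneg fun n => mul_nonneg (sq_nonneg _) (hW n)) hD
  -- the quadratic form
  have hZZ : ∀ n, ((‖Z n‖ ^ 2 * W n : ℝ) : ℂ) =
      ∑ i ∈ S, ∑ j ∈ S, v i n * (starRingEnd ℂ) (v j n) * (W n : ℂ) := by
    intro n
    have h1 : ((‖Z n‖ ^ 2 : ℝ) : ℂ) = Z n * (starRingEnd ℂ) (Z n) := by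
      rw [Complex.mul_conj, Complex.normSq_eq_norm_sq]
    rw [Complex.ofReal_mul, h1, hZ]
    simp only
    rw [map_sum, sum_mul_sum, sum_mul]
    refine sum_congr rfl fun i _ => ?_
    rw [sum_mul]
  have hsZ : Summable fun n => ((‖Z n‖ ^ 2 * W n : ℝ) : ℂ) := by
    simp_rw [hZZ]
    exact summable_sum fun i hi => summable_sum fun j hj => hsum i hi j hj
  have hsZr : Summable fun n => ‖Z n‖ ^ 2 * W n := Complex.summable_ofReal.1 hsZ
  have hquad : ∑' n, ‖Z n‖ ^ 2 * W n ≤ S.card * D + S.card ^ 2 * O := by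
    have h1 : ((∑' n, ‖Z n‖ ^ 2 * W n : ℝ) : ℂ) =
        ∑ i ∈ S, ∑ j ∈ S, ∑' n, v i n * (starRingEnd ℂ) (v j n) * (W n : ℂ) := by
      rw [Complex.ofReal_tsum]
      simp_rw [hZZ]
      rw [Summable.tsum_finsetSum fun i hi => summable_sum fun j hj => hsum i hi j hj]
      refine sum_congr rfl fun i hi => ?_
      rw [Summable.tsum_finsetSum fun j hj => hsum i hi j hj]
    have h2 : ∑' n, ‖Z n‖ ^ 2 * W n =
        ‖((∑' n, ‖Z n‖ ^ 2 * W n : ℝ) : ℂ)‖ := by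
      rw [Complex.norm_real, Real.norm_of_nonneg]
      exact tsum_nonneg fun n => mul_nonneg (sq_nonneg _) (hW n)
    rw [h2, h1]
    calc ‖∑ i ∈ S, ∑ j ∈ S, ∑' n, v i n * (starRingEnd ℂ) (v j n) * (W n : ℂ)‖ ≤
        ∑ i ∈ S, ∑ j ∈ S, ((if i = j then D else 0) + O) := by
          refine norm_sum_le_of_le _ fun i hi => norm_sum_le_of_le _ fun j hj => ?_
          split_ifs with hij
          · have h3 := tsum_of_norm_bounded hs.hasSum (hterm i hi j hj)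
            linarith
          · rw [zero_add]
            exact hO i hi j hj hij
      _ = S.card * D + S.card ^ 2 * O := by
          have h3 : ∀ i ∈ S, ∑ j ∈ S, ((if i = j then D else 0) + O) = D + S.card * O := by
            intro i hi
            rw [sum_add_distrib, sum_ite_eq, if_pos hi, sum_const, nsmul_eq_mul]
          rw [sum_congr rfl h3, sum_const, nsmul_eq_mul]
          ring
  -- the lower bound
  have hlow : (S.card : ℝ) * Λ ≤ ∑ n ∈ N, ‖Z n‖ := by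
    calc (S.card : ℝ) * Λ = ∑ i ∈ S, Λ := by rw [sum_const, nsmul_eq_mul]
      _ ≤ ∑ i ∈ S, (∑ n ∈ N, v i n).re := sum_le_sum hL
      _ = (∑ n ∈ N, Z n).re := by
          rw [← Complex.re_sum, hZ, sum_comm]
      _ ≤ ‖∑ n ∈ N, Z n‖ := Complex.re_le_norm _
      _ ≤ _ := norm_sum_le _ _
  have hcs : (∑ n ∈ N, ‖Z n‖) ^ 2 ≤ N.card * ∑ n ∈ N, ‖Z n‖ ^ 2 := sq_sum_le_card_mul_sum_sq
  have hpos : 0 ≤ (S.card : ℝ) * Λ := by positivity
  calc (S.card * Λ) ^ 2 ≤ (∑ n ∈ N, ‖Z n‖) ^ 2 := pow_le_pow_left₀ hpos hlow 2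
    _ ≤ N.card * ∑ n ∈ N, ‖Z n‖ ^ 2 := hcs
    _ ≤ N.card * ∑ n ∈ N, (1 / w) * (‖Z n‖ ^ 2 * W n) := by
        refine mul_le_mul_of_nonneg_left (sum_le_sum fun n hn => ?_) (Nat.cast_nonneg _)
        have h1 := hWN n hn
        have h2 : 1 ≤ W n / w := by rwa [one_le_div hw]
        calc ‖Z n‖ ^ 2 = ‖Z n‖ ^ 2 * 1 := (mul_one _).symm
          _ ≤ ‖Z n‖ ^ 2 * (W n / w) := mul_le_mul_of_nonneg_left h2 (sq_nonneg _)
          _ = _ := by ring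
    _ = N.card / w * ∑ n ∈ N, ‖Z n‖ ^ 2 * W n := by rw [← mul_sum]; ring
    _ ≤ N.card / w * (S.card * D + S.card ^ 2 * O) := by
        refine mul_le_mul_of_nonneg_left (le_trans ?_ hquad) (by positivity)
        exact hsZr.sum_le_tsum N fun n _ => mul_nonneg (sq_nonneg _) (hW n)

/-! ### The weight -/

/-- the weight, at least `1/2` on `[y^k, (2y)^k]` -/
noncomputable def WW (k y : ℕ) (n : ℕ) : ℝ :=
  ∑ j ∈ range (k + 1), wn (k * Real.log y + j * Real.log 2) n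

lemma WW_nonneg (k y n : ℕ) : 0 ≤ WW k y n := sum_nonneg fun _ _ => (wn_pos _ _).le

lemma WW_ge {k y n : ℕ} (hy : 1 ≤ y) (h1 : y ^ k ≤ n) (h2 : n ≤ (2 * y) ^ k) : 1 / 2 ≤ WW k y n := by
  have hl2 : 0 < Real.log 2 := Real.log_pos (by norm_num)
  have hl2' := Real.log_two_lt_d9
  have hy0 : (0 : ℝ) < y := by exact_mod_cast hy
  have hn0 : (0 : ℝ) < n := by
    have : 0 < y ^ k := by positivity
    exact_mod_cast lt_of_lt_of_le this h1
  have e1 : k * Real.log y ≤ Real.log n := by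
    rw [← Real.log_pow]
    exact Real.log_le_log (by positivity) (by exact_mod_cast h1)
  have e2 : Real.log n ≤ k * Real.log y + k * Real.log 2 := by
    have h3 : (n : ℝ) ≤ (2 * y) ^ k := by exact_mod_cast h2
    have h4 := Real.log_le_log hn0 h3
    rw [Real.log_pow, Real.log_mul (by norm_num) hy0.ne'] at h4
    linarith
  set x := (Real.log n - k * Real.log y) / Real.log 2 with hx
  have hx0 : 0 ≤ x := div_nonneg (by linarith) hl2.le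
  have hxk : x ≤ k := by
    rw [hx, div_le_iff₀ hl2]
    linarith
  have hj : ⌊x⌋₊ ∈ range (k + 1) := by
    rw [mem_range]
    have : ⌊x⌋₊ ≤ k := by
      have := Nat.floor_le hx0
      have h5 : (⌊x⌋₊ : ℝ) ≤ k := by linarith
      exact_mod_cast h5
    omega
  refine le_trans ?_ (single_le_sum (fun _ _ => (wn_pos _ _).le) hj)
  unfold wn
  have h6 : k * Real.log y + ⌊x⌋₊ * Real.log 2 - Real.log n = (⌊x⌋₊ - x) * Real.log 2 := by
    rw [hx]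
    field_simp
    ring
  rw [h6]
  have h7 : (⌊x⌋₊ : ℝ) ≤ x := Nat.floor_le hx0
  have h8 : x < ⌊x⌋₊ + 1 := Nat.lt_floor_add_one x
  have h9 : ((⌊x⌋₊ - x) * Real.log 2) ^ 2 ≤ 1 := by
    have h10 : ((⌊x⌋₊ - x) * Real.log 2) ^ 2 = (x - ⌊x⌋₊) ^ 2 * (Real.log 2) ^ 2 := by ring
    rw [h10]
    have h11 : (x - ⌊x⌋₊) ^ 2 ≤ 1 := by nlinarith
    have h12 : (Real.log 2) ^ 2 ≤ 1 := by nlinarith
    calc (x - ⌊x⌋₊) ^ 2 * (Real.log 2) ^ 2 ≤ 1 * 1 :=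
          mul_le_mul h11 h12 (sq_nonneg _) zero_le_one
      _ = 1 := one_mul 1
  have h13 := Real.add_one_le_exp (-(((⌊x⌋₊ - x) * Real.log 2) ^ 2) / 4)
  linarith

end Pool.Agent.L0h75.GN
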