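import Pool.Agent.L0h75.GN.Ex
import Pool.Agent.L0h75.GN.Hom
import Mathlib.NumberTheory.Pell
import Mathlib.NumberTheory.SumTwoSquares

/-!
# The class number of `ℚ(√p)` is odd
-/

set_option autoImplicit false

namespace Pool.Agent.L0h75.GN

open NumberField Module

/-! ### Pell's equation -/

lemma sq_of_cop {u v w : ℕ} (hc : u.Coprime v) (h : u * v = w ^ 2) : ∃ a, u = a ^ 2 := by
  refine exists_eq_pow_of_mul_eq_pow (k := 2) ?_ h
  rw [Nat.isUnit_iff]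
  exact hc

lemma coprime_split {p u v w : ℕ} (hp : p.Prime) (hc : u.Coprime v) (h : u * v = p * w ^ 2) :
    (∃ a b, u = a ^ 2 ∧ v = p * b ^ 2) ∨ (∃ a b, u = p * b ^ 2 ∧ v = a ^ 2) := by
  have hd : p ∣ u * v := ⟨w ^ 2, h⟩
  rcases hp.dvd_mul.1 hd with ⟨u', hu'⟩ | ⟨v', hv'⟩
  · right
    have h1 : u' * v = w ^ 2 := by
      apply Nat.eq_of_mul_eq_mul_left hp.pos
      rw [← h, hu']
      ring
    have hc' : u'.Coprime v := Nat.Coprime.coprime_dvd_left ⟨p, by rw [hu']; ring⟩ hc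
    obtain ⟨b, hb⟩ := sq_of_cop hc' h1
    obtain ⟨a, ha⟩ := sq_of_cop hc'.symm (by rw [mul_comm]; exact h1)
    exact ⟨a, b, by rw [hu', hb], ha⟩
  · left
    have h1 : u * v' = w ^ 2 := by
      apply Nat.eq_of_mul_eq_mul_left hp.pos
      rw [← h, hv']
      ring
    have hc' : u.Coprime v' := Nat.Coprime.coprime_dvd_right ⟨p, by rw [hv']; ring⟩ hc
    obtain ⟨a, ha⟩ := sq_of_cop hc' h1
    obtain ⟨b, hb⟩ := sq_of_cop hc'.symm (by rw [mul_comm]; exact h1)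
    exact ⟨a, b, ha, by rw [hv', hb]⟩

lemma pell_desc {p : ℕ} (hp : p.Prime) (hp2 : p ≠ 2) : ∀ y : ℕ, ∀ x : ℕ, 0 < y →
    x ^ 2 = p * y ^ 2 + 1 → (∃ a b : ℕ, a ^ 2 + 1 = p * b ^ 2) ∨
      (∃ a b : ℕ, a ^ 2 = p * b ^ 2 + 2 ∨ a ^ 2 + 2 = p * b ^ 2) := by
  intro y
  induction y using Nat.strong_induction_on with
  | _ y ih =>
    intro x hy hx
    have hpo : p % 2 = 1 := Nat.odd_iff.1 (hp.odd_of_ne_two hp2)
    rcases Nat.even_or_odd x with hxe | hxo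
    · -- x even
      obtain ⟨m, hm⟩ := hxe
      have hx2 : 2 ≤ x := by
        rcases Nat.eq_zero_or_pos m with h | h
        · exfalso
          rw [hm, h] at hx
          simp at hx
        · omega
      obtain ⟨u, hu⟩ : ∃ u, x = u + 1 := ⟨x - 1, by omega⟩
      have h1 : u * (u + 2) = p * y ^ 2 := by
        rw [hu] at hx
        nlinarith
      have hc : u.Coprime (u + 2) := by
        have h3 : u.Coprime 2 := by
          rw [Nat.coprime_two_right]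
          exact ⟨m - 1, by omega⟩
        rw [Nat.add_comm]
        exact (Nat.coprime_add_self_right).2 h3
      right
      rcases coprime_split hp hc h1 with ⟨a, b, ha, hb⟩ | ⟨a, b, ha, hb⟩
      · exact ⟨a, b, Or.inr (by omega)⟩
      · exact ⟨a, b, Or.inl (by omega)⟩
    · -- x odd
      obtain ⟨m, hm⟩ := hxo
      have h1 : 4 * (m * (m + 1)) = p * y ^ 2 := by
        rw [hm] at hx
        nlinarith
      have hye : Even y := by
        by_contra hyo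
        rw [Nat.not_even_iff_odd] at hyo
        have h2 : Odd (p * y ^ 2) := (Nat.odd_iff.2 hpo).mul hyo.pow
        rw [← h1, Nat.odd_iff] at h2
        omega
      obtain ⟨w, hw⟩ := hye
      have h2 : m * (m + 1) = p * w ^ 2 := by
        have h3 : 4 * (m * (m + 1)) = 4 * (p * w ^ 2) := by
          rw [h1, hw]
          ring
        exact Nat.eq_of_mul_eq_mul_left (by norm_num) h3
      have hw0 : 0 < w := by omega
      have hm0 : 0 < m := by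
        rcases Nat.eq_zero_or_pos m with h | h
        · exfalso
          rw [h, zero_mul] at h2
          have : 0 < p * w ^ 2 := Nat.mul_pos hp.pos (by positivity)
          omega
        · exact h
      rcases coprime_split hp (Nat.coprime_self_add_right.2 (Nat.coprime_one_right m)) h2 with
        ⟨a, b, ha, hb⟩ | ⟨a, b, ha, hb⟩
      · left
        exact ⟨a, b, by omega⟩
      · have hb0 : 0 < b := by
          rcases Nat.eq_zero_or_pos b with h | h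
          · exfalso
            rw [h] at ha
            simp at ha
            omega
          · exact h
        refine ih b ?_ a hb0 (by omega)
        by_contra hlt
        rw [not_lt] at hlt
        have h3 : y ^ 2 ≤ b ^ 2 := Nat.pow_le_pow_left hlt 2
        have h4 : p * y ^ 2 ≤ p * b ^ 2 := Nat.mul_le_mul_left p h3
        rw [← h1, ← ha] at h4
        nlinarith

lemma sq_mod4 (a : ℕ) : a ^ 2 % 4 = 0 ∨ a ^ 2 % 4 = 1 := by
  rcases Nat.even_or_odd' a with ⟨k, rfl | rfl⟩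
  · left
    have : (2 * k) ^ 2 = 4 * k ^ 2 := by ring
    omega
  · right
    have : (2 * k + 1) ^ 2 = 4 * (k ^ 2 + k) + 1 := by ring
    omega

lemma pell_cases {p : ℕ} (hp : p.Prime) :
    ((p % 4 = 1 ∨ p = 2) ∧ ∃ a b : ℕ, a ^ 2 + 1 = p * b ^ 2) ∨
      (p % 4 = 3 ∧ ∃ a b : ℕ, a ^ 2 = p * b ^ 2 + 2 ∨ a ^ 2 + 2 = p * b ^ 2) := by
  by_cases hp2 : p = 2
  · left
    exact ⟨Or.inr hp2, 1, 1, by omega⟩
  have hns : ¬ IsSquare (p : ℤ) := by
    rw [Nat.prime_iff_prime_int] at hp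
    exact hp.irreducible.not_isSquare
  obtain ⟨x, y, hxy, hy⟩ := Pell.exists_of_not_isSquare (d := (p : ℤ))
    (by exact_mod_cast hp.pos) hns
  have h1 : x.natAbs ^ 2 = p * y.natAbs ^ 2 + 1 := by
    have h2 : ((x.natAbs ^ 2 : ℕ) : ℤ) = ((p * y.natAbs ^ 2 + 1 : ℕ) : ℤ) := by
      push_cast
      rw [sq_abs, sq_abs]
      linarith
    exact_mod_cast h2
  have hpo : p % 2 = 1 := Nat.odd_iff.1 (hp.odd_of_ne_two hp2)
  have hp4 : p % 4 = 1 ∨ p % 4 = 3 := by omega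
  rcases pell_desc hp hp2 y.natAbs x.natAbs (Int.natAbs_pos.2 hy) h1 with ⟨a, b, h⟩ | ⟨a, b, h⟩
  · left
    refine ⟨?_, a, b, h⟩
    rcases hp4 with h4 | h4
    · exact Or.inl h4
    · exfalso
      obtain ⟨k, hk⟩ : ∃ k, p = 4 * k + 3 := ⟨p / 4, by omega⟩
      have h5 : p * b ^ 2 = 4 * (k * b ^ 2) + 3 * b ^ 2 := by rw [hk]; ring
      have ha := sq_mod4 a
      have hb := sq_mod4 b
      omega
  · right
    refine ⟨?_, a, b, h⟩
    rcases hp4 with h4 | h4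
    · exfalso
      obtain ⟨k, hk⟩ : ∃ k, p = 4 * k + 1 := ⟨p / 4, by omega⟩
      have h5 : p * b ^ 2 = 4 * (k * b ^ 2) + b ^ 2 := by rw [hk]; ring
      have ha := sq_mod4 a
      have hb := sq_mod4 b
      rcases h with h | h <;> omega
    · exact h4

/-! ### The quadratic field -/

section
variable {K : Type} [Field K] [NumberField K]

lemma cayley (h2 : finrank ℚ K = 2) {a : 𝓞 K} {c : ℤ} (ha : a ^ 2 = (c : 𝓞 K))
    (ha' : ∀ x : ℚ, algebraMap ℚ K x ≠ (a : K)) (g : 𝓞 K) :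
    g ^ 2 = ((Algebra.trace ℤ (𝓞 K) g : ℤ) : 𝓞 K) * g - ((Algebra.norm ℤ g : ℤ) : 𝓞 K) := by
  have haE : (a : K) ^ 2 = algebraMap ℚ K (c : ℚ) := by
    have h := congrArg (algebraMap (𝓞 K) K) ha
    rw [map_pow, map_intCast] at h
    rw [h, map_intCast]
  obtain ⟨u, v, huv⟩ := exists_coord h2 ha' (g : K)
  have ht : ((Algebra.trace ℤ (𝓞 K) g : ℤ) : ℚ) = 2 * u := by
    rw [Algebra.coe_trace_int, huv, trace_coord h2 haE ha']
  have hn : ((Algebra.norm ℤ g : ℤ) : ℚ) = u ^ 2 - c * v ^ 2 := by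
    rw [Algebra.coe_norm_int, huv, norm_coord h2 haE ha']
  apply RingOfIntegers.coe_injective
  show algebraMap (𝓞 K) K _ = algebraMap (𝓞 K) K _
  rw [map_sub, map_mul, map_pow, map_intCast, map_intCast]
  have ht' : ((Algebra.trace ℤ (𝓞 K) g : ℤ) : K) = algebraMap ℚ K (2 * u) := by
    rw [← ht, map_intCast]
  have hn' : ((Algebra.norm ℤ g : ℤ) : K) = algebraMap ℚ K (u ^ 2 - c * v ^ 2) := by
    rw [← hn, map_intCast]
  have huv' : algebraMap (𝓞 K) K g = algebraMap ℚ K u + algebraMap ℚ K v * (a : K) := huv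
  rw [ht', hn', huv', map_mul, map_sub, map_mul, map_pow, map_pow, ← haE, map_ofNat]
  ring

lemma normZ_coord (h2 : finrank ℚ K = 2) {a : 𝓞 K} {c : ℤ} (ha : a ^ 2 = (c : 𝓞 K))
    (ha' : ∀ x : ℚ, algebraMap ℚ K x ≠ (a : K)) (r s : ℤ) :
    Algebra.norm ℤ ((r : 𝓞 K) + (s : 𝓞 K) * a) = r ^ 2 - c * s ^ 2 := by
  have haE : (a : K) ^ 2 = algebraMap ℚ K (c : ℚ) := by
    have h := congrArg (algebraMap (𝓞 K) K) ha
    rw [map_pow, map_intCast] at h
    rw [h, map_intCast]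
  have h : ((Algebra.norm ℤ ((r : 𝓞 K) + (s : 𝓞 K) * a) : ℤ) : ℚ) = ((r ^ 2 - c * s ^ 2 : ℤ) : ℚ) := by
    rw [Algebra.coe_norm_int]
    have h1 : (((r : 𝓞 K) + (s : 𝓞 K) * a : 𝓞 K) : K) =
        algebraMap ℚ K (r : ℚ) + algebraMap ℚ K (s : ℚ) * (a : K) := by
      show algebraMap (𝓞 K) K _ = _
      rw [map_add, map_mul, map_intCast, map_intCast, map_intCast, map_intCast]
    rw [h1, norm_coord h2 haE ha']
    push_cast
    rfl
  exact_mod_cast h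

lemma traceZ_coord (h2 : finrank ℚ K = 2) {a : 𝓞 K} {c : ℤ} (ha : a ^ 2 = (c : 𝓞 K))
    (ha' : ∀ x : ℚ, algebraMap ℚ K x ≠ (a : K)) (r s : ℤ) :
    Algebra.trace ℤ (𝓞 K) ((r : 𝓞 K) + (s : 𝓞 K) * a) = 2 * r := by
  have haE : (a : K) ^ 2 = algebraMap ℚ K (c : ℚ) := by
    have h := congrArg (algebraMap (𝓞 K) K) ha
    rw [map_pow, map_intCast] at h
    rw [h, map_intCast]
  have h : ((Algebra.trace ℤ (𝓞 K) ((r : 𝓞 K) + (s : 𝓞 K) * a) : ℤ) : ℚ) = ((2 * r : ℤ) : ℚ) := by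
    rw [Algebra.coe_trace_int]
    have h1 : (((r : 𝓞 K) + (s : 𝓞 K) * a : 𝓞 K) : K) =
        algebraMap ℚ K (r : ℚ) + algebraMap ℚ K (s : ℚ) * (a : K) := by
      show algebraMap (𝓞 K) K _ = _
      rw [map_add, map_mul, map_intCast, map_intCast, map_intCast, map_intCast]
    rw [h1, trace_coord h2 haE ha']
    push_cast
    rfl
  exact_mod_cast h

/-- reduction to ideals whose square is generated by a rational integer -/
lemma red_to_int (hcay : ∀ g : 𝓞 K, g ^ 2 = ((Algebra.trace ℤ (𝓞 K) g : ℤ) : 𝓞 K) * g -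
      ((Algebra.norm ℤ g : ℤ) : 𝓞 K))
    {𝔞 : Ideal (𝓞 K)} (h𝔞 : 𝔞 ≠ ⊥) {g : 𝓞 K} (hg : 𝔞 ^ 2 = Ideal.span {g})
    (hn : Algebra.norm ℤ g = (Ideal.absNorm 𝔞 : ℤ) ^ 2)
    (key : ∀ (𝔠 : Ideal (𝓞 K)) (m : ℕ), m ≠ 0 → 𝔠 ^ 2 = Ideal.span {(m : 𝓞 K)} →
      ∃ z, 𝔠 = Ideal.span {z}) : ∃ z, 𝔞 = Ideal.span {z} := by
  set N := Ideal.absNorm 𝔞 with hN
  have hN0 : N ≠ 0 := fun h => h𝔞 (Ideal.absNorm_eq_zero_iff.1 h)
  set t := Algebra.trace ℤ (𝓞 K) g with ht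
  set β := g + (N : 𝓞 K) with hβ
  have hg0 : g ≠ 0 := by
    rintro rfl
    rw [Ideal.span_singleton_zero] at hg
    exact h𝔞 (pow_eq_zero_iff (n := 2) (by norm_num) |>.1 (hg.trans Ideal.zero_eq_bot.symm))
  have hβ2 : β ^ 2 = ((t + 2 * N : ℤ) : 𝓞 K) * g := by
    have h1 := hcay g
    rw [hn, ← ht] at h1
    push_cast at h1 ⊢
    rw [hβ]
    linear_combination h1
  by_cases h0 : t + 2 * N = 0
  · rw [h0, Int.cast_zero, zero_mul] at hβ2
    have h1 : β = 0 := pow_eq_zero_iff (n := 2) (by norm_num) |>.1 hβ2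
    have h2 : g = -(N : 𝓞 K) := by
      rw [hβ] at h1
      exact eq_neg_of_add_eq_zero_left h1
    rw [h2, Ideal.span_singleton_neg] at hg
    exact key 𝔞 N hN0 hg
  · have hβ0 : β ≠ 0 := by
      intro h
      rw [h, zero_pow (by norm_num)] at hβ2
      rcases mul_eq_zero.1 hβ2.symm with h1 | h1
      · exact h0 (by exact_mod_cast h1)
      · exact hg0 h1
    have hmem : β ∈ 𝔞 := by
      refine 𝔞.add_mem ?_ (Ideal.absNorm_mem 𝔞)
      have h1 : g ∈ 𝔞 ^ 2 := by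
        rw [hg]
        exact Ideal.mem_span_singleton_self g
      exact Ideal.pow_le_self (by norm_num) h1
    have hdvd : 𝔞 ∣ Ideal.span {β} := by
      rw [Ideal.dvd_iff_le, Ideal.span_singleton_le_iff_mem]
      exact hmem
    obtain ⟨𝔠, h𝔠⟩ := hdvd
    have h1 : 𝔠 ^ 2 = Ideal.span {(((t + 2 * N).natAbs : ℕ) : 𝓞 K)} := by
      have h2 : 𝔞 ^ 2 * 𝔠 ^ 2 = 𝔞 ^ 2 * Ideal.span {((t + 2 * N : ℤ) : 𝓞 K)} := by
        rw [← mul_pow, ← h𝔠, Ideal.span_singleton_pow, hβ2, ← Ideal.span_singleton_mul_span_singleton,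
          hg, mul_comm]
      have h3 : 𝔞 ^ 2 ≠ 0 := pow_ne_zero 2 h𝔞
      have h4 := mul_left_cancel₀ h3 h2
      rw [h4]
      rcases Int.natAbs_eq (t + 2 * N) with h5 | h5
      · conv_lhs => rw [h5]
        rw [Int.cast_natCast]
      · conv_lhs => rw [h5]
        rw [Int.cast_neg, Int.cast_natCast, Ideal.span_singleton_neg]
    obtain ⟨c, hc⟩ := key 𝔠 _ (Int.natAbs_ne_zero.2 h0) h1
    have h2 : β ∈ Ideal.span {c} := by
      rw [← hc]
      have : Ideal.span {β} ≤ 𝔠 := Ideal.le_of_dvd ⟨𝔞, by rw [h𝔠, mul_comm]⟩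
      exact this (Ideal.mem_span_singleton_self β)
    rw [Ideal.mem_span_singleton] at h2
    obtain ⟨b, hb⟩ := h2
    have hc0 : c ≠ 0 := by
      rintro rfl
      rw [zero_mul] at hb
      exact hβ0 hb
    refine ⟨b, ?_⟩
    have h3 : Ideal.span {c} * 𝔞 = Ideal.span {c} * Ideal.span {b} := by
      rw [Ideal.span_singleton_mul_span_singleton, ← hb, h𝔠, hc, mul_comm]
    refine mul_left_cancel₀ ?_ h3
    rw [Ne, Ideal.zero_eq_bot, Ideal.span_singleton_eq_bot]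
    exact hc0

/-- a ramified prime -/
lemma exists_ram (h2 : finrank ℚ K = 2) {r ℓ : ℕ} (hr : Squarefree r) (hℓ : ℓ.Prime) (hd : ℓ ∣ r)
    {𝔯 : Ideal (𝓞 K)} (h : 𝔯 ^ 2 = Ideal.span {(r : 𝓞 K)}) :
    ∃ 𝔭 : Ideal (𝓞 K), Ideal.absNorm 𝔭 = ℓ ∧ ∀ x ∈ 𝔭, ∃ z, x ^ 2 = (ℓ : 𝓞 K) * z := by
  have hNℓ : Ideal.absNorm (Ideal.span {(ℓ : 𝓞 K)}) = ℓ ^ 2 := by
    rw [Ideal.absNorm_span_natCast, RingOfIntegers.rank, h2]
  have hne : Ideal.span {(ℓ : 𝓞 K)} ≠ ⊤ := by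
    intro h1
    rw [h1, Ideal.absNorm_top] at hNℓ
    have := hℓ.one_lt
    nlinarith
  obtain ⟨𝔭, hmax, hle⟩ := Ideal.exists_le_maximal _ hne
  have hℓ𝔭 : (ℓ : 𝓞 K) ∈ 𝔭 := hle (Ideal.mem_span_singleton_self _)
  have hℓ0 : (ℓ : 𝓞 K) ≠ 0 := by exact_mod_cast hℓ.ne_zero
  have h𝔭0 : 𝔭 ≠ ⊥ := by
    rintro rfl
    exact hℓ0 (by simpa using hℓ𝔭)
  have hpr : Prime 𝔭 := (Ideal.prime_iff_isPrime h𝔭0).2 hmax.isPrime
  obtain ⟨r', hr'⟩ := hd
  have hcop : ¬ ℓ ∣ r' := by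
    rintro ⟨k, rfl⟩
    have := hr ℓ ⟨k, by rw [hr']; ring⟩
    exact hℓ.ne_one (Nat.isUnit_iff.1 this)
  have h3 : 𝔭 ∣ 𝔯 ^ 2 := by
    rw [h, Ideal.dvd_iff_le, Ideal.span_singleton_le_iff_mem, hr']
    push_cast
    exact 𝔭.mul_mem_right _ hℓ𝔭
  have h4 : 𝔭 ^ 2 ∣ 𝔯 ^ 2 := pow_dvd_pow_of_dvd (hpr.dvd_of_dvd_pow h3) 2
  rw [h, hr', Nat.cast_mul, ← Ideal.span_singleton_mul_span_singleton] at h4
  have h5 : IsCoprime (𝔭 ^ 2) (Ideal.span {(r' : 𝓞 K)}) := by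
    apply IsCoprime.pow_left
    rw [Ideal.isCoprime_iff_exists]
    have h6 : IsCoprime (ℓ : ℤ) (r' : ℤ) :=
      Nat.isCoprime_iff_coprime.2 ((Nat.Prime.coprime_iff_not_dvd hℓ).2 hcop)
    obtain ⟨u, v, huv⟩ := h6
    refine ⟨(u : 𝓞 K) * ℓ, 𝔭.mul_mem_left _ hℓ𝔭, (v : 𝓞 K) * r', ?_, ?_⟩
    · exact Ideal.mul_mem_left _ _ (Ideal.mem_span_singleton_self _)
    · have := congrArg (Int.cast : ℤ → 𝓞 K) huv
      push_cast at this
      exact this
  have h6 : 𝔭 ^ 2 ∣ Ideal.span {(ℓ : 𝓞 K)} := h5.dvd_of_dvd_mul_right h4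
  have hN𝔭 : Ideal.absNorm 𝔭 = ℓ := by
    have h7 : Ideal.absNorm 𝔭 ^ 2 ∣ ℓ ^ 2 := by
      rw [← hNℓ, ← map_pow]
      exact Ideal.absNorm_dvd_absNorm_of_le (Ideal.le_of_dvd h6)
    have h8 : Ideal.absNorm 𝔭 ∣ ℓ := (Nat.pow_dvd_pow_iff (by norm_num)).1 h7
    rcases (Nat.dvd_prime hℓ).1 h8 with h9 | h9
    · exfalso
      rw [Ideal.absNorm_eq_one_iff] at h9
      exact hmax.ne_top h9
    · exact h9
  refine ⟨𝔭, hN𝔭, ?_⟩
  obtain ⟨𝔮, h𝔮⟩ := h6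
  have h𝔮1 : 𝔮 = ⊤ := by
    have h7 := congrArg Ideal.absNorm h𝔮
    rw [hNℓ, map_mul, map_pow, hN𝔭] at h7
    rw [← Ideal.absNorm_eq_one_iff]
    have h8 : 0 < ℓ ^ 2 := by
      have := hℓ.pos
      positivity
    exact (Nat.eq_of_mul_eq_mul_left h8 (by rw [← h7, mul_one])).symm
  intro x hx
  have h7 : x ^ 2 ∈ Ideal.span {(ℓ : 𝓞 K)} := by
    rw [h𝔮, h𝔮1, Ideal.mul_top]
    exact Ideal.pow_mem_pow hx 2
  exact Ideal.mem_span_singleton.1 h7

/-- only `2` and `p` can ramify -/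
lemma ram_cases (h2 : finrank ℚ K = 2) {p : ℕ} (hp : p.Prime) {α : 𝓞 K} (hα : α ^ 2 = (p : 𝓞 K))
    {ℓ : ℕ} (hℓ : ℓ.Prime) {𝔭 : Ideal (𝓞 K)} (hN : Ideal.absNorm 𝔭 = ℓ)
    (hsq : ∀ x ∈ 𝔭, ∃ z, x ^ 2 = (ℓ : 𝓞 K) * z) : ℓ = p ∨ (ℓ = 2 ∧ p % 4 ≠ 1) := by
  have hαK : (α : K) ^ 2 = p := by
    have h := congrArg (algebraMap (𝓞 K) K) hα
    rw [map_pow, map_natCast] at h
    exact h
  have hαZ : α ^ 2 = ((p : ℤ) : 𝓞 K) := by rw [hα, Int.cast_natCast]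
  have hα' := not_rat_of hp.squarefree hp.ne_one hαK
  obtain ⟨f, hf⟩ := exists_hom hℓ hN
  obtain ⟨a, ha⟩ := ZMod.intCast_surjective (f α)
  have hx : α - (a : 𝓞 K) ∈ 𝔭 := by
    rw [← hf, RingHom.mem_ker, map_sub, map_intCast, ha, sub_self]
  obtain ⟨z, hz⟩ := hsq _ hx
  have hpa : (ℓ : ℤ) ∣ p - a ^ 2 := by
    have h1 : ((p - a ^ 2 : ℤ) : ZMod ℓ) = 0 := by
      push_cast
      rw [ha, ← map_pow, hα, map_natCast, sub_self]
    exact (ZMod.intCast_zmod_eq_zero_iff_dvd _ _).1 h1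
  obtain ⟨w, hw⟩ := hpa
  -- the trace
  have hTr : ∀ y : 𝓞 K, (ℓ : ℤ) ∣ Algebra.trace ℤ (𝓞 K) ((ℓ : 𝓞 K) * y) := by
    intro y
    have h1 : (ℓ : 𝓞 K) * y = (ℓ : ℤ) • y := by
      rw [zsmul_eq_mul, Int.cast_natCast]
    rw [h1, map_zsmul, smul_eq_mul]
    exact dvd_mul_right _ _
  by_cases h21 : ℓ = 2 ∧ p % 4 = 1
  · exfalso
    obtain ⟨hℓ2, hp4⟩ := h21
    obtain ⟨k, hk⟩ : ∃ k : ℤ, (p : ℤ) = 4 * k + 1 := ⟨p / 4, by omega⟩
    -- the integer (1 + α) / 2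
    have hint : IsIntegral ℤ ((1 + (α : K)) / 2) := by
      refine ⟨Polynomial.X ^ 2 - Polynomial.X - Polynomial.C k, ?_, ?_⟩
      · monicity!
      · rw [← Polynomial.aeval_def, map_sub, map_sub, map_pow, Polynomial.aeval_X,
          Polynomial.aeval_C]
        have h3 : (p : K) = 4 * (k : K) + 1 := by exact_mod_cast congrArg (Int.cast : ℤ → K) hk
        rw [eq_intCast]
        have h4 : (α : K) ^ 2 = 4 * (k : K) + 1 := by rw [hαK, h3]
        linear_combination h4 / 4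
    set ω : 𝓞 K := ⟨(1 + (α : K)) / 2, hint⟩ with hω
    have hω2 : 2 * ω = 1 + α := by
      apply RingOfIntegers.coe_injective
      show algebraMap (𝓞 K) K _ = algebraMap (𝓞 K) K _
      rw [map_mul, map_add, map_one, map_ofNat]
      show 2 * ((1 + (α : K)) / 2) = _
      field_simp
    have hωω : ω ^ 2 = ω + k := by
      have h3 : (4 : 𝓞 K) * ω ^ 2 = 4 * (ω + k) := by
        have h4 : (4 : 𝓞 K) * ω ^ 2 = (2 * ω) ^ 2 := by ring
        rw [h4, hω2]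
        have h5 : α ^ 2 = 4 * (k : 𝓞 K) + 1 := by
          rw [hαZ, hk]
          push_cast
          rfl
        have h6 : (4 : 𝓞 K) * (ω + k) = 2 * (2 * ω) + 4 * k := by ring
        rw [h6, hω2]
        linear_combination h5
      exact mul_left_cancel₀ (by norm_num) h3
    obtain ⟨b, hb⟩ := ZMod.intCast_surjective (f ω)
    have hy : ω - (b : 𝓞 K) ∈ 𝔭 := by
      rw [← hf, RingHom.mem_ker, map_sub, map_intCast, hb, sub_self]
    obtain ⟨z', hz'⟩ := hsq _ hy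
    have h7 : (1 : 𝓞 K) + α + 2 * (k + b ^ 2) = 2 * (2 * (z' + b * ω)) := by
      have h8 : ω + (k + b ^ 2) = 2 * (z' + b * ω) := by
        rw [hℓ2] at hz'
        push_cast at hz'
        linear_combination hz' - hωω
      calc (1 : 𝓞 K) + α + 2 * (k + b ^ 2) = 2 * (ω + (k + b ^ 2)) := by rw [← hω2]; ring
        _ = _ := by rw [h8]
    have h9 : Algebra.trace ℤ (𝓞 K) ((1 : 𝓞 K) + α + 2 * (k + b ^ 2)) = 2 * (1 + 2 * (k + b ^ 2)) := by
      have h10 : (1 : 𝓞 K) + α + 2 * (k + b ^ 2) =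
          ((1 + 2 * (k + b ^ 2) : ℤ) : 𝓞 K) + ((1 : ℤ) : 𝓞 K) * α := by
        push_cast
        ring
      rw [h10, traceZ_coord h2 hαZ hα']
    rw [h7] at h9
    have h10 : (2 : 𝓞 K) * (2 * (z' + b * ω)) = (4 : ℤ) • (z' + b * ω) := by
      rw [zsmul_eq_mul]
      push_cast
      ring
    rw [h10, map_zsmul, smul_eq_mul] at h9
    omega
  by_cases hℓp : ℓ = p
  · exact Or.inl hℓp
  right
  have hℓ2 : ℓ = 2 := by
    have h3 : ((2 * a ^ 2 : ℤ) : 𝓞 K) + ((-(2 * a) : ℤ) : 𝓞 K) * α = (ℓ : 𝓞 K) * (z - w) := by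
      have h4 : (p : 𝓞 K) - (a : 𝓞 K) ^ 2 = (ℓ : 𝓞 K) * w := by
        have := congrArg (Int.cast : ℤ → 𝓞 K) hw
        push_cast at this
        exact this
      push_cast
      linear_combination hz - h4 - hα
    have h4 := traceZ_coord h2 hαZ hα' (2 * a ^ 2) (-(2 * a))
    rw [h3] at h4
    have h5 := hTr (z - w)
    rw [h4] at h5
    have hℓi : Prime (ℓ : ℤ) := Nat.prime_iff_prime_int.1 hℓ
    have h6 : (ℓ : ℤ) ∣ 2 ∨ (ℓ : ℤ) ∣ a := by
      rcases hℓi.dvd_or_dvd h5 with h6 | h6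
      · exact Or.inl h6
      · rcases hℓi.dvd_or_dvd h6 with h7 | h7
        · exact Or.inl h7
        · exact Or.inr (hℓi.dvd_of_dvd_pow h7)
    rcases h6 with h6 | h6
    · have h7 : ℓ ∣ 2 := by exact_mod_cast h6
      exact (Nat.prime_dvd_prime_iff_eq hℓ Nat.prime_two).1 h7
    · exfalso
      apply hℓp
      have h7 : (ℓ : ℤ) ∣ p := by
        have h8 : (p : ℤ) = (p - a ^ 2) + a ^ 2 := by ring
        rw [h8]
        exact dvd_add ⟨w, hw⟩ (h6.pow (by norm_num))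
      have h8 : ℓ ∣ p := by exact_mod_cast h7
      exact (Nat.prime_dvd_prime_iff_eq hℓ hp).1 h8
  exact ⟨hℓ2, fun h => h21 ⟨hℓ2, h⟩⟩

lemma sq_inj {𝔞 𝔟 : Ideal (𝓞 K)} (h : 𝔞 ^ 2 = 𝔟 ^ 2) : 𝔞 = 𝔟 := by
  have h1 : 𝔞 ∣ 𝔟 := (UniqueFactorizationMonoid.pow_dvd_pow_iff_dvd (n := 2) (by norm_num)).1 (dvd_of_eq h)
  have h2 : 𝔟 ∣ 𝔞 := (UniqueFactorizationMonoid.pow_dvd_pow_iff_dvd (n := 2) (by norm_num)).1 (dvd_of_eq h.symm)
  exact le_antisymm (Ideal.dvd_iff_le.1 h2) (Ideal.dvd_iff_le.1 h1)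

lemma sqf_one_prime {s q : ℕ} (hs : Squarefree s) (h : ∀ ℓ : ℕ, ℓ.Prime → ℓ ∣ s → ℓ = q) :
    s = 1 ∨ s = q := by
  by_cases h1 : s = 1
  · exact Or.inl h1
  right
  obtain ⟨ℓ, hℓ, k, hk⟩ := Nat.exists_prime_and_dvd h1
  have hq := h ℓ hℓ ⟨k, hk⟩
  by_cases hk1 : k = 1
  · rw [hk, hk1, mul_one, hq]
  exfalso
  obtain ⟨ℓ', hℓ', j, hj⟩ := Nat.exists_prime_and_dvd hk1
  have hq' := h ℓ' hℓ' ⟨ℓ * j, by rw [hk, hj]; ring⟩
  have := hs q ⟨j, by rw [hk, hj, hq, hq']; ring⟩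
  rw [Nat.isUnit_iff] at this
  exact hℓ.ne_one (hq.trans this)

/-- an ideal whose square is generated by a rational integer is principal -/
lemma key_int (h2 : finrank ℚ K = 2) {p : ℕ} (hp : p.Prime) {α : 𝓞 K} (hα : α ^ 2 = (p : 𝓞 K))
    (hπ : (p % 4 = 1 ∨ p = 2) ∨ ∃ π : 𝓞 K, Ideal.span {π} ^ 2 = Ideal.span {(2 : 𝓞 K)})
    (𝔠 : Ideal (𝓞 K)) (m : ℕ) (hm : m ≠ 0) (h : 𝔠 ^ 2 = Ideal.span {(m : 𝓞 K)}) :
    ∃ z, 𝔠 = Ideal.span {z} := by
  obtain ⟨r, b, hmb, hr⟩ := Nat.sq_mul_squarefree m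
  have hb0 : b ≠ 0 := by
    rintro rfl
    rw [zero_pow (by norm_num), zero_mul] at hmb
    exact hm hmb.symm
  have hbK : (b : 𝓞 K) ≠ 0 := by exact_mod_cast hb0
  have hbs : Ideal.span {(b : 𝓞 K)} ≠ 0 := by
    rw [Ne, Ideal.zero_eq_bot, Ideal.span_singleton_eq_bot]
    exact hbK
  have h1 : 𝔠 ^ 2 = Ideal.span {(b : 𝓞 K)} ^ 2 * Ideal.span {(r : 𝓞 K)} := by
    rw [h, ← hmb, Ideal.span_singleton_pow, Ideal.span_singleton_mul_span_singleton]
    push_cast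
    rfl
  have h3 : Ideal.span {(b : 𝓞 K)} ∣ 𝔠 :=
    (UniqueFactorizationMonoid.pow_dvd_pow_iff_dvd (n := 2) (by norm_num)).1 ⟨_, h1⟩
  obtain ⟨𝔯, h𝔯⟩ := h3
  have h4 : 𝔯 ^ 2 = Ideal.span {(r : 𝓞 K)} := by
    rw [h𝔯, mul_pow] at h1
    exact mul_left_cancel₀ (pow_ne_zero 2 hbs) h1
  -- enough to treat `𝔯`
  suffices ∃ z, 𝔯 = Ideal.span {z} by
    obtain ⟨z, hz⟩ := this
    exact ⟨b * z, by rw [h𝔯, hz, Ideal.span_singleton_mul_span_singleton]⟩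
  have hram : ∀ ℓ : ℕ, ℓ.Prime → ℓ ∣ r → ℓ = p ∨ (ℓ = 2 ∧ p % 4 ≠ 1) := by
    intro ℓ hℓ hd
    obtain ⟨𝔭, hN, hsq⟩ := exists_ram h2 hr hℓ hd h4
    exact ram_cases h2 hp hα hℓ hN hsq
  have hαs : Ideal.span {α} ^ 2 = Ideal.span {(p : 𝓞 K)} := by
    rw [Ideal.span_singleton_pow, hα]
  have hαne : α ≠ 0 := by
    rintro rfl
    rw [zero_pow (by norm_num)] at hα
    exact hp.ne_zero (by exact_mod_cast hα.symm)
  have hαs0 : Ideal.span {α} ≠ 0 := by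
    rw [Ne, Ideal.zero_eq_bot, Ideal.span_singleton_eq_bot]
    exact hαne
  -- numbers prime to `p`
  have hcase : ∀ (s : ℕ) (𝔰 : Ideal (𝓞 K)), Squarefree s → s ∣ r → ¬ p ∣ s →
      𝔰 ^ 2 = Ideal.span {(s : 𝓞 K)} → ∃ z, 𝔰 = Ideal.span {z} := by
    intro s 𝔰 hs hsr hps h𝔰
    have hs2 : s = 1 ∨ s = 2 := by
      apply sqf_one_prime hs
      intro ℓ hℓ hd
      rcases hram ℓ hℓ (hd.trans hsr) with h5 | h5
      · exfalso
        rw [h5] at hd
        exact hps hd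
      · exact h5.1
    rcases hs2 with h5 | h5
    · refine ⟨1, sq_inj ?_⟩
      rw [h𝔰, h5, Ideal.span_singleton_pow, Nat.cast_one, one_pow]
    · rcases hπ with h6 | ⟨π, hπ⟩
      · exfalso
        rcases hram 2 Nat.prime_two (by rw [← h5]; exact hsr) with h7 | h7
        · apply hps
          rw [h5, ← h7]
        · rcases h6 with h8 | h8
          · exact h7.2 h8
          · apply hps
            rw [h5, h8]
      · refine ⟨π, sq_inj ?_⟩
        rw [h𝔰, h5, hπ]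
        norm_num
  by_cases hpr : p ∣ r
  · obtain ⟨s, hs⟩ := hpr
    have hps : ¬ p ∣ s := by
      rintro ⟨k, rfl⟩
      have := hr p ⟨k, by rw [hs]; ring⟩
      exact hp.ne_one (Nat.isUnit_iff.1 this)
    have h5 : 𝔯 ^ 2 = Ideal.span {α} ^ 2 * Ideal.span {(s : 𝓞 K)} := by
      rw [h4, hαs, hs, Ideal.span_singleton_mul_span_singleton]
      push_cast
      rfl
    have h6 : Ideal.span {α} ∣ 𝔯 := (UniqueFactorizationMonoid.pow_dvd_pow_iff_dvd (n := 2) (by norm_num)).1 ⟨_, h5⟩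
    obtain ⟨𝔰, h𝔰⟩ := h6
    have h7 : 𝔰 ^ 2 = Ideal.span {(s : 𝓞 K)} := by
      rw [h𝔰, mul_pow] at h5
      exact mul_left_cancel₀ (pow_ne_zero 2 hαs0) h5
    obtain ⟨z, hz⟩ := hcase s 𝔰 (hr.squarefree_of_dvd ⟨p, by rw [hs]; ring⟩)
      ⟨p, by rw [hs]; ring⟩ hps h7
    exact ⟨α * z, by rw [h𝔰, hz, Ideal.span_singleton_mul_span_singleton]⟩
  · exact hcase r 𝔯 hr dvd_rfl hpr h4

/-- an ideal with principal square is principal -/
theorem principal_of_sq (h2 : finrank ℚ K = 2) {p : ℕ} (hp : p.Prime) {α : 𝓞 K}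
    (hα : α ^ 2 = (p : 𝓞 K)) {𝔞 : Ideal (𝓞 K)} (h𝔞 : 𝔞 ≠ ⊥) {g : 𝓞 K}
    (hg : 𝔞 ^ 2 = Ideal.span {g}) : ∃ z, 𝔞 = Ideal.span {z} := by
  have hαK : (α : K) ^ 2 = p := by
    have h := congrArg (algebraMap (𝓞 K) K) hα
    rw [map_pow, map_natCast] at h
    exact h
  have hαZ : α ^ 2 = ((p : ℤ) : 𝓞 K) := by rw [hα, Int.cast_natCast]
  have hα' := not_rat_of hp.squarefree hp.ne_one hαK
  have hcay := cayley h2 hαZ hα'
  have hN0 : Ideal.absNorm 𝔞 ≠ 0 := fun h => h𝔞 (Ideal.absNorm_eq_zero_iff.1 h)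
  have hnorm : (Algebra.norm ℤ g).natAbs = Ideal.absNorm 𝔞 ^ 2 := by
    rw [← Ideal.absNorm_span_singleton, ← hg, map_pow]
  have hcases : Algebra.norm ℤ g = (Ideal.absNorm 𝔞 : ℤ) ^ 2 ∨
      Algebra.norm ℤ g = -(Ideal.absNorm 𝔞 : ℤ) ^ 2 := by
    rcases Int.natAbs_eq (Algebra.norm ℤ g) with h | h
    · left
      rw [h, hnorm]
      push_cast
      rfl
    · right
      rw [h, hnorm]
      push_cast
      rfl
  rcases pell_cases hp with ⟨hp1, a, b, hab⟩ | ⟨hp3, a, b, hab⟩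
  · -- a unit of norm `-1`
    have hkey := key_int h2 hp hα (Or.inl hp1)
    rcases hcases with h | h
    · exact red_to_int hcay h𝔞 hg h hkey
    · set u : 𝓞 K := ((a : ℤ) : 𝓞 K) + ((b : ℤ) : 𝓞 K) * α with hu
      have hnu : Algebra.norm ℤ u = -1 := by
        rw [hu, normZ_coord h2 hαZ hα']
        have h3 : ((a ^ 2 + 1 : ℕ) : ℤ) = ((p * b ^ 2 : ℕ) : ℤ) := by rw [hab]
        push_cast at h3
        linarith
      have huu : IsUnit u := by
        rw [← Ideal.span_singleton_eq_top, ← Ideal.absNorm_eq_one_iff,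
          Ideal.absNorm_span_singleton, hnu]
        rfl
      have hspan : Ideal.span {g * u} = Ideal.span {g} := by
        rw [← Ideal.span_singleton_mul_span_singleton, Ideal.span_singleton_eq_top.2 huu,
          Ideal.mul_top]
      refine red_to_int hcay h𝔞 (g := g * u) (hg.trans hspan.symm) ?_ hkey
      rw [map_mul, h, hnu]
      ring
  · rcases hcases with h | h
    · -- the prime above `2` is principal
      have hπ : ∃ π : 𝓞 K, Ideal.span {π} ^ 2 = Ideal.span {(2 : 𝓞 K)} := by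
        set π : 𝓞 K := ((a : ℤ) : 𝓞 K) + ((b : ℤ) : 𝓞 K) * α with hπ
        obtain ⟨c, hc⟩ : ∃ c : ℕ, a ^ 2 + p * b ^ 2 = 2 * c := by
          rcases hab with h3 | h3
          · exact ⟨p * b ^ 2 + 1, by rw [h3]; ring⟩
          · exact ⟨a ^ 2 + 1, by rw [← h3]; ring⟩
        have hsq : π ^ 2 = 2 * (((c : ℤ) : 𝓞 K) + ((a * b : ℤ) : 𝓞 K) * α) := by
          have h4 : ((a : 𝓞 K)) ^ 2 + p * (b : 𝓞 K) ^ 2 = 2 * c := by exact_mod_cast congrArg (Nat.cast : ℕ → 𝓞 K) hc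
          rw [hπ]
          push_cast
          linear_combination h4 + (b : 𝓞 K) ^ 2 * hα
        have hnu : Algebra.norm ℤ (((c : ℤ) : 𝓞 K) + ((a * b : ℤ) : 𝓞 K) * α) = 1 := by
          rw [normZ_coord h2 hαZ hα']
          have h4 : (2 * (c : ℤ)) = a ^ 2 + p * b ^ 2 := by exact_mod_cast hc.symm
          have h5 : ((a : ℤ) ^ 2 - p * b ^ 2) ^ 2 = 4 := by
            rcases hab with h3 | h3
            · have h6 : (a : ℤ) ^ 2 = p * b ^ 2 + 2 := by exact_mod_cast h3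
              rw [h6]
              ring
            · have h6 : (a : ℤ) ^ 2 + 2 = p * b ^ 2 := by exact_mod_cast h3
              rw [← h6]
              ring
          have h6 : 4 * ((c : ℤ) ^ 2 - p * (a * b) ^ 2) = 4 := by
            calc 4 * ((c : ℤ) ^ 2 - p * (a * b) ^ 2) = (2 * (c : ℤ)) ^ 2 - 4 * (p * (a * b) ^ 2) := by
                  ring
              _ = ((a : ℤ) ^ 2 - p * b ^ 2) ^ 2 := by
                  rw [h4]
                  ring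
              _ = 4 := h5
          linarith
        have huu : IsUnit (((c : ℤ) : 𝓞 K) + ((a * b : ℤ) : 𝓞 K) * α) := by
          rw [← Ideal.span_singleton_eq_top, ← Ideal.absNorm_eq_one_iff,
            Ideal.absNorm_span_singleton, hnu]
          rfl
        refine ⟨π, ?_⟩
        rw [Ideal.span_singleton_pow, hsq, ← Ideal.span_singleton_mul_span_singleton,
          Ideal.span_singleton_eq_top.2 huu, Ideal.mul_top]
      exact red_to_int hcay h𝔞 hg h (key_int h2 hp hα (Or.inr hπ))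
    · -- impossible
      exfalso
      obtain ⟨r, s, hrs⟩ := int_coordQ h2 hαZ hα' g
      have h3 := congrArg (Algebra.norm ℤ) hrs
      rw [normZ_coord h2 hαZ hα', map_mul, h] at h3
      have h4 : Algebra.norm ℤ (2 * ((p : ℤ) : 𝓞 K)) = (2 * p) ^ 2 := by
        have h5 : (2 * ((p : ℤ) : 𝓞 K)) = ((2 * p : ℤ) : 𝓞 K) + ((0 : ℤ) : 𝓞 K) * α := by
          push_cast
          ring
        rw [h5, normZ_coord h2 hαZ hα']
        ring
      rw [h4] at h3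
      set N := Ideal.absNorm 𝔞 with hN
      have h5 : r.natAbs ^ 2 + (2 * p * N) ^ 2 = p * s.natAbs ^ 2 := by
        have h6 : ((r.natAbs ^ 2 + (2 * p * N) ^ 2 : ℕ) : ℤ) = ((p * s.natAbs ^ 2 : ℕ) : ℤ) := by
          push_cast
          rw [sq_abs, sq_abs]
          linarith
        exact_mod_cast h6
      have hpN : 0 < 2 * p * N := by
        have := hp.pos
        positivity
      have hs0 : s.natAbs ≠ 0 := by
        intro h6
        rw [h6] at h5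
        have : 0 < (2 * p * N) ^ 2 := by positivity
        simp at h5
        omega
      have h6 := (Nat.eq_sq_add_sq_iff (n := p * s.natAbs ^ 2)).1 ⟨_, _, h5.symm⟩ p
        (by
          rw [Nat.mem_primeFactors]
          exact ⟨hp, dvd_mul_right _ _, mul_ne_zero hp.ne_zero (pow_ne_zero 2 hs0)⟩) hp3
      have : Fact p.Prime := ⟨hp⟩
      rw [padicValNat.mul hp.ne_zero (pow_ne_zero 2 hs0), padicValNat_self, padicValNat.pow] at h6
      rw [Nat.even_iff] at h6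
      omega

/-- **the class number of `ℚ(√p)` is odd** -/
theorem odd_card (h2 : finrank ℚ K = 2) {p : ℕ} (hp : p.Prime) (hx : ∃ x : K, x ^ 2 = (p : K)) :
    Odd (Nat.card (ClassGroup (𝓞 K))) := by
  obtain ⟨x, hx⟩ := hx
  have hint : IsIntegral ℤ x := by
    have h1 : IsIntegral ℤ (x ^ 2) := by
      rw [hx]
      exact_mod_cast isIntegral_algebraMap (R := ℤ) (A := K) (x := (p : ℤ))
    exact IsIntegral.of_pow (by norm_num) h1
  set α : 𝓞 K := ⟨x, hint⟩ with hα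
  have hα2 : α ^ 2 = (p : 𝓞 K) := by
    apply RingOfIntegers.ext
    show algebraMap (𝓞 K) K (α ^ 2) = algebraMap (𝓞 K) K (p : 𝓞 K)
    rw [map_pow, map_natCast]
    exact hx
  rw [← Nat.not_even_iff_odd, even_iff_two_dvd]
  intro hd
  have : Fact (Nat.Prime 2) := ⟨Nat.prime_two⟩
  obtain ⟨c, hc⟩ := exists_prime_orderOf_dvd_card' (G := ClassGroup (𝓞 K)) 2 hd
  obtain ⟨𝔞, h𝔞⟩ := ClassGroup.mk0_surjective c
  have hb : (𝔞 : Ideal (𝓞 K)) ≠ ⊥ := nonZeroDivisors.coe_ne_zero 𝔞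
  have hc2 : c ^ 2 = 1 := by
    rw [← hc]
    exact pow_orderOf_eq_one c
  have h3 : ClassGroup.mk0 (𝔞 ^ 2) = 1 := by
    rw [map_pow, h𝔞, hc2]
  rw [ClassGroup.mk0_eq_one_iff] at h3
  obtain ⟨g, hg⟩ := h3
  have hg' : (𝔞 : Ideal (𝓞 K)) ^ 2 = Ideal.span {g} := hg
  obtain ⟨z, hz⟩ := principal_of_sq h2 hp hα2 hb hg'
  have h4 : c = 1 := by
    rw [← h𝔞, ClassGroup.mk0_eq_one_iff]
    exact ⟨z, hz⟩
  rw [h4, orderOf_one] at hc
  exact absurd hc (by norm_num)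

end

end Pool.Agent.L0h75.GN
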