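import Pool.Agent.L0h75.GN.AG
import Pool.Agent.L0h75.GN.Disc
import Pool.Agent.L0h75.GN.Ex

/-!
# The off-diagonal terms of the large sieve
-/

set_option autoImplicit false

open NumberField Module Finset

namespace Pool.Agent.L0h75.GN

section
variable {K : Type} [Field K] [NumberField K]

/-- `∑_{N𝔭 = p} ψ(𝔭)` -/
noncomputable def lam (ψ : Ideal (𝓞 K) →*₀ ℂ) (p : ℕ) : ℂ := ∑ 𝔭 ∈ NS K p, ψ 𝔭

open Classical in
/-- the vectors of the large sieve -/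
noncomputable def vv (q : ℕ) (ψ : Ideal (𝓞 K) →*₀ ℂ) (n : ℕ) : ℂ :=
  if Squarefree n ∧ n.Coprime q then ∏ p ∈ n.primeFactors, lam ψ p else 0

end

section
variable {K K' L : Type} [Field K] [NumberField K] [Field K'] [NumberField K'] [Field L]
  [NumberField L] [Algebra K L] [Algebra K' L]

lemma ff_eq (hK' : finrank ℚ K' = 2) (hL : finrank K L = 2) {β : 𝓞 K'} {c : ℕ}
    (hβ : β ^ 2 = (c : 𝓞 K')) (hβ' : ∀ x : K, algebraMap K L x ≠ algebraMap K' L (β : K'))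
    (q : ℕ) (ψ : Ideal (𝓞 K) →*₀ ℂ) (ψ' : Ideal (𝓞 K') →*₀ ℂ) (n : ℕ) :
    ff (q * (2 * c)) (chi L ψ ψ') n = vv q ψ n * vv (2 * c) ψ' n := by
  classical
  rw [ff_apply]
  unfold vv
  have hk : Squarefree n ∧ n.Coprime (q * (2 * c)) ↔
      (Squarefree n ∧ n.Coprime q) ∧ (Squarefree n ∧ n.Coprime (2 * c)) := by
    rw [Nat.coprime_mul_iff_right]
    tauto
  by_cases h1 : Squarefree n ∧ n.Coprime q
  · by_cases h2 : Squarefree n ∧ n.Coprime (2 * c)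
    · rw [if_pos h1, if_pos h2, if_pos (hk.2 ⟨h1, h2⟩),
        ← (AS_chi_mult (chi L ψ ψ')).prod_primeFactors h1.1, ← prod_mul_distrib]
      refine prod_congr rfl fun p hp => ?_
      have hpp := Nat.prime_of_mem_primeFactors hp
      rw [AS_apply _ hpp.ne_zero]
      have hβi : β ^ 2 = ((c : ℤ) : 𝓞 K') := by rw [hβ, Int.cast_natCast]
      refine sum_prime hpp hK' hL hβi hβ' ?_ ψ ψ'
      have h3 : ¬ p ∣ 2 * c := by
        intro h3
        have h4 := Nat.dvd_gcd (Nat.dvd_of_mem_primeFactors hp) h3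
        rw [h2.2] at h4
        exact hpp.ne_one (Nat.dvd_one.1 h4)
      intro h4
      apply h3
      have h5 : ((2 * c : ℕ) : ZMod p) = 0 := by
        rw [← h4]
        push_cast
        rfl
      rwa [ZMod.natCast_eq_zero_iff] at h5
    · rw [if_neg h2, mul_zero, if_neg fun h => h2 (hk.1 h).2]
  · rw [if_neg h1, zero_mul, if_neg fun h => h1 (hk.1 h).1]

end

/-- **the off-diagonal terms** -/
theorem off_diag : ∃ C : ℝ, 0 < C ∧ ∀ (K K' : Type) [Field K] [NumberField K] [Field K']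
    [NumberField K'], finrank ℚ K = 2 → finrank ℚ K' = 2 → ∀ d d' : ℕ, Squarefree d → d ≠ 1 →
    Squarefree d' → d' ≠ 1 → d ≠ d' → ∀ (α : 𝓞 K), α ^ 2 = (d : 𝓞 K) → ∀ (β : 𝓞 K'),
    β ^ 2 = (d' : 𝓞 K') → ∀ (ψ : Ideal (𝓞 K) →*₀ ℂ) (ψ' : Ideal (𝓞 K') →*₀ ℂ), CC ψ → CC ψ' →
    (∃ 𝔞 : Ideal (𝓞 K), 𝔞 ≠ ⊥ ∧ ψ 𝔞 ^ 2 ≠ 1) → ∀ l : ℝ,
      ‖∑' n : ℕ, vv (2 * d) ψ n * vv (2 * d') ψ' n * (wn l n : ℂ)‖ ≤
        C * (d * d' : ℝ) ^ 3 * Real.exp (3 / 4 * l) := by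
  obtain ⟨C, hC0, hC⟩ := ff_bound
  obtain ⟨A, hA1, hA⟩ := smooth_bound 4
  refine ⟨C * 4 * (A * 256), by positivity, ?_⟩
  intro K K' _ _ _ _ hK hK' d d' hd hd1 hd' hd'1 hne α hα β hβ ψ ψ' hψ hψ' hnt l
  have hαK : (α : K) ^ 2 = d := by
    have h := congrArg (algebraMap (𝓞 K) K) hα
    rw [map_pow, map_natCast] at h
    exact h
  have hβK : (β : K') ^ 2 = d' := by
    have h := congrArg (algebraMap (𝓞 K') K') hβ
    rw [map_pow, map_natCast] at h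
    exact h
  obtain ⟨L, i1, i2, i3, i4, hL, hL', h4, hβ', hα'⟩ :=
    exists_L hK hK' hd hd1 hd' hd'1 hne hαK hβK
  have hdi : (α : K) ^ 2 = ((d : ℤ) : K) := by rw [hαK, Int.cast_natCast]
  have hCC := chi_CC (L := L) hψ hψ'
  have hunr := hCC.isUnr
  have hq : 2 * d * (2 * d') ≠ 0 := by
    have := hd.ne_zero
    have := hd'.ne_zero
    positivity
  have hb := hC L h4 (2 * d * (2 * d')) hq (chi L ψ ψ') hunr.norm_le_one
    (A * (Ideal.absNorm (differentIdeal ℤ (𝓞 L)) : ℝ)) (fun l => hA L h4 _ _ hunr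
      (chi_ne hK hK' hL' hL hdi hα' hψ' hnt) l) l
  have h1 : ∀ n : ℕ, ff (2 * d * (2 * d')) (chi L ψ ψ') n = vv (2 * d) ψ n * vv (2 * d') ψ' n :=
    fun n => ff_eq hK' hL hβ hβ' (2 * d) ψ ψ' n
  simp_rw [h1] at hb
  refine hb.trans ?_
  have hdisc := disc_le (K := K) (L := L) hK hL h4 (a := α) (c := (d : ℤ))
    (by exact_mod_cast hd.ne_zero) (by rw [hα, Int.cast_natCast]) (not_rat_of hd hd1 hαK)
    (b := algebraMap (𝓞 K') (𝓞 L) β) (c' := (d' : ℤ)) (by exact_mod_cast hd'.ne_zero)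
    (by rw [← map_pow, hβ, map_natCast, Int.cast_natCast]) hβ'
  rw [Int.natAbs_natCast, Int.natAbs_natCast] at hdisc
  have hdisc' : (Ideal.absNorm (differentIdeal ℤ (𝓞 L)) : ℝ) ≤ 256 * (d * d' : ℝ) ^ 2 := by
    exact_mod_cast hdisc
  push_cast
  calc C * (2 * d * (2 * d')) * (A * (Ideal.absNorm (differentIdeal ℤ (𝓞 L)) : ℝ)) *
        Real.exp (3 / 4 * l) ≤ C * (2 * d * (2 * d')) * (A * (256 * (d * d' : ℝ) ^ 2)) *
        Real.exp (3 / 4 * l) := by gcongr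
    _ = _ := by ring

end Pool.Agent.L0h75.GN
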