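import Mathlib

/-!
# Quadratic extensions of number fields: coordinates, trace, norm
-/

set_option autoImplicit false

open NumberField

namespace Pool.Agent.L0h75.GN

section field

variable {F E : Type} [Field F] [Field E] [Algebra F E] {c : F} {a : E}

lemma li_pair (ha' : ∀ x : F, algebraMap F E x ≠ a) : LinearIndependent F ![(1 : E), a] := by
  rw [LinearIndependent.pair_iff]
  intro s t h
  rw [Algebra.smul_def, Algebra.smul_def, mul_one] at h
  have ht : t = 0 := by
    by_contra ht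
    apply ha' (-s / t)
    have ht' : algebraMap F E t ≠ 0 := by
      rw [Ne, map_eq_zero]
      exact ht
    rw [map_div₀, map_neg]
    field_simp
    linear_combination -h
  refine ⟨?_, ht⟩
  rw [ht, map_zero, zero_mul, add_zero, map_eq_zero] at h
  exact h

/-- the basis `1, a` -/
noncomputable def bas (h2 : Module.finrank F E = 2) (ha' : ∀ x : F, algebraMap F E x ≠ a) :
    Module.Basis (Fin 2) F E :=
  basisOfLinearIndependentOfCardEqFinrank (li_pair ha') (by rw [h2]; simp)

lemma bas_zero (h2 : Module.finrank F E = 2) (ha' : ∀ x : F, algebraMap F E x ≠ a) :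
    bas h2 ha' 0 = 1 := by
  unfold bas
  rw [coe_basisOfLinearIndependentOfCardEqFinrank]
  rfl

lemma bas_one (h2 : Module.finrank F E = 2) (ha' : ∀ x : F, algebraMap F E x ≠ a) :
    bas h2 ha' 1 = a := by
  unfold bas
  rw [coe_basisOfLinearIndependentOfCardEqFinrank]
  rfl

lemma exists_coord (h2 : Module.finrank F E = 2) (ha' : ∀ x : F, algebraMap F E x ≠ a) (x : E) :
    ∃ u v : F, x = algebraMap F E u + algebraMap F E v * a := by
  refine ⟨(bas h2 ha').repr x 0, (bas h2 ha').repr x 1, ?_⟩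
  conv_lhs => rw [← (bas h2 ha').sum_repr x]
  rw [Fin.sum_univ_two, bas_zero, bas_one, Algebra.smul_def, Algebra.smul_def, mul_one]

lemma coord_unique (ha' : ∀ x : F, algebraMap F E x ≠ a) {u v u' v' : F}
    (h : algebraMap F E u + algebraMap F E v * a = algebraMap F E u' + algebraMap F E v' * a) :
    u = u' ∧ v = v' := by
  have h0 := li_pair (F := F) (E := E) (a := a) ha'
  rw [LinearIndependent.pair_iff] at h0
  have h2 : (u - u') • (1 : E) + (v - v') • a = 0 := by
    rw [Algebra.smul_def, Algebra.smul_def, mul_one, map_sub, map_sub]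
    linear_combination h
  obtain ⟨h3, h4⟩ := h0 _ _ h2
  exact ⟨sub_eq_zero.1 h3, sub_eq_zero.1 h4⟩

lemma lmm (h2 : Module.finrank F E = 2) (ha : a ^ 2 = algebraMap F E c)
    (ha' : ∀ x : F, algebraMap F E x ≠ a) (u v : F) :
    Algebra.leftMulMatrix (bas h2 ha') (algebraMap F E u + algebraMap F E v * a) =
      !![u, c * v; v, u] := by
  have e0 : (algebraMap F E u + algebraMap F E v * a) * bas h2 ha' 0 =
      u • bas h2 ha' 0 + v • bas h2 ha' 1 := by
    rw [bas_zero, bas_one, Algebra.smul_def, Algebra.smul_def]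
    ring
  have e1 : (algebraMap F E u + algebraMap F E v * a) * bas h2 ha' 1 =
      (c * v) • bas h2 ha' 0 + u • bas h2 ha' 1 := by
    rw [bas_zero, bas_one, Algebra.smul_def, Algebra.smul_def, map_mul, ← ha]
    ring
  ext i j
  rw [Algebra.leftMulMatrix_eq_repr_mul]
  fin_cases i <;> fin_cases j
  · simp [e0]
  · simp [e1]
  · simp [e0]
  · simp [e1]

lemma norm_coord (h2 : Module.finrank F E = 2) (ha : a ^ 2 = algebraMap F E c)
    (ha' : ∀ x : F, algebraMap F E x ≠ a) (u v : F) :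
    Algebra.norm F (algebraMap F E u + algebraMap F E v * a) = u ^ 2 - c * v ^ 2 := by
  rw [Algebra.norm_eq_matrix_det (bas h2 ha'), lmm h2 ha ha', Matrix.det_fin_two_of]
  ring

lemma trace_coord (h2 : Module.finrank F E = 2) (ha : a ^ 2 = algebraMap F E c)
    (ha' : ∀ x : F, algebraMap F E x ≠ a) (u v : F) :
    Algebra.trace F E (algebraMap F E u + algebraMap F E v * a) = 2 * u := by
  rw [Algebra.trace_eq_matrix_trace (bas h2 ha'), lmm h2 ha ha', Matrix.trace_fin_two_of]
  ring

end field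

section nf

variable {F E : Type} [Field F] [NumberField F] [Field E] [NumberField E] [Algebra F E]

/-- the coordinates of an integer -/
lemma int_coord (h2 : Module.finrank F E = 2) {a : 𝓞 E} {c : ℤ} (ha : a ^ 2 = (c : 𝓞 E))
    (ha' : ∀ x : F, algebraMap F E x ≠ (a : E)) (x : 𝓞 E) :
    ∃ r s : 𝓞 F, (2 * c : 𝓞 E) * x = algebraMap (𝓞 F) (𝓞 E) r + algebraMap (𝓞 F) (𝓞 E) s * a := by
  have haE : (a : E) ^ 2 = algebraMap F E (c : F) := by
    have h := congrArg (algebraMap (𝓞 E) E) ha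
    rw [map_pow, map_intCast] at h
    rw [h, map_intCast]
  obtain ⟨u, v, huv⟩ := exists_coord h2 ha' (x : E)
  have h1 : IsIntegral ℤ (2 * u) := by
    rw [← trace_coord h2 haE ha' u v, ← huv]
    exact Algebra.isIntegral_trace (RingOfIntegers.isIntegral_coe x)
  have h3 : IsIntegral ℤ (2 * (c * v)) := by
    have e : algebraMap F E (c * v) + algebraMap F E u * (a : E) = (x : E) * (a : E) := by
      rw [huv, map_mul, ← haE]
      ring
    rw [← trace_coord h2 haE ha' (c * v) u, e]
    exact Algebra.isIntegral_trace ((RingOfIntegers.isIntegral_coe x).mul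
      (RingOfIntegers.isIntegral_coe a))
  obtain ⟨p, hp⟩ : ∃ p : 𝓞 F, algebraMap (𝓞 F) F p = 2 * u := ⟨⟨2 * u, h1⟩, rfl⟩
  obtain ⟨q, hq⟩ : ∃ q : 𝓞 F, algebraMap (𝓞 F) F q = 2 * (c * v) := ⟨⟨2 * (c * v), h3⟩, rfl⟩
  refine ⟨(c : 𝓞 F) * p, q, ?_⟩
  apply RingOfIntegers.coe_injective
  have e2 : ∀ y : 𝓞 F, algebraMap (𝓞 E) E (algebraMap (𝓞 F) (𝓞 E) y) =
      algebraMap F E (algebraMap (𝓞 F) F y) := fun y => rfl
  simp only [map_mul, map_add, map_ofNat, map_intCast, e2, hp, hq, huv]
  ring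

/-- uniqueness of the coordinates -/
lemma int_unique {a : 𝓞 E} (ha' : ∀ x : F, algebraMap F E x ≠ (a : E)) {r s r' s' : 𝓞 F}
    (h : algebraMap (𝓞 F) (𝓞 E) r + algebraMap (𝓞 F) (𝓞 E) s * a =
      algebraMap (𝓞 F) (𝓞 E) r' + algebraMap (𝓞 F) (𝓞 E) s' * a) : r = r' ∧ s = s' := by
  have h1 := congrArg (algebraMap (𝓞 E) E) h
  rw [map_add, map_add, map_mul, map_mul] at h1
  have h2 := coord_unique (F := F) (E := E) ha' (u := (r : F)) (v := (s : F)) (u' := (r' : F))
    (v' := (s' : F)) h1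
  exact ⟨RingOfIntegers.coe_injective h2.1, RingOfIntegers.coe_injective h2.2⟩

/-- the coordinates of an integer of a quadratic field -/
lemma int_coordQ (h2 : Module.finrank ℚ E = 2) {a : 𝓞 E} {c : ℤ} (ha : a ^ 2 = (c : 𝓞 E))
    (ha' : ∀ x : ℚ, algebraMap ℚ E x ≠ (a : E)) (x : 𝓞 E) :
    ∃ r s : ℤ, (2 * c : 𝓞 E) * x = (r : 𝓞 E) + (s : 𝓞 E) * a := by
  have haE : (a : E) ^ 2 = algebraMap ℚ E (c : ℚ) := by
    have h := congrArg (algebraMap (𝓞 E) E) ha
    rw [map_pow, map_intCast] at h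
    rw [h, map_intCast]
  obtain ⟨u, v, huv⟩ := exists_coord h2 ha' (x : E)
  have h1 : IsIntegral ℤ (2 * u) := by
    rw [← trace_coord h2 haE ha' u v, ← huv]
    exact Algebra.isIntegral_trace (RingOfIntegers.isIntegral_coe x)
  have h3 : IsIntegral ℤ (2 * (c * v)) := by
    have e : algebraMap ℚ E (c * v) + algebraMap ℚ E u * (a : E) = (x : E) * (a : E) := by
      rw [huv, map_mul, ← haE]
      ring
    rw [← trace_coord h2 haE ha' (c * v) u, e]
    exact Algebra.isIntegral_trace ((RingOfIntegers.isIntegral_coe x).mul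
      (RingOfIntegers.isIntegral_coe a))
  obtain ⟨m, hm⟩ := IsIntegrallyClosed.isIntegral_iff.1 h1
  obtain ⟨k, hk⟩ := IsIntegrallyClosed.isIntegral_iff.1 h3
  refine ⟨c * m, k, ?_⟩
  apply RingOfIntegers.coe_injective
  have hm' : algebraMap ℚ E (2 * u) = (m : E) := by
    rw [← hm]
    simp
  have hk' : algebraMap ℚ E (2 * (c * v)) = (k : E) := by
    rw [← hk]
    simp
  simp only [map_mul, map_add, map_ofNat, map_intCast, huv, Int.cast_mul]
  rw [← hk', ← hm']
  simp only [map_mul, map_ofNat, map_intCast]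
  ring

end nf

end Pool.Agent.L0h75.GN
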