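import Pool.Agent.L0h75.GN.Quad
import Pool.Agent.R362.HkFe

/-!
# The character of a biquadratic field attached to two class group characters
-/

set_option autoImplicit false

open NumberField Module

namespace Pool.Agent.L0h75.GN

variable {K K' L : Type} [Field K] [NumberField K] [Field K'] [NumberField K'] [Field L]
  [NumberField L] [Algebra K L] [Algebra K' L]

lemma not_rat {α : K} (hα' : ∀ x : K', algebraMap K' L x ≠ algebraMap K L α) (q : ℚ) :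
    algebraMap ℚ K q ≠ α := by
  rintro rfl
  apply hα' (algebraMap ℚ K' q)
  simp

lemma norm_compat (hK : finrank ℚ K = 2) (hL : finrank K' L = 2) {α : K} {d : ℤ}
    (hα : α ^ 2 = (d : K)) (hα' : ∀ x : K', algebraMap K' L x ≠ algebraMap K L α) (x : K) :
    Algebra.norm K' (algebraMap K L x) = algebraMap ℚ K' (Algebra.norm ℚ x) := by
  obtain ⟨u, v, rfl⟩ := exists_coord hK (not_rat hα') x
  have h1 : algebraMap K L (algebraMap ℚ K u + algebraMap ℚ K v * α) =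
      algebraMap K' L (algebraMap ℚ K' u) + algebraMap K' L (algebraMap ℚ K' v) *
        algebraMap K L α := by
    simp
  rw [h1, norm_coord hL (c := (d : K')) (by rw [← map_pow, hα]; simp) hα',
    norm_coord hK (c := (d : ℚ)) (by rw [hα]; simp) (not_rat hα')]
  simp

lemma intNorm_compat (hK : finrank ℚ K = 2) (hL : finrank K' L = 2) {α : K} {d : ℤ}
    (hα : α ^ 2 = (d : K)) (hα' : ∀ x : K', algebraMap K' L x ≠ algebraMap K L α) (x : 𝓞 K) :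
    Algebra.intNorm (𝓞 K') (𝓞 L) (algebraMap (𝓞 K) (𝓞 L) x) =
      algebraMap ℤ (𝓞 K') (Algebra.intNorm ℤ (𝓞 K) x) := by
  apply RingOfIntegers.coe_injective
  rw [Algebra.algebraMap_intNorm (K := K') (L := L)]
  have h1 : algebraMap (𝓞 L) L (algebraMap (𝓞 K) (𝓞 L) x) = algebraMap K L (x : K) := rfl
  have h2 : algebraMap (𝓞 K') K' (algebraMap ℤ (𝓞 K') (Algebra.intNorm ℤ (𝓞 K) x)) =
      algebraMap ℚ K' (algebraMap ℤ ℚ (Algebra.intNorm ℤ (𝓞 K) x)) := by simp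
  rw [h1, h2, Algebra.algebraMap_intNorm (K := ℚ) (L := K), norm_compat hK hL hα hα']

/-- the relative norm of an ideal of the other quadratic field is principal -/
lemma relNorm_other (hK : finrank ℚ K = 2) (hK' : finrank ℚ K' = 2) (hL : finrank K' L = 2)
    (hL2 : finrank K L = 2) {α : K} {d : ℤ}
    (hα : α ^ 2 = (d : K)) (hα' : ∀ x : K', algebraMap K' L x ≠ algebraMap K L α)
    {𝔞 : Ideal (𝓞 K)} (h𝔞 : 𝔞 ≠ ⊥) :
    Ideal.relNorm (𝓞 K') (𝔞.map (algebraMap (𝓞 K) (𝓞 L))) =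
      Ideal.span {((Ideal.absNorm 𝔞 : ℕ) : 𝓞 K')} := by
  have hN : Ideal.absNorm 𝔞 ≠ 0 := by rwa [Ne, Ideal.absNorm_eq_zero_iff]
  have hr1 : finrank (𝓞 K) (𝓞 L) = 2 := by
    rw [← IsFractionRing.finrank_eq (𝓞 K) K (𝓞 L) L, hL2]
  -- one inclusion
  have hle : Ideal.span {((Ideal.absNorm 𝔞 : ℕ) : 𝓞 K')} ≤
      Ideal.relNorm (𝓞 K') (𝔞.map (algebraMap (𝓞 K) (𝓞 L))) := by
    have h1 : Ideal.map (algebraMap ℤ (𝓞 K')) (Ideal.relNorm ℤ 𝔞) ≤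
        Ideal.relNorm (𝓞 K') (𝔞.map (algebraMap (𝓞 K) (𝓞 L))) := by
      rw [Ideal.map_relNorm, Ideal.span_le]
      rintro _ ⟨x, hx, rfl⟩
      rw [Function.comp_apply, ← intNorm_compat hK hL hα hα' x, SetLike.mem_coe,
        Ideal.relNorm_apply]
      exact Ideal.subset_span ⟨_, Ideal.mem_map_of_mem _ hx, rfl⟩
    rw [Ideal.relNorm_int, Ideal.map_span, Set.image_singleton] at h1
    simpa using h1
  -- equality of the norms
  have hn1 : Ideal.absNorm (Ideal.relNorm (𝓞 K') (𝔞.map (algebraMap (𝓞 K) (𝓞 L)))) =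
      Ideal.absNorm 𝔞 ^ 2 := by
    rw [Ideal.absNorm_relNorm, Ideal.absNorm_algebraMap, hr1]
  have hn2 : Ideal.absNorm (Ideal.span {((Ideal.absNorm 𝔞 : ℕ) : 𝓞 K')}) =
      Ideal.absNorm 𝔞 ^ 2 := by
    rw [Ideal.absNorm_span_singleton]
    have h2 : ((Ideal.absNorm 𝔞 : ℕ) : 𝓞 K') = algebraMap ℤ (𝓞 K') (Ideal.absNorm 𝔞 : ℤ) := by simp
    rw [h2, Algebra.norm_algebraMap, RingOfIntegers.rank, hK', Int.natAbs_pow, Int.natAbs_natCast]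
  obtain ⟨C, hC⟩ := Ideal.dvd_iff_le.2 hle
  have h3 := congrArg Ideal.absNorm hC
  rw [map_mul, hn1, hn2] at h3
  have h4 : Ideal.absNorm C = 1 := by
    have h5 : 0 < Ideal.absNorm 𝔞 ^ 2 := by positivity
    exact Nat.eq_of_mul_eq_mul_left h5 (by rw [← h3, mul_one])
  rw [Ideal.absNorm_eq_one_iff] at h4
  rw [hC, h4, Ideal.mul_top]

variable (L) in
/-- the character of the ideals of `L` -/
noncomputable def chi (ψ : Ideal (𝓞 K) →*₀ ℂ) (ψ' : Ideal (𝓞 K') →*₀ ℂ) :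
    Ideal (𝓞 L) →*₀ ℂ where
  toFun 𝔠 := ψ (Ideal.relNorm (𝓞 K) 𝔠) * ψ' (Ideal.relNorm (𝓞 K') 𝔠)
  map_zero' := by rw [map_zero, map_zero, zero_mul]
  map_one' := by rw [map_one, map_one, map_one, map_one, one_mul]
  map_mul' 𝔞 𝔟 := by rw [map_mul, map_mul, map_mul, map_mul]; ring

lemma chi_apply (ψ : Ideal (𝓞 K) →*₀ ℂ) (ψ' : Ideal (𝓞 K') →*₀ ℂ) (𝔠 : Ideal (𝓞 L)) :
    chi L ψ ψ' 𝔠 = ψ (Ideal.relNorm (𝓞 K) 𝔠) * ψ' (Ideal.relNorm (𝓞 K') 𝔠) := rfl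

/-- characters of the class group, as functions on the ideals -/
def CC (ψ : Ideal (𝓞 K) →*₀ ℂ) : Prop := ∀ x : 𝓞 K, x ≠ 0 → ψ (Ideal.span {x}) = 1

lemma chi_CC {ψ : Ideal (𝓞 K) →*₀ ℂ} {ψ' : Ideal (𝓞 K') →*₀ ℂ} (h : CC ψ) (h' : CC ψ') :
    CC (chi L ψ ψ') := by
  intro x hx
  rw [chi_apply, Ideal.relNorm_singleton, Ideal.relNorm_singleton, h _ ?_, h' _ ?_, one_mul]
  · rw [Ne, ← Ideal.span_singleton_eq_bot, ← Ideal.relNorm_singleton, Ideal.relNorm_eq_bot_iff,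
      Ideal.span_singleton_eq_bot]
    exact hx
  · rw [Ne, ← Ideal.span_singleton_eq_bot, ← Ideal.relNorm_singleton, Ideal.relNorm_eq_bot_iff,
      Ideal.span_singleton_eq_bot]
    exact hx

lemma CC.isUnr {ψ : Ideal (𝓞 K) →*₀ ℂ} (h : CC ψ) :
    Pool.Agent.R362.HL.IsUnr (fun _ : InfinitePlace K => 0) ψ where
  sig_le := fun _ => Nat.zero_le _
  cpx := fun _ _ => rfl
  sig := fun x hx => by
    rw [h x hx]
    unfold Pool.Agent.Y773.G.sg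
    simp

/-- the character of `L` on the ideals of `K` -/
theorem chi_map (hK : finrank ℚ K = 2) (hK' : finrank ℚ K' = 2) (hL : finrank K' L = 2)
    (hL2 : finrank K L = 2) {α : K} {d : ℤ}
    (hα : α ^ 2 = (d : K)) (hα' : ∀ x : K', algebraMap K' L x ≠ algebraMap K L α)
    {ψ : Ideal (𝓞 K) →*₀ ℂ} {ψ' : Ideal (𝓞 K') →*₀ ℂ} (h' : CC ψ')
    {𝔞 : Ideal (𝓞 K)} (h𝔞 : 𝔞 ≠ ⊥) :
    chi L ψ ψ' (𝔞.map (algebraMap (𝓞 K) (𝓞 L))) = ψ 𝔞 ^ 2 := by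
  have hr1 : finrank (𝓞 K) (𝓞 L) = 2 := by
    rw [← IsFractionRing.finrank_eq (𝓞 K) K (𝓞 L) L, hL2]
  rw [chi_apply, relNorm_other hK hK' hL hL2 hα hα' h𝔞, Ideal.relNorm_algebraMap, hr1, map_pow,
    h' _ ?_, mul_one]
  have hN : Ideal.absNorm 𝔞 ≠ 0 := by rwa [Ne, Ideal.absNorm_eq_zero_iff]
  exact_mod_cast hN

/-- the character is not trivial if `ψ ^ 2` is not -/
theorem chi_ne (hK : finrank ℚ K = 2) (hK' : finrank ℚ K' = 2) (hL : finrank K' L = 2)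
    (hL2 : finrank K L = 2) {α : K} {d : ℤ}
    (hα : α ^ 2 = (d : K)) (hα' : ∀ x : K', algebraMap K' L x ≠ algebraMap K L α)
    {ψ : Ideal (𝓞 K) →*₀ ℂ} {ψ' : Ideal (𝓞 K') →*₀ ℂ} (h' : CC ψ')
    (hψ : ∃ 𝔞 : Ideal (𝓞 K), 𝔞 ≠ ⊥ ∧ ψ 𝔞 ^ 2 ≠ 1) :
    ∃ 𝔠 : Ideal (𝓞 L), 𝔠 ≠ ⊥ ∧ chi L ψ ψ' 𝔠 ≠ 1 := by
  obtain ⟨𝔞, h𝔞, hne⟩ := hψ
  refine ⟨𝔞.map (algebraMap (𝓞 K) (𝓞 L)), ?_, ?_⟩
  · rw [Ne, Ideal.map_eq_bot_iff_of_injective]
    · exact h𝔞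
    · exact FaithfulSMul.algebraMap_injective _ _
  · rw [chi_map hK hK' hL hL2 hα hα' h' h𝔞]
    exact hne

end Pool.Agent.L0h75.GN
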